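import Pool.Agent.Run7.h353.Atomic

set_option autoImplicit false

/-!
# Algebraic elements, definability with parameters, back and forth for infinite sequences
-/

open FirstOrder FirstOrder.Language Set

namespace Run7.h353

variable {L : FirstOrder.Language.{0, 0}} {U : Type} [L.Structure U]

omit [L.Structure U] in
/-- two sequences mixed -/
def mix (y w : ℕ → U) : ℕ → U := fun n => if n % 2 = 0 then y (n / 2) else w (n / 2)

omit [L.Structure U] in
lemma mix_even (y w : ℕ → U) : mix y w ∘ (fun n => 2 * n) = y := by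
  funext n
  simp [mix]

omit [L.Structure U] in
lemma mix_odd (y w : ℕ → U) : mix y w ∘ (fun n => 2 * n + 1) = w := by
  funext n
  have h1 : (2 * n + 1) % 2 = 1 := by omega
  have h2 : (2 * n + 1) / 2 = n := by omega
  simp [mix, h1, h2]

omit [L.Structure U] in
lemma mix_mem {N : Set U} {y w : ℕ → U} (hy : ∀ i, y i ∈ N) (hw : ∀ i, w i ∈ N) (i : ℕ) :
    mix y w i ∈ N := by
  unfold mix
  split_ifs
  · exact hy _
  · exact hw _

/-- back and forth for infinite sequences -/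
lemma Sat.bfs [Countable (L.Formula ℕ)] (hS : Sat L U) {w w' : ℕ → U} (h : Eqv L w w')
    (y : ℕ → U) : ∃ y', Eqv L (mix y w) (mix y' w') := by
  classical
  have : Nonempty U := ⟨w 0⟩
  have step : ∀ (x : U) (u u' : ℕ → U), Eqv L u u' → ∃ x', Eqv L (cons x u) (cons x' u') :=
    fun x u u' h => hS.bf h x
  choose! F hF using step
  let st : ℕ → (ℕ → U) × (ℕ → U) := fun n => Nat.rec (w, w')
    (fun n p => (cons (y n) p.1, cons (F (y n) p.1 p.2) p.2)) n
  have hst : ∀ n, st (n + 1) = (cons (y n) (st n).1, cons (F (y n) (st n).1 (st n).2) (st n).2) :=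
    fun n => rfl
  have h1 : ∀ n, Eqv L (st n).1 (st n).2 := by
    intro n
    induction n with
    | zero => exact h
    | succ n ih => rw [hst]; exact hF _ _ _ ih
  let y' : ℕ → U := fun n => F (y n) (st n).1 (st n).2
  have h2 : ∀ n j, j < n → (st n).1 (n - 1 - j) = y j ∧ (st n).2 (n - 1 - j) = y' j := by
    intro n
    induction n with
    | zero => intro j hj; omega
    | succ n ih =>
      intro j hj
      rw [hst]
      rcases Nat.lt_succ_iff_lt_or_eq.1 hj with h | rfl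
      · have h3 : n + 1 - 1 - j = (n - 1 - j) + 1 := by omega
        rw [h3]
        exact ih j h
      · have h3 : j + 1 - 1 - j = 0 := by omega
        rw [h3]
        exact ⟨rfl, rfl⟩
  have h3 : ∀ n j, (st n).1 (n + j) = w j ∧ (st n).2 (n + j) = w' j := by
    intro n
    induction n with
    | zero => intro j; rw [Nat.zero_add]; exact ⟨rfl, rfl⟩
    | succ n ih =>
      intro j
      rw [hst, show n + 1 + j = (n + j) + 1 by omega]
      exact ih j
  refine ⟨y', eqv_of_agree fun n => ?_⟩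
  let f : ℕ → ℕ := fun i => if i % 2 = 0 then n - 1 - i / 2 else n + i / 2
  refine ⟨(st n).1 ∘ f, (st n).2 ∘ f, (h1 n).subst f, fun i hi => ?_, fun i hi => ?_⟩
  · by_cases h4 : i % 2 = 0
    · simp only [Function.comp_apply, f, mix, if_pos h4]
      exact (h2 n (i / 2) (by omega)).1
    · simp only [Function.comp_apply, f, mix, if_neg h4]
      exact (h3 n (i / 2)).1
  · by_cases h4 : i % 2 = 0
    · simp only [Function.comp_apply, f, mix, if_pos h4]
      exact (h2 n (i / 2) (by omega)).2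
    · simp only [Function.comp_apply, f, mix, if_neg h4]
      exact (h3 n (i / 2)).2

variable (L) in
/-- unary relations definable with parameters from `N` -/
def DP (N : Set U) (R : U → Prop) : Prop :=
  ∃ z : ℕ → U, (∀ i, z i ∈ N) ∧ ∃ P, Dfn L P ∧ ∀ x, R x ↔ P (cons x z)

lemma DP.congr {N : Set U} {R R' : U → Prop} (h : DP L N R) (hR : ∀ x, R x ↔ R' x) :
    DP L N R' := by
  obtain ⟨z, hz, P, hP, h⟩ := h
  exact ⟨z, hz, P, hP, fun x => (hR x).symm.trans (h x)⟩

lemma DP.not {N : Set U} {R : U → Prop} (h : DP L N R) : DP L N (fun x => ¬ R x) := by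
  obtain ⟨z, hz, P, hP, h⟩ := h
  exact ⟨z, hz, _, hP.not, fun x => not_congr (h x)⟩

omit [L.Structure U] in
lemma cons_mix_even (x : U) (y w : ℕ → U) :
    cons x (mix y w) ∘ lft (fun n => 2 * n) = cons x y := by
  rw [cons_comp_lft, mix_even]

omit [L.Structure U] in
lemma cons_mix_odd (x : U) (y w : ℕ → U) :
    cons x (mix y w) ∘ lft (fun n => 2 * n + 1) = cons x w := by
  rw [cons_comp_lft, mix_odd]

lemma DP.and {N : Set U} {R R' : U → Prop} (h : DP L N R) (h' : DP L N R') :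
    DP L N (fun x => R x ∧ R' x) := by
  obtain ⟨z, hz, P, hP, h⟩ := h
  obtain ⟨z', hz', P', hP', h'⟩ := h'
  refine ⟨mix z z', mix_mem hz hz', _, (hP.subst (lft fun n => 2 * n)).and
    (hP'.subst (lft fun n => 2 * n + 1)), fun x => ?_⟩
  rw [cons_mix_even, cons_mix_odd]
  exact and_congr (h x) (h' x)

lemma DP.of {N : Set U} {P : (ℕ → U) → Prop} (hP : Dfn L P) {z : ℕ → U} (hz : ∀ i, z i ∈ N) :
    DP L N (fun x => P (cons x z)) := ⟨z, hz, P, hP, fun _ => Iff.rfl⟩

lemma DP.of0 {N : Set U} (hN : N.Nonempty) {P : (ℕ → U) → Prop} (hP : Dfn L P) :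
    DP L N (fun x => P (fun _ => x)) := by
  obtain ⟨a, ha⟩ := hN
  exact ⟨fun _ => a, fun _ => ha, _, hP.subst (fun _ => 0), fun x => Iff.rfl⟩

lemma DP.eq {N : Set U} {a : U} (ha : a ∈ N) : DP L N (fun x => x = a) :=
  ⟨fun _ => a, fun _ => ha, _, Dfn.eq 0 1, fun x => Iff.rfl⟩

lemma DP.ball {N : Set U} (hN : N.Nonempty) {ι : Type} (s : Finset ι) {R : ι → U → Prop}
    (h : ∀ i ∈ s, DP L N (R i)) : DP L N (fun x => ∀ i ∈ s, R i x) := by
  classical
  induction s using Finset.induction_on with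
  | empty =>
    obtain ⟨a, ha⟩ := hN
    exact ⟨fun _ => a, fun _ => ha, _, Dfn.tr, fun x => by simp⟩
  | insert a s _ ih =>
    exact ((h a (Finset.mem_insert_self _ _)).and
      (ih fun i hi => h i (Finset.mem_insert_of_mem hi))).congr fun v => by
        simp

lemma TV.dp {N : Set U} (hN : TV L N) {R : U → Prop} (hR : DP L N R) (hx : ∃ x, R x) :
    ∃ x ∈ N, R x := by
  obtain ⟨z, hz, P, hP, h⟩ := hR
  obtain ⟨x, hx⟩ := hx
  obtain ⟨y, hy, hy2⟩ := hN z hz P hP ⟨x, (h x).1 hx⟩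
  exact ⟨y, hy, (h y).2 hy2⟩

lemma TV.fin {N : Set U} (hN : TV L N) (hne : N.Nonempty) {R : U → Prop} (hR : DP L N R)
    (hf : {x | x ∈ N ∧ R x}.Finite) : ∀ x, R x → x ∈ N := by
  classical
  intro x hx
  by_contra hxN
  have h1 : DP L N (fun x => R x ∧ ∀ a ∈ hf.toFinset, ¬ x = a) :=
    hR.and (DP.ball hne _ fun a ha => (DP.eq (hf.mem_toFinset.1 ha).1).not)
  obtain ⟨y, hy, hy1, hy2⟩ := hN.dp h1 ⟨x, hx, fun a ha h => hxN (h ▸ (hf.mem_toFinset.1 ha).1)⟩
  exact hy2 y (hf.mem_toFinset.2 ⟨hy, hy1⟩) rfl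

variable (L) in
/-- algebraic over the empty set -/
def Alg (x : U) : Prop := ∃ P, Dfn L P ∧ P (fun _ => x) ∧ {y | P (fun _ => y)}.Finite

lemma Alg.eqv {x y : U} (h : Alg L x) (hxy : Eqv L (fun _ => x) (fun _ => y)) : Alg L y := by
  obtain ⟨P, hP, h1, h2⟩ := h
  exact ⟨P, hP, (hxy P hP).1 h1, h2⟩

lemma Alg.mem {x : U} (h : Alg L x) {N : Set U} (hN : TV L N) (hne : N.Nonempty) : x ∈ N := by
  obtain ⟨P, hP, h1, h2⟩ := h
  exact hN.fin hne (DP.of0 hne hP) (h2.subset fun y hy => hy.2) x h1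

lemma Alg.fin_orbit {x : U} (h : Alg L x) : {y | Eqv L (fun _ => x) (fun _ => y)}.Finite := by
  obtain ⟨P, hP, h1, h2⟩ := h
  exact h2.subset fun y hy => (hy P hP).1 h1

lemma alg_countable [Countable (L.Formula ℕ)] : {x : U | Alg L x}.Countable := by
  have : {x : U | Alg L x} ⊆ ⋃ P ∈ {P : (ℕ → U) → Prop | Dfn L P ∧ {y | P (fun _ => y)}.Finite},
      {y | P (fun _ => y)} := by
    rintro x ⟨P, hP, h1, h2⟩
    exact mem_biUnion (x := P) ⟨hP, h2⟩ h1
  refine Countable.mono this (Countable.biUnion ?_ fun P hP => hP.2.countable)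
  exact (dfn_countable (L := L) (U := U)).mono fun P hP => hP.1

omit [L.Structure U] in
/-- truncation -/
def trn (k : ℕ) (v : ℕ → U) : ℕ → U := fun i => v (min i k)

omit [L.Structure U] in
lemma trn_wd (k : ℕ) (v : ℕ → U) : Wd k (trn k v) := by
  intro i hi
  simp [trn, hi]

/-- tuples of algebraic elements have isolated types -/
lemma isol_alg {v : ℕ → U} (hv : ∀ i, Alg L (v i)) (k : ℕ) :
    ∃ P, Dfn L P ∧ P v ∧ ∀ v', P v' → Eqv L (trn k v) (trn k v') := by
  classical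
  choose Q hQ hQ1 hQ2 using hv
  let T0 : Set (Fin (k + 1) → U) := Set.pi univ fun i => {y | Q i (fun _ => y)}
  have hT0 : T0.Finite := Set.Finite.pi fun i => hQ2 i
  let T : Set (ℕ → U) := (fun (t : Fin (k + 1) → U) (i : ℕ) => t ⟨min i k, by omega⟩) '' T0
  have hT : T.Finite := hT0.image _
  have hsep : ∀ t : ℕ → U, ∃ R, Dfn L R ∧ R (trn k v) ∧ (¬ Eqv L (trn k v) t → ¬ R t) := by
    intro t
    by_cases h : Eqv L (trn k v) t
    · exact ⟨_, Dfn.tr, trivial, fun h2 => absurd h h2⟩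
    · have h' := h
      unfold Eqv at h'
      push Not at h'
      obtain ⟨R, hR, h2⟩ := h'
      rcases h2 with ⟨h3, h4⟩ | ⟨h3, h4⟩
      · exact ⟨R, hR, h3, fun _ => h4⟩
      · exact ⟨_, hR.not, h3, fun _ h5 => h5 h4⟩
  choose R hR hR1 hR2 using hsep
  refine ⟨fun v' => (∀ i ∈ Finset.range (k + 1), Q i (fun _ => v' i)) ∧
    ∀ t ∈ hT.toFinset, R t (trn k v'), ?_, ⟨fun i _ => hQ1 i, fun t _ => hR1 t⟩, ?_⟩
  · refine (Dfn.ball _ fun i _ => ?_).and (Dfn.ball _ fun t _ => ?_)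
    · exact (hQ i).subst (fun _ => i)
    · exact (hR t).subst (fun i => min i k)
  · rintro v' ⟨h1, h2⟩
    by_contra hcon
    have h3 : trn k v' ∈ T := by
      refine ⟨fun i => v' i, fun i _ => h1 i (Finset.mem_range.2 i.2), rfl⟩
    exact hR2 _ hcon (h2 _ (hT.mem_toFinset.2 h3))

end Run7.h353
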