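import Pool.Agent.Run7.h353.Small

set_option autoImplicit false

/-!
# Atomic models over finite tuples in small structures
-/

open FirstOrder FirstOrder.Language Set

namespace Run7.h353

variable {L : FirstOrder.Language.{0, 0}} {U : Type} [L.Structure U]

omit [L.Structure U] in
/-- existential closure of the first `i` entries -/
def exs (i : ℕ) (P : (ℕ → U) → Prop) (v : ℕ → U) : Prop := ∃ u, (∀ m, u (m + i) = v m) ∧ P u

lemma Dfn.exs {P : (ℕ → U) → Prop} (hP : Dfn L P) (i : ℕ) : Dfn L (exs i P) := by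
  induction i generalizing P with
  | zero =>
    refine hP.congr fun v => ⟨fun h => ⟨v, fun m => rfl, h⟩, ?_⟩
    rintro ⟨u, h1, h2⟩
    have : u = v := funext h1
    rwa [← this]
  | succ i ih =>
    refine (ih hP.ex).congr fun v => ⟨?_, ?_⟩
    · rintro ⟨u, h1, x, hx⟩
      exact ⟨cons x u, fun m => h1 m, hx⟩
    · rintro ⟨u, h1, h2⟩
      refine ⟨fun m => u (m + 1), fun m => ?_, u 0, ?_⟩
      · have := h1 m
        rw [← this]
        rfl
      · rwa [cons_eta]

variable (L) in
/-- `P` isolates the type of the first `k` entries of `v` over the rest `w` -/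
structure IsolN (k : ℕ) (P : (ℕ → U) → Prop) (v w : ℕ → U) : Prop where
  dfn : Dfn L P
  tail : ∀ m, v (m + k) = w m
  holds : P v
  eqv : ∀ v', (∀ m, v' (m + k) = w m) → P v' → Eqv L v v'

lemma IsolN.sub {i : ℕ} {P : (ℕ → U) → Prop} {v w : ℕ → U} (h : IsolN L i P v w) (k : ℕ)
    (v' : ℕ → U) (hv' : ∀ m, v' (m + k) = w m) (f : ℕ → ℕ) (hf : ∀ j < k, v' j = v (f j)) :
    ∃ P', IsolN L k P' v' w := by
  classical
  let g : ℕ → ℕ := fun m => if m < i then m else m + k
  let R : (ℕ → U) → Prop := exs i (fun u => P (u ∘ g) ∧ ∀ j ∈ Finset.range k, u (j + i) = u (g (f j)))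
  have hR : Dfn L R := Dfn.exs ((h.dfn.subst g).and (Dfn.ball _ fun j _ => Dfn.eq _ _)) i
  refine ⟨R, hR, hv', ?_, ?_⟩
  · let u : ℕ → U := fun m => if m < i then v m else v' (m - i)
    have hu : u ∘ g = v := by
      funext m
      by_cases hm : m < i
      · simp [u, g, hm]
      · have h1 : ¬ m + k < i := by omega
        simp only [u, g, Function.comp_apply, if_neg hm, if_neg h1]
        have h2 : m + k - i = (m - i) + k := by omega
        rw [h2, hv', ← h.tail]
        congr 1
        omega
    refine ⟨u, fun m => ?_, by rw [hu]; exact h.holds, fun j hj => ?_⟩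
    · have h1 : ¬ m + i < i := by omega
      simp only [u, if_neg h1]
      congr 1
      omega
    · have h1 : ¬ j + i < i := by omega
      have h2 : u (g (f j)) = v (f j) := congrFun hu (f j)
      rw [h2]
      simp only [u, if_neg h1, Nat.add_sub_cancel]
      exact hf j (Finset.mem_range.1 hj)
  · rintro u' hu' ⟨u, hu1, hu2, hu3⟩
    have hw : ∀ m, (u ∘ g) (m + i) = w m := by
      intro m
      have h1 : ¬ m + i < i := by omega
      simp only [Function.comp_apply, g, if_neg h1]
      rw [show m + i + k = (m + k) + i by omega, hu1, hu']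
    have h1 := (h.eqv _ hw hu2).subst (fun j => if j < k then f j else (j - k) + i)
    have e1 : v ∘ (fun j => if j < k then f j else (j - k) + i) = v' := by
      funext j
      by_cases hj : j < k
      · simp only [Function.comp_apply, if_pos hj, hf j hj]
      · simp only [Function.comp_apply, if_neg hj]
        rw [h.tail, ← hv']
        congr 1
        omega
    have e2 : (u ∘ g) ∘ (fun j => if j < k then f j else (j - k) + i) = u' := by
      funext j
      by_cases hj : j < k
      · simp only [Function.comp_apply, if_pos hj]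
        rw [← hu3 j (Finset.mem_range.2 hj), hu1]
      · simp only [Function.comp_apply, if_neg hj]
        have h2 : g (j - k + i) = j + i := by
          simp only [g]
          rw [if_neg (by omega)]
          omega
        rw [h2, hu1]
    rw [e1, e2] at h1
    exact h1

/-- the stages of the construction of an atomic model -/
lemma exists_stages [Countable (L.Formula ℕ)] (hS : Sat L U) (hsm : Small L U) {n : ℕ} {w : ℕ → U}
    (hw : Wd n w) : ∃ st : ℕ → ℕ → U, st 0 = w ∧
      (∀ i, ∃ x P, st (i + 1) = cons x (st i) ∧ Isol L P x (st i)) ∧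
      ∀ j P, Dfn L P → (∃ x, P (cons x (st j))) → ∃ i, P (cons (st i 0) (st j)) := by
  classical
  obtain ⟨e, he1, he2⟩ := exists_enum L U
  have step : ∀ (Q : (ℕ → U) → Prop) (m : ℕ) (u : ℕ → U), Dfn L Q → Wd m u →
      ∃ x P, ((∃ y, Q (cons y u)) → Q (cons x u)) ∧ Isol L P x u := by
    intro Q m u hQ hu
    by_cases h : ∃ y, Q (cons y u)
    · obtain ⟨x, P, h1, h2⟩ := hsm.dense hS hu hQ h
      exact ⟨x, P, fun _ => h1, h2⟩
    · obtain ⟨x, P, h1, h2⟩ := hsm.dense hS hu Dfn.tr ⟨w 0, trivial⟩
      exact ⟨x, P, fun h3 => absurd h3 h, h2⟩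
  have : Nonempty U := ⟨w 0⟩
  choose! F G hF hG using step
  let Q : ℕ → (ℕ → U) → Prop := fun i v =>
    e (Nat.unpair i).2 (v ∘ lft (fun m => m + (i - (Nat.unpair i).1)))
  have hQ : ∀ i, Dfn L (Q i) := fun i => (he1 _).subst _
  let st : ℕ → ℕ → U := fun i => Nat.rec w (fun i u => cons (F (Q i) (n + i) u) u) i
  have hst0 : st 0 = w := rfl
  have hst : ∀ i, st (i + 1) = cons (F (Q i) (n + i) (st i)) (st i) := fun i => rfl
  have hwd : ∀ i, Wd (n + i) (st i) := by
    intro i
    induction i with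
    | zero => exact hw
    | succ i ih => rw [hst]; exact ih.cons _
  have htail : ∀ i j, i ≤ j → ∀ m, st j (m + (j - i)) = st i m := by
    intro i j hij
    induction j, hij using Nat.le_induction with
    | base => intro m; simp
    | succ j hj ih =>
      intro m
      rw [hst, show m + (j + 1 - i) = (m + (j - i)) + 1 by omega, cons_succ, ih]
  refine ⟨st, hst0, fun i => ⟨_, _, hst i, hG _ _ _ (hQ i) (hwd i)⟩, ?_⟩
  intro j P hP hx
  obtain ⟨k, hk⟩ := he2 P hP
  refine ⟨Nat.pair j k + 1, ?_⟩
  have h0 : j ≤ Nat.pair j k := Nat.left_le_pair j k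
  have key : ∀ x, Q (Nat.pair j k) (cons x (st (Nat.pair j k))) ↔ P (cons x (st j)) := by
    intro x
    simp only [Q, Nat.unpair_pair]
    rw [cons_comp_lft, hk]
    have : (st (Nat.pair j k) ∘ fun m => m + (Nat.pair j k - j)) = st j := by
      funext m
      exact htail _ _ h0 m
    rw [this]
  have h1 := hF _ _ _ (hQ (Nat.pair j k)) (hwd (Nat.pair j k)) (by
    obtain ⟨x, hx⟩ := hx
    exact ⟨x, (key x).2 hx⟩)
  rw [key] at h1
  exact h1

/-- atomic models over finite tuples -/
lemma exists_atomic [Countable (L.Formula ℕ)] (hS : Sat L U) (hsm : Small L U) {n : ℕ} {w : ℕ → U}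
    (hw : Wd n w) : ∃ N : Set U, Mdl L N ∧ (∀ i, w i ∈ N) ∧
      ∀ k v, (∀ m, v (m + k) = w m) → (∀ m, v m ∈ N) → ∃ P, IsolN L k P v w := by
  classical
  obtain ⟨st, h0, h1, h2⟩ := exists_stages hS hsm hw
  choose X PX hX hPX using h1
  have htail : ∀ i j, i ≤ j → ∀ m, st j (m + (j - i)) = st i m := by
    intro i j hij
    induction j, hij using Nat.le_induction with
    | base => intro m; simp
    | succ j hj ih =>
      intro m
      rw [hX, show m + (j + 1 - i) = (m + (j - i)) + 1 by omega, cons_succ, ih]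
  have hiso : ∀ i, ∃ P, IsolN L i P (st i) w := by
    intro i
    induction i with
    | zero =>
      refine ⟨_, Dfn.tr, fun m => by rw [h0]; rfl, trivial, fun v' hv' _ => ?_⟩
      have : v' = w := funext hv'
      rw [this, h0]
      exact Eqv.refl _
    | succ i ih =>
      obtain ⟨P, hP⟩ := ih
      obtain ⟨q1, q2, q3⟩ := hPX i
      refine ⟨fun v => P (fun m => v (m + 1)) ∧ PX i v, hP.dfn.tail.and q1, fun m => ?_, ?_, ?_⟩
      · rw [hX]
        exact hP.tail m
      · rw [hX]
        exact ⟨hP.holds, q2⟩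
      · rintro v' hv' ⟨h3, h4⟩
        have h5 := hP.eqv _ (fun m => hv' m) h3
        obtain ⟨y, hy⟩ := hS.bf h5.symm (v' 0)
        rw [cons_eta] at hy
        have h6 : PX i (cons y (st i)) := (hy _ q1).1 h4
        rw [hX]
        exact (q3 _ h6).trans hy.symm
  have hmem : ∀ (t : ℕ → U) (k : ℕ), (∀ m, ∃ i a, st i a = t m) →
      ∃ j, ∃ f : ℕ → ℕ, ∀ m < k, t m = st j (f m) := by
    intro t k ht
    choose a b hab using ht
    refine ⟨(Finset.range k).sup a, fun m => b m + ((Finset.range k).sup a - a m), fun m hm => ?_⟩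
    have : a m ≤ (Finset.range k).sup a := Finset.le_sup (Finset.mem_range.2 hm)
    rw [htail _ _ this, hab]
  refine ⟨{y | ∃ i m, st i m = y}, ⟨?_, ?_, ⟨w 0, 0, 0, by rw [h0]⟩⟩,
    fun i => ⟨0, i, by rw [h0]⟩, ?_⟩
  · intro v hv P hP hx
    obtain ⟨k, hk⟩ := hP.supp
    obtain ⟨j, f, hf⟩ := hmem v k hv
    have key : ∀ x, P (cons x v) ↔ P ((cons x (st j)) ∘ lft f) := by
      intro x
      apply hk
      intro i hi
      cases i with
      | zero => rfl
      | succ i => exact hf i (by omega)
    obtain ⟨i, hi⟩ := h2 j (fun u => P (u ∘ lft f)) (hP.subst _) (by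
      obtain ⟨x, hx⟩ := hx
      exact ⟨x, (key x).1 hx⟩)
    exact ⟨st i 0, ⟨i, 0, rfl⟩, (key _).2 hi⟩
  · have : {y | ∃ i m, st i m = y} = range (fun p : ℕ × ℕ => st p.1 p.2) := by
      ext y
      constructor
      · rintro ⟨i, m, h⟩; exact ⟨(i, m), h⟩
      · rintro ⟨p, h⟩; exact ⟨p.1, p.2, h⟩
    rw [this]
    exact countable_range _
  · intro k v hv1 hv2
    obtain ⟨j, f, hf⟩ := hmem v k hv2
    obtain ⟨P, hP⟩ := hiso j
    exact hP.sub k v hv1 f hf

end Run7.h353
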