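import Mathlib

set_option autoImplicit false

/-!
# Calculus of definable properties of sequences in a structure

Formulas with variables indexed by the natural numbers, as properties of sequences `ℕ → U`.
-/

open FirstOrder FirstOrder.Language Set

namespace Run7.h353

variable {L : FirstOrder.Language.{0, 0}} {U : Type} [L.Structure U]

/-- the sequence with first entry `x` followed by `w` -/
def cons (x : U) (w : ℕ → U) : ℕ → U := fun n => Nat.casesOn n x w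

omit [L.Structure U] in
@[simp] lemma cons_zero (x : U) (w : ℕ → U) : cons x w 0 = x := rfl
omit [L.Structure U] in
@[simp] lemma cons_succ (x : U) (w : ℕ → U) (n : ℕ) : cons x w (n + 1) = w n := rfl

omit [L.Structure U] in
lemma cons_eta (v : ℕ → U) : cons (v 0) (fun n => v (n + 1)) = v := by
  funext n; cases n <;> rfl

/-- shift a map of indices -/
def lft (f : ℕ → ℕ) : ℕ → ℕ := fun n => Nat.casesOn n 0 (fun m => f m + 1)

@[simp] lemma lft_zero (f : ℕ → ℕ) : lft f 0 = 0 := rfl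
@[simp] lemma lft_succ (f : ℕ → ℕ) (n : ℕ) : lft f (n + 1) = f n + 1 := rfl

omit [L.Structure U] in
lemma cons_comp_lft (x : U) (w : ℕ → U) (f : ℕ → ℕ) :
    (cons x w) ∘ lft f = cons x (w ∘ f) := by
  funext n; cases n <;> rfl

variable (L) in
/-- a property of sequences given by a formula -/
def Dfn (P : (ℕ → U) → Prop) : Prop := ∃ φ : L.Formula ℕ, ∀ v, φ.Realize v ↔ P v

variable (L) in
/-- two sequences have the same type -/
def Eqv (w w' : ℕ → U) : Prop := ∀ P : (ℕ → U) → Prop, Dfn L P → (P w ↔ P w')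

lemma Dfn.congr {P Q : (ℕ → U) → Prop} (h : Dfn L P) (hPQ : ∀ v, P v ↔ Q v) : Dfn L Q := by
  obtain ⟨φ, hφ⟩ := h
  exact ⟨φ, fun v => (hφ v).trans (hPQ v)⟩

lemma Dfn.not {P : (ℕ → U) → Prop} (h : Dfn L P) : Dfn L (fun v => ¬ P v) := by
  obtain ⟨φ, hφ⟩ := h
  exact ⟨φ.not, fun v => by rw [Formula.realize_not, hφ]⟩

lemma Dfn.and {P Q : (ℕ → U) → Prop} (h : Dfn L P) (h' : Dfn L Q) :
    Dfn L (fun v => P v ∧ Q v) := by
  obtain ⟨φ, hφ⟩ := h
  obtain ⟨ψ, hψ⟩ := h'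
  exact ⟨φ ⊓ ψ, fun v => by rw [Formula.realize_inf, hφ, hψ]⟩

lemma Dfn.or {P Q : (ℕ → U) → Prop} (h : Dfn L P) (h' : Dfn L Q) :
    Dfn L (fun v => P v ∨ Q v) := by
  obtain ⟨φ, hφ⟩ := h
  obtain ⟨ψ, hψ⟩ := h'
  exact ⟨φ ⊔ ψ, fun v => by rw [Formula.realize_sup, hφ, hψ]⟩

lemma Dfn.imp {P Q : (ℕ → U) → Prop} (h : Dfn L P) (h' : Dfn L Q) :
    Dfn L (fun v => P v → Q v) := by
  obtain ⟨φ, hφ⟩ := h
  obtain ⟨ψ, hψ⟩ := h'
  exact ⟨φ.imp ψ, fun v => by rw [Formula.realize_imp, hφ, hψ]⟩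

lemma Dfn.iff {P Q : (ℕ → U) → Prop} (h : Dfn L P) (h' : Dfn L Q) :
    Dfn L (fun v => P v ↔ Q v) :=
  ((h.imp h').and (h'.imp h)).congr fun _ => iff_def.symm

lemma Dfn.tr : Dfn L (fun _ : ℕ → U => True) :=
  ⟨⊤, fun v => by simp⟩

lemma Dfn.fl : Dfn L (fun _ : ℕ → U => False) :=
  ⟨⊥, fun v => by simp⟩

lemma Dfn.prop (p : Prop) : Dfn L (fun _ : ℕ → U => p) := by
  by_cases h : p
  · exact Dfn.tr.congr fun v => by simp [h]
  · exact Dfn.fl.congr fun v => by simp [h]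

lemma Dfn.eq (i j : ℕ) : Dfn L (fun v : ℕ → U => v i = v j) :=
  ⟨Term.equal (Term.var i) (Term.var j), fun v => by
    rw [Formula.realize_equal]; rfl⟩

lemma Dfn.subst {P : (ℕ → U) → Prop} (h : Dfn L P) (f : ℕ → ℕ) : Dfn L (fun v => P (v ∘ f)) := by
  obtain ⟨φ, hφ⟩ := h
  exact ⟨φ.relabel f, fun v => by rw [Formula.realize_relabel, hφ]⟩

lemma Dfn.ex {P : (ℕ → U) → Prop} (h : Dfn L P) : Dfn L (fun v => ∃ x, P (cons x v)) := by
  obtain ⟨φ, hφ⟩ := h
  refine ⟨(φ.relabel (fun n : ℕ => Nat.casesOn n (Sum.inr 0) Sum.inl : ℕ → ℕ ⊕ Fin 1)).iExs (Fin 1),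
    fun v => ?_⟩
  rw [Formula.realize_iExs]
  constructor
  · rintro ⟨i, hi⟩
    refine ⟨i 0, ?_⟩
    rw [Formula.realize_relabel, hφ] at hi
    have e : (Sum.elim v i ∘ (fun n : ℕ => Nat.casesOn n (Sum.inr 0) Sum.inl : ℕ → ℕ ⊕ Fin 1)) =
        cons (i 0) v := by
      funext n; cases n <;> rfl
    rwa [e] at hi
  · rintro ⟨x, hx⟩
    refine ⟨fun _ => x, ?_⟩
    rw [Formula.realize_relabel, hφ]
    have e : (Sum.elim v (fun _ => x) ∘
        (fun n : ℕ => Nat.casesOn n (Sum.inr 0) Sum.inl : ℕ → ℕ ⊕ Fin 1)) = cons x v := by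
      funext n; cases n <;> rfl
    rwa [e]

lemma Dfn.all {P : (ℕ → U) → Prop} (h : Dfn L P) : Dfn L (fun v => ∀ x, P (cons x v)) :=
  (h.not.ex).not.congr fun v => by simp

lemma Dfn.tail {P : (ℕ → U) → Prop} (h : Dfn L P) : Dfn L (fun v => P (fun n => v (n + 1))) :=
  h.subst (fun n => n + 1)

/-- finitely many conjunctions -/
lemma Dfn.ball {ι : Type} (s : Finset ι) {P : ι → (ℕ → U) → Prop} (h : ∀ i ∈ s, Dfn L (P i)) :
    Dfn L (fun v => ∀ i ∈ s, P i v) := by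
  classical
  induction s using Finset.induction_on with
  | empty => exact Dfn.tr.congr fun v => by simp
  | insert a s _ ih =>
    exact ((h a (Finset.mem_insert_self _ _)).and
      (ih fun i hi => h i (Finset.mem_insert_of_mem hi))).congr fun v => by
        simp [Finset.forall_mem_insert]

lemma Dfn.bex {ι : Type} (s : Finset ι) {P : ι → (ℕ → U) → Prop} (h : ∀ i ∈ s, Dfn L (P i)) :
    Dfn L (fun v => ∃ i ∈ s, P i v) :=
  (Dfn.ball s fun i hi => (h i hi).not).not.congr fun v => by simp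

/-- a formula depends on finitely many entries only -/
lemma Dfn.supp {P : (ℕ → U) → Prop} (h : Dfn L P) :
    ∃ n, ∀ v w : ℕ → U, (∀ i < n, v i = w i) → (P v ↔ P w) := by
  classical
  obtain ⟨φ, hφ⟩ := h
  refine ⟨φ.freeVarFinset.sup id + 1, fun v w hvw => ?_⟩
  rw [← hφ, ← hφ]
  have key : ∀ u : ℕ → U, (BoundedFormula.restrictFreeVar φ
      (id : φ.freeVarFinset → φ.freeVarFinset)).Realize (fun a => u a) default ↔ φ.Realize u := by
    intro u
    exact BoundedFormula.realize_restrictFreeVar u fun a => rfl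
  rw [← key v, ← key w]
  have e : (fun a : φ.freeVarFinset => v a) = fun a : φ.freeVarFinset => w a := by
    funext a
    exact hvw _ (Nat.lt_succ_of_le (Finset.le_sup (f := id) a.2))
  rw [e]

lemma dfn_countable [Countable (L.Formula ℕ)] : {P : (ℕ → U) → Prop | Dfn L P}.Countable := by
  have : {P : (ℕ → U) → Prop | Dfn L P} ⊆ range (fun φ : L.Formula ℕ => fun v => φ.Realize v) := by
    rintro P ⟨φ, hφ⟩
    exact ⟨φ, funext fun v => propext (hφ v)⟩
  exact (countable_range _).mono this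

variable (L U) in
lemma exists_enum [Countable (L.Formula ℕ)] :
    ∃ e : ℕ → ((ℕ → U) → Prop), (∀ n, Dfn L (e n)) ∧ ∀ P, Dfn L P → ∃ n, e n = P := by
  have hne : {P : (ℕ → U) → Prop | Dfn L P}.Nonempty := ⟨_, Dfn.tr⟩
  obtain ⟨e, he⟩ := (dfn_countable (L := L) (U := U)).exists_eq_range hne
  refine ⟨e, fun n => ?_, fun P hP => ?_⟩
  · have : e n ∈ {P : (ℕ → U) → Prop | Dfn L P} := he ▸ mem_range_self n
    exact this
  · have : P ∈ range e := he ▸ hP
    exact this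

lemma Eqv.refl (w : ℕ → U) : Eqv L w w := fun _ _ => Iff.rfl
lemma Eqv.symm {w w' : ℕ → U} (h : Eqv L w w') : Eqv L w' w := fun P hP => (h P hP).symm
lemma Eqv.trans {w w' w'' : ℕ → U} (h : Eqv L w w') (h' : Eqv L w' w'') : Eqv L w w'' :=
  fun P hP => (h P hP).trans (h' P hP)
lemma Eqv.subst {w w' : ℕ → U} (h : Eqv L w w') (f : ℕ → ℕ) : Eqv L (w ∘ f) (w' ∘ f) :=
  fun _ hP => h _ (hP.subst f)

lemma Eqv.of_imp {w w' : ℕ → U} (h : ∀ P : (ℕ → U) → Prop, Dfn L P → P w → P w') :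
    Eqv L w w' := fun P hP => ⟨h P hP, fun h2 => by
      by_contra h3
      exact h _ hP.not h3 h2⟩

lemma Eqv.tl {x x' : U} {w w' : ℕ → U} (h : Eqv L (cons x w) (cons x' w')) : Eqv L w w' :=
  h.subst (fun n => n + 1)

/-- sequences agreeing up to the support -/
lemma eqv_of_agree {w w' : ℕ → U} (h : ∀ n, ∃ v v' : ℕ → U, Eqv L v v' ∧ (∀ i < n, v i = w i) ∧
    ∀ i < n, v' i = w' i) : Eqv L w w' := by
  intro P hP
  obtain ⟨n, hn⟩ := hP.supp
  obtain ⟨v, v', h1, h2, h3⟩ := h n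
  rw [← hn v w h2, ← hn v' w' h3]
  exact h1 P hP

variable (L U) in
/-- `ℵ₁`-saturation (for countable languages) -/
def Sat : Prop := ∀ (w : ℕ → U) (Q : ℕ → (ℕ → U) → Prop), (∀ n, Dfn L (Q n)) →
  (∀ n, ∃ x, ∀ i < n, Q i (cons x w)) → ∃ x, ∀ n, Q n (cons x w)

/-- saturation for sets of formulas closed under conjunction -/
lemma Sat.dir [Countable (L.Formula ℕ)] (hS : Sat L U) (w : ℕ → U) (S : Set ((ℕ → U) → Prop))
    (hne : S.Nonempty) (hD : ∀ P ∈ S, Dfn L P)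
    (hand : ∀ P ∈ S, ∀ Q ∈ S, ∃ R ∈ S, ∀ v, R v → P v ∧ Q v)
    (hex : ∀ P ∈ S, ∃ x, P (cons x w)) : ∃ x, ∀ P ∈ S, P (cons x w) := by
  have hc : S.Countable := (dfn_countable (L := L) (U := U)).mono hD
  obtain ⟨e, he⟩ := hc.exists_eq_range hne
  have heS : ∀ n, e n ∈ S := fun n => he ▸ mem_range_self n
  have key : ∀ n, ∃ R ∈ S, ∀ v, R v → ∀ i < n, e i v := by
    intro n
    induction n with
    | zero => obtain ⟨R, hR⟩ := hne; exact ⟨R, hR, fun v _ i hi => absurd hi (Nat.not_lt_zero i)⟩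
    | succ n ih =>
      obtain ⟨R, hR, h1⟩ := ih
      obtain ⟨R', hR', h2⟩ := hand R hR (e n) (heS n)
      refine ⟨R', hR', fun v hv i hi => ?_⟩
      rcases Nat.lt_succ_iff_lt_or_eq.1 hi with h | rfl
      · exact h1 v (h2 v hv).1 i h
      · exact (h2 v hv).2
  obtain ⟨x, hx⟩ := hS w e (fun n => hD _ (heS n)) (fun n => by
    obtain ⟨R, hR, h⟩ := key n
    obtain ⟨x, hx⟩ := hex R hR
    exact ⟨x, h _ hx⟩)
  refine ⟨x, fun P hP => ?_⟩
  have : P ∈ range e := he ▸ hP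
  obtain ⟨n, rfl⟩ := this
  exact hx n

/-- back and forth, one element -/
lemma Sat.bf [Countable (L.Formula ℕ)] (hS : Sat L U) {w w' : ℕ → U} (h : Eqv L w w') (x : U) :
    ∃ x', Eqv L (cons x w) (cons x' w') := by
  obtain ⟨x', hx'⟩ := hS.dir w' {P | Dfn L P ∧ P (cons x w)} ⟨_, Dfn.tr, trivial⟩
    (fun P hP => hP.1) (fun P hP Q hQ => ⟨_, ⟨hP.1.and hQ.1, hP.2, hQ.2⟩, fun v hv => hv⟩)
    (fun P hP => (h _ hP.1.ex).1 ⟨x, hP.2⟩)
  exact ⟨x', Eqv.of_imp fun P hP h => hx' P ⟨hP, h⟩⟩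

variable (L) in
/-- the Tarski-Vaught property of a set -/
def TV (N : Set U) : Prop := ∀ v : ℕ → U, (∀ i, v i ∈ N) → ∀ P, Dfn L P →
  (∃ x, P (cons x v)) → ∃ x ∈ N, P (cons x v)

end Run7.h353
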