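import Pool.Agent.Run7.h353.Closure2

set_option autoImplicit false

/-!
# Countable saturated models; isolation of algebraic tuples over parameters
-/

open FirstOrder FirstOrder.Language Set

namespace Run7.h353

variable {L : FirstOrder.Language.{0, 0}} {U : Type} [L.Structure U]

/-- countable saturated models of small theories -/
lemma exists_csat [Nonempty U] (hsm : Small L U) : ∃ N : Set U, Mdl L N ∧
    ∀ k w, Wd k w → (∀ i, w i ∈ N) → ∀ x, ∃ x' ∈ N, Eqv L (cons x w) (cons x' w) := by
  classical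
  obtain ⟨u0⟩ := ‹Nonempty U›
  choose e he using hsm
  have hF : ∀ (k : ℕ) (t : Fin (k + 1) → U) (j : ℕ), ∃ x,
      (∃ y, Eqv L (cons y (fun i => t ⟨min i k, by omega⟩)) (e (k + 1) j)) →
      Eqv L (cons x (fun i => t ⟨min i k, by omega⟩)) (e (k + 1) j) := by
    intro k t j
    by_cases h : ∃ y, Eqv L (cons y (fun i => t ⟨min i k, by omega⟩)) (e (k + 1) j)
    · obtain ⟨y, hy⟩ := h
      exact ⟨y, fun _ => hy⟩
    · exact ⟨u0, fun h2 => absurd h2 h⟩
  choose F hF using hF
  let St : Set U → Set U := fun N => N ∪ ⋃ k : ℕ, ⋃ j : ℕ,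
    range (fun t : Fin (k + 1) → N => F k (fun i => (t i : U)) j)
  let S : ℕ → Set U := fun n => Nat.rec {u0} (fun _ N => St N) n
  have hS : ∀ n, S (n + 1) = St (S n) := fun n => rfl
  have hct : ∀ n, (S n).Countable := by
    intro n
    induction n with
    | zero => exact countable_singleton _
    | succ n ih =>
      rw [hS]
      have hcc : Countable {x : U // x ∈ S n} := ih.to_subtype
      exact ih.union (countable_iUnion fun k => countable_iUnion fun j => by
        apply countable_range)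
  have hmono : Monotone S := monotone_nat_of_le_succ fun n => by
    rw [hS]; exact subset_union_left
  have hsat : ∀ k w, Wd k w → (∀ i, w i ∈ ⋃ n, S n) → ∀ x, ∃ x' ∈ ⋃ n, S n,
      Eqv L (cons x w) (cons x' w) := by
    intro k w hw hwN x
    have h1 : ∀ i, ∃ n, w i ∈ S n := fun i => mem_iUnion.1 (hwN i)
    choose a ha using h1
    let n := (Finset.range (k + 1)).sup a
    have h2 : ∀ i, w i ∈ S n := by
      intro i
      rcases Nat.lt_or_ge k i with h | h
      · rw [hw i h.le]
        exact hmono (Finset.le_sup (f := a) (Finset.mem_range.2 (Nat.lt_succ_self k))) (ha k)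
      · exact hmono (Finset.le_sup (f := a) (Finset.mem_range.2 (Nat.lt_succ_of_le h))) (ha i)
    let t : Fin (k + 1) → {x : U // x ∈ S n} := fun i => ⟨w i, h2 i⟩
    have e1 : (fun i => (fun i : Fin (k + 1) => ((t i).1 : U)) ⟨min i k, by omega⟩) = w := by
      funext i
      simp only [t]
      rcases le_total i k with h | h
      · rw [min_eq_left h]
      · rw [min_eq_right h, hw i h]
    obtain ⟨j, hj⟩ := he (k + 1) (cons x w) (hw.cons x)
    have h3 := hF k (fun i => (t i).1) j ⟨x, by rw [e1]; exact hj⟩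
    rw [e1] at h3
    refine ⟨F k (fun i => (t i).1) j, mem_iUnion.2 ⟨n + 1, ?_⟩, hj.trans h3.symm⟩
    rw [hS]
    exact Or.inr (mem_iUnion.2 ⟨k, mem_iUnion.2 ⟨j, ⟨t, rfl⟩⟩⟩)
  refine ⟨⋃ n, S n, ⟨?_, countable_iUnion hct, ⟨u0, mem_iUnion.2 ⟨0, rfl⟩⟩⟩, hsat⟩
  intro v hv P hP hx
  obtain ⟨K, hK⟩ := hP.supp
  obtain ⟨x, hx⟩ := hx
  have key : ∀ y, P (cons y v) ↔ P (cons y (trn K v)) := by
    intro y
    apply hK
    intro i hi
    cases i with
    | zero => rfl
    | succ i =>
      have : min i K = i := by omega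
      simp [trn, this]
  obtain ⟨x', hx', hE⟩ := hsat K (trn K v) (trn_wd K v) (fun i => hv _) x
  exact ⟨x', hx', (key x').2 ((hE P hP).1 ((key x).1 hx))⟩

/-- tuples of algebraic elements have isolated types over arbitrary parameters -/
lemma isol_over {l : ℕ → U} (hl : ∀ i, Alg L (l i)) (k : ℕ) (w : ℕ → U) :
    ∃ P, Dfn L P ∧ P (mix l w) ∧
      ∀ l', P (mix l' w) → Eqv L (mix (trn k l) w) (mix (trn k l') w) := by
  classical
  choose Q hQ hQ1 hQ2 using hl
  let T0 : Set (Fin (k + 1) → U) := Set.pi univ fun i => {y | Q i (fun _ => y)}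
  have hT0 : T0.Finite := Set.Finite.pi fun i => hQ2 i
  let T : Set (ℕ → U) := (fun (t : Fin (k + 1) → U) (i : ℕ) => t ⟨min i k, by omega⟩) '' T0
  have hT : T.Finite := hT0.image _
  have hsep : ∀ t : ℕ → U, ∃ R, Dfn L R ∧ R (mix (trn k l) w) ∧
      (¬ Eqv L (mix (trn k l) w) (mix t w) → ¬ R (mix t w)) := by
    intro t
    by_cases h : Eqv L (mix (trn k l) w) (mix t w)
    · exact ⟨_, Dfn.tr, trivial, fun h2 => absurd h h2⟩
    · have h' := h
      unfold Eqv at h'
      push Not at h'
      obtain ⟨R, hR, h2⟩ := h'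
      rcases h2 with ⟨h3, h4⟩ | ⟨h3, h4⟩
      · exact ⟨R, hR, h3, fun _ => h4⟩
      · exact ⟨_, hR.not, h3, fun _ h5 => h5 h4⟩
  choose R hR hR1 hR2 using hsep
  let h : ℕ → ℕ := fun i => if i % 2 = 0 then 2 * min (i / 2) k else i
  have hh : ∀ l' : ℕ → U, mix l' w ∘ h = mix (trn k l') w := by
    intro l'
    funext i
    by_cases hi : i % 2 = 0
    · have h1 : (2 * min (i / 2) k) % 2 = 0 := by omega
      simp [mix, h, hi, trn]
    · simp [mix, h, hi]
  refine ⟨fun v => (∀ i ∈ Finset.range (k + 1), Q i (fun _ => v (2 * i))) ∧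
    ∀ t ∈ hT.toFinset, R t (v ∘ h), ?_, ?_, ?_⟩
  · refine (Dfn.ball _ fun i _ => ?_).and (Dfn.ball _ fun t _ => ?_)
    · exact (hQ i).subst (fun _ => 2 * i)
    · exact (hR t).subst h
  · refine ⟨fun i _ => ?_, fun t _ => ?_⟩
    · have : mix l w (2 * i) = l i := by simp [mix]
      rw [this]
      exact hQ1 i
    · rw [hh]
      exact hR1 t
  · rintro l' ⟨h1, h2⟩
    by_contra hcon
    have h3 : trn k l' ∈ T := by
      refine ⟨fun i => l' i, fun i _ => ?_, rfl⟩
      have := h1 i (Finset.mem_range.2 i.2)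
      have h4 : mix l' w (2 * (i : ℕ)) = l' i := by simp [mix]
      rwa [h4] at this
    have h5 := h2 _ (hT.mem_toFinset.2 h3)
    rw [hh] at h5
    exact hR2 _ hcon h5

/-- existential quantification over tuples -/
def exm (k : ℕ) (P : (ℕ → U) → Prop) (v : ℕ → U) : Prop := ∃ l, Wd k l ∧ P (mix l v)

lemma Dfn.exm {P : (ℕ → U) → Prop} (hP : Dfn L P) (k : ℕ) : Dfn L (exm k P) := by
  let h : ℕ → ℕ := fun i => if i % 2 = 0 then min (i / 2) k else i / 2 + (k + 1)
  refine (Dfn.exs (hP.subst h) (k + 1)).congr fun v => ⟨?_, ?_⟩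
  · rintro ⟨u, h1, h2⟩
    refine ⟨fun i => u (min i k), fun i hi => ?_, ?_⟩
    · simp [hi]
    · have e : u ∘ h = mix (fun i => u (min i k)) v := by
        funext i
        by_cases hi : i % 2 = 0
        · simp [mix, h, hi]
        · simp only [mix, h, hi, Function.comp_apply, if_false]
          exact h1 _
      rwa [← e]
  · rintro ⟨l, h1, h2⟩
    let u : ℕ → U := fun i => if i < k + 1 then l i else v (i - (k + 1))
    refine ⟨u, fun m => ?_, ?_⟩
    · have : ¬ m + (k + 1) < k + 1 := by omega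
      simp only [u, if_neg this]
      congr 1
      omega
    · have e : u ∘ h = mix l v := by
        funext i
        by_cases hi : i % 2 = 0
        · have h3 : min (i / 2) k < k + 1 := by omega
          simp only [mix, h, hi, Function.comp_apply, if_true, u, if_pos h3]
          rcases le_total (i / 2) k with h4 | h4
          · rw [min_eq_left h4]
          · rw [min_eq_right h4, h1 _ h4]
        · have h3 : ¬ i / 2 + (k + 1) < k + 1 := by omega
          simp only [mix, h, hi, Function.comp_apply, if_false, u, if_neg h3]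
          congr 1
          omega
      show P (u ∘ h)
      rw [e]
      exact h2

end Run7.h353
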