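import Pool.Agent.Run7.h353.Alg

set_option autoImplicit false

/-!
# The closure operator on a definable set of algebraic elements without the order property
-/

open FirstOrder FirstOrder.Language Set

namespace Run7.h353

variable {L : FirstOrder.Language.{0, 0}} {U : Type} [L.Structure U]

variable (L) in
/-- `D` is a definable set, all of whose elements in the elementary substructure `N0` are algebraic,
with infinitely many elements in `N0`, and minimal with this property -/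
structure Cx (N0 D : Set U) : Prop where
  tv : TV L N0
  dD : Dfn L (fun v : ℕ → U => v 0 ∈ D)
  inf : (D ∩ N0).Infinite
  alg : ∀ a ∈ D ∩ N0, Alg L a
  mnl : ∀ P : (ℕ → U) → Prop, Dfn L P → {x | x ∈ D ∩ N0 ∧ P (fun _ => x)}.Finite ∨
    {x | x ∈ D ∩ N0 ∧ ¬ P (fun _ => x)}.Finite

variable {N0 D : Set U}

lemma Cx.ne (hC : Cx L N0 D) : N0.Nonempty := hC.inf.nonempty.mono inter_subset_right

lemma Cx.mem (hC : Cx L N0 D) {x : U} (hx : x ∈ D) (ha : Alg L x) : x ∈ D ∩ N0 :=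
  ⟨hx, ha.mem hC.tv hC.ne⟩

lemma Cx.dpD (hC : Cx L N0 D) : DP L N0 (fun x => x ∈ D) :=
  (DP.of0 hC.ne hC.dD).congr fun _ => Iff.rfl

lemma Cx.eqvD (hC : Cx L N0 D) {x y : U} (h : Eqv L (fun _ => x) (fun _ => y)) (hx : x ∈ D) :
    y ∈ D := (h _ hC.dD).1 hx

lemma Cx.eqvA (hC : Cx L N0 D) {x y : U} (h : Eqv L (fun _ => x) (fun _ => y))
    (hx : x ∈ D ∩ N0) : y ∈ D ∩ N0 :=
  hC.mem (hC.eqvD h hx.1) ((hC.alg x hx).eqv h)

/-- all definable sets with parameters in `N0` that contain a generic element are infinite -/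
lemma Cx.gen (hC : Cx L N0 D) {b : U} (hb : b ∈ D) (hb' : b ∉ N0) {R : U → Prop}
    (hR : DP L N0 R) (h : R b) : {x | x ∈ D ∩ N0 ∧ R x}.Infinite := by
  intro hf
  exact hb' (hC.tv.fin hC.ne (hC.dpD.and hR)
    (hf.subset fun x hx => ⟨⟨hx.2.1, hx.1⟩, hx.2.2⟩) b ⟨hb, h⟩)

lemma Cx.fin_mem (hC : Cx L N0 D) {R : U → Prop} (hR : DP L N0 R)
    (h : {x | x ∈ D ∩ N0 ∧ R x}.Finite) {y : U} (hy : y ∈ D) (hy2 : R y) : y ∈ D ∩ N0 := by
  by_contra hcon
  exact hC.gen hy (fun h' => hcon ⟨hy, h'⟩) hR hy2 h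

/-- the generic elements have the same type -/
lemma Cx.types (hC : Cx L N0 D) {b b' : U} (hb : b ∈ D) (hb0 : b ∉ N0) (hb' : b' ∈ D)
    (hb0' : b' ∉ N0) : Eqv L (fun _ => b) (fun _ => b') := by
  refine Eqv.of_imp fun P hP h => ?_
  rcases hC.mnl P hP with h1 | h1
  · exact absurd h1 (hC.gen hb hb0 (DP.of0 hC.ne hP) h)
  · by_contra h2
    exact hC.gen hb' hb0' (DP.of0 hC.ne hP).not h2 h1

/-- infinite sets over algebraic parameters contain generic elements -/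
lemma Cx.exists_gen [Countable (L.Formula ℕ)] (hS : Sat L U) (hC : Cx L N0 D)
    {P : (ℕ → U) → Prop} (hP : Dfn L P) {m : ℕ → U}
    (hinf : {x | x ∈ D ∩ N0 ∧ P (cons x m)}.Infinite) : ∃ x ∈ D, x ∉ N0 ∧ P (cons x m) := by
  obtain ⟨x, hx⟩ := hS.dir m {R | ∃ P', Dfn L P' ∧ {y : U | P' (fun _ => y)}.Finite ∧
      R = fun v => (v 0 ∈ D ∧ P v) ∧ ¬ P' (fun _ => v 0)}
    ⟨_, _, Dfn.fl, by simp, rfl⟩
    (by
      rintro R ⟨P', h1, h2, rfl⟩
      exact (hC.dD.and hP).and (h1.subst fun _ => 0).not)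
    (by
      rintro R ⟨P', h1, h2, rfl⟩ R' ⟨P'', h1', h2', rfl⟩
      refine ⟨_, ⟨_, h1.or h1', ?_, rfl⟩, fun v hv => ⟨⟨hv.1, fun h => hv.2 (Or.inl h)⟩,
        hv.1, fun h => hv.2 (Or.inr h)⟩⟩
      exact (h2.union h2').subset fun y hy => hy)
    (by
      rintro R ⟨P', h1, h2, rfl⟩
      obtain ⟨x, hx1, hx2⟩ := (hinf.sdiff h2).nonempty
      exact ⟨x, ⟨hx1.1.1, hx1.2⟩, hx2⟩)
  have h0 := hx _ ⟨_, Dfn.fl, by simp, rfl⟩
  refine ⟨x, h0.1.1, fun hxN => ?_, h0.1.2⟩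
  obtain ⟨P', h1, h2, h3⟩ := hC.alg x ⟨h0.1.1, hxN⟩
  exact (hx _ ⟨P', h1, h3, rfl⟩).2 h2

/-- homogeneity: an infinite set over algebraic parameters contains a given generic element, after
conjugation of the parameters -/
lemma Cx.conj [Countable (L.Formula ℕ)] (hS : Sat L U) (hC : Cx L N0 D) {b : U} (hb : b ∈ D)
    (hb0 : b ∉ N0) {P : (ℕ → U) → Prop} (hP : Dfn L P) {m : ℕ → U} (hm : ∀ i, m i ∈ D ∩ N0)
    (hinf : {x | x ∈ D ∩ N0 ∧ P (cons x m)}.Infinite) :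
    ∃ m', (∀ i, m' i ∈ D ∩ N0) ∧ Eqv L m m' ∧ P (cons b m') := by
  obtain ⟨x, hx, hx0, hPx⟩ := hC.exists_gen hS hP hinf
  obtain ⟨m', hm'⟩ := hS.bfs (hC.types hx hx0 hb hb0) m
  have h1 : Eqv L m m' := by
    have := hm'.subst (fun n => 2 * n)
    rwa [mix_even, mix_even] at this
  refine ⟨m', fun i => hC.eqvA (h1.subst fun _ => i) (hm i), h1, ?_⟩
  have h2 := hm'.subst (fun n : ℕ => Nat.casesOn n 1 (fun k => 2 * k))
  have e : ∀ (y : U) (q : ℕ → U), mix q (fun _ => y) ∘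
      (fun n : ℕ => Nat.casesOn n 1 (fun k => 2 * k)) = cons y q := by
    intro y q
    funext n
    cases n with
    | zero => simp [mix]
    | succ n => simp [mix]
  rw [e, e] at h2
  exact (h2 P hP).1 hPx

variable (L) in
/-- no formula orders an infinite sequence of elements of `A` and tuples of elements of `A` -/
def NOrd (A : Set U) : Prop := ¬ ∃ (P : (ℕ → U) → Prop) (a : ℕ → U) (m : ℕ → ℕ → U), Dfn L P ∧
  (∀ i, a i ∈ A) ∧ (∀ i j, m i j ∈ A) ∧ ∀ i j, P (cons (a i) (m j)) ↔ i < j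

/-- formulas with finitely many algebraic solutions stay so nearby -/
lemma Cx.c1 [Countable (L.Formula ℕ)] (hS : Sat L U) (hC : Cx L N0 D) (hNO : NOrd L (D ∩ N0))
    {b : U} (hb : b ∈ D) (hb0 : b ∉ N0)
    {P : (ℕ → U) → Prop} (hP : Dfn L P) {w : ℕ → U}
    (hF : {x | x ∈ D ∩ N0 ∧ P (cons x w)}.Finite) :
    ∃ R, Dfn L R ∧ R w ∧ ∀ m : ℕ → U, (∀ i, m i ∈ D ∩ N0) → R m →
      {x | x ∈ D ∩ N0 ∧ P (cons x m)}.Finite := by
  classical
  by_contra hcon
  push Not at hcon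
  have hstar : ∀ R, Dfn L R → R w → ∃ m : ℕ → U, (∀ i, m i ∈ D ∩ N0) ∧ R m ∧ P (cons b m) := by
    intro R hR hw
    obtain ⟨m, h1, h2, h3⟩ := hcon R hR hw
    obtain ⟨m', h4, h5, h6⟩ := hC.conj hS hb hb0 hP h1 h3
    exact ⟨m', h4, (h5 R hR).1 h2, h6⟩
  have hgood : ∀ a ∈ D ∩ N0, (∀ f ∈ hF.toFinset, ¬ Eqv L (fun _ => a) (fun _ => f)) →
      ∃ R, Dfn L R ∧ R w ∧ ∀ m, R m → ¬ P (cons a m) := by
    intro a ha hfa
    obtain ⟨Q, hQ, hQa, hQf⟩ := hC.alg a ha
    have hs : ∀ f ∈ hF.toFinset, ∃ σ, Dfn L σ ∧ σ (fun _ => a) ∧ ¬ σ (fun _ => f) := by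
      intro f hf
      have := hfa f hf
      unfold Eqv at this
      push Not at this
      obtain ⟨R, hR, h2⟩ := this
      rcases h2 with ⟨h3, h4⟩ | ⟨h3, h4⟩
      · exact ⟨R, hR, h3, h4⟩
      · exact ⟨_, hR.not, h3, fun h5 => h5 h4⟩
    choose! σ hσ1 hσ2 hσ3 using hs
    refine ⟨fun v => ∀ y, (y ∈ D ∧ Q (fun _ => y) ∧ ∀ f ∈ hF.toFinset, σ f (fun _ => y)) →
      ¬ P (cons y v), ?_, ?_, ?_⟩
    · refine (Dfn.all (P := fun u => (u 0 ∈ D ∧ Q (fun _ => u 0) ∧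
        ∀ f ∈ hF.toFinset, σ f (fun _ => u 0)) → ¬ P u) ?_).congr fun v => Iff.rfl
      refine ((hC.dD.and ((hQ.subst fun _ => 0).and (Dfn.ball _ fun f hf => ?_))).imp hP.not)
      exact (hσ1 f hf).subst fun _ => 0
    · rintro y ⟨h1, h2, h3⟩ h4
      have hy : y ∈ D ∩ N0 := hC.mem h1 ⟨Q, hQ, h2, hQf⟩
      have hyF : y ∈ hF.toFinset := hF.mem_toFinset.2 ⟨hy, h4⟩
      exact hσ3 y hyF (h3 y hyF)
    · intro m hm
      exact hm a ⟨ha.1, hQa, fun f hf => hσ2 f hf⟩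
  obtain ⟨f, hf1, hf2⟩ := exists_seq_of_forall_finset_exists
    (fun p : U × (ℕ → U) => p.1 ∈ D ∩ N0 ∧ (∃ R, Dfn L R ∧ R w ∧ ∀ m, R m → ¬ P (cons p.1 m)) ∧
      (∀ i, p.2 i ∈ D ∩ N0) ∧ P (cons b p.2) ∧ ¬ P (cons p.1 p.2))
    (fun p q => P (cons q.1 p.2) ∧ ¬ P (cons p.1 q.2)) (by
      intro s hs
      have h1 : DP L N0 (fun x => ∀ p ∈ s, P (cons x p.2)) :=
        DP.ball hC.ne _ fun p hp => DP.of hP fun i => ((hs p hp).2.2.1 i).2
      have h2 := hC.gen hb hb0 h1 (fun p hp => (hs p hp).2.2.2.1)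
      have h3 : (⋃ f ∈ hF.toFinset, {y : U | Eqv L (fun _ => f) (fun _ => y)}).Finite := by
        refine Set.Finite.biUnion (Finset.finite_toSet _) fun f hf => ?_
        exact (hC.alg f (hF.mem_toFinset.1 hf).1).fin_orbit
      obtain ⟨a, ha1, ha2⟩ := (h2.sdiff h3).nonempty
      obtain ⟨R, hR1, hR2, hR3⟩ := hgood a ha1.1 (fun f hf h =>
        ha2 (mem_biUnion (x := f) hf h.symm))
      have h4 : ∀ p ∈ s, ∃ R, Dfn L R ∧ R w ∧ ∀ m, R m → ¬ P (cons p.1 m) :=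
        fun p hp => (hs p hp).2.1
      choose! T hT1 hT2 hT3 using h4
      obtain ⟨m, hm1, ⟨hm2, hm3⟩, hm4⟩ := hstar (fun v => R v ∧ ∀ p ∈ s, T p v)
        (hR1.and (Dfn.ball _ fun p hp => hT1 p hp)) ⟨hR2, fun p hp => hT2 p hp⟩
      exact ⟨(a, m), ⟨ha1.1, ⟨R, hR1, hR2, hR3⟩, hm1, hm4, hR3 _ hm2⟩,
        fun p hp => ⟨ha1.2 p hp, hT3 p hp _ (hm3 p hp)⟩⟩)
  apply hNO
  refine ⟨fun v => ¬ P v, fun i => (f (i + 1)).1, fun i => (f i).2, hP.not,
    fun i => (hf1 _).1, fun i => (hf1 i).2.2.1, fun i j => ?_⟩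
  constructor
  · intro h
    by_contra hij
    exact h (hf2 j (i + 1) (by omega)).1
  · intro hij
    rcases Nat.lt_or_eq_of_le (Nat.succ_le_of_lt hij) with h | h
    · exact (hf2 (i + 1) j h).2
    · rw [← h]
      exact (hf1 (i + 1)).2.2.2.2

lemma trn_trn (k : ℕ) (v : ℕ → U) : trn k (trn k v) = trn k v := by
  funext i
  simp [trn]

lemma isol_alg' {v : ℕ → U} (hv : ∀ i, Alg L (v i)) (k : ℕ) :
    ∃ P, Dfn L P ∧ P (trn k v) ∧ ∀ v', P (trn k v') → Eqv L (trn k v) (trn k v') := by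
  obtain ⟨P, h1, h2, h3⟩ := isol_alg (v := trn k v) (fun i => hv _) k
  refine ⟨P, h1, h2, fun v' hv' => ?_⟩
  have := h3 _ hv'
  rwa [trn_trn, trn_trn] at this

/-- finiteness is invariant under conjugation -/
lemma Cx.fin_transport [Countable (L.Formula ℕ)] (hS : Sat L U) (hC : Cx L N0 D)
    {P : (ℕ → U) → Prop} (hP : Dfn L P) {m m' : ℕ → U} (h : Eqv L m m')
    (hf : {x | x ∈ D ∩ N0 ∧ P (cons x m)}.Finite) :
    {x | x ∈ D ∩ N0 ∧ P (cons x m')}.Finite := by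
  by_contra hinf
  have hinf' : {x | x ∈ D ∩ N0 ∧ P (cons x m')}.Infinite := hinf
  have : Infinite {x | x ∈ D ∩ N0 ∧ P (cons x m')} := hinf'.to_subtype
  let y : ℕ ↪ {x | x ∈ D ∩ N0 ∧ P (cons x m')} := Infinite.natEmbedding _
  obtain ⟨y', hy'⟩ := hS.bfs h.symm (fun i => (y i : U))
  have h1 : ∀ i, Eqv L (fun _ => (y i : U)) (fun _ => y' i) := by
    intro i
    have := hy'.subst (fun _ => 2 * i)
    have e : ∀ a b : ℕ → U, mix a b ∘ (fun _ : ℕ => 2 * i) = fun _ : ℕ => a i := by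
      intro a b
      funext n
      simp [mix]
    rwa [e, e] at this
  have h2 : ∀ i, P (cons (y' i) m) := by
    intro i
    have := hy'.subst (fun n : ℕ => Nat.casesOn n (2 * i) (fun k => 2 * k + 1))
    have e : ∀ a b : ℕ → U, mix a b ∘ (fun n : ℕ => Nat.casesOn n (2 * i) (fun k => 2 * k + 1)) =
        cons (a i) b := by
      intro a b
      funext n
      cases n with
      | zero => simp [mix]
      | succ n =>
        have h1 : (2 * n + 1) % 2 = 1 := by omega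
        have h2 : (2 * n + 1) / 2 = n := by omega
        simp [mix, h1, h2]
    rw [e, e] at this
    exact (this P hP).1 (y i).2.2
  have h3 : Function.Injective y' := by
    intro i j hij
    by_contra hne
    have := (hy' _ (Dfn.eq (2 * i) (2 * j))).2 (by simpa [mix] using hij)
    have h4 : (y i : U) = y j := by simpa [mix] using this
    exact hne (y.injective (Subtype.ext h4))
  have h5 : (range y').Infinite := infinite_range_of_injective h3
  apply h5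
  refine hf.subset ?_
  rintro _ ⟨i, rfl⟩
  exact ⟨hC.eqvA (h1 i) (y i).2.1, h2 i⟩

/-- formulas with infinitely many algebraic solutions stay so nearby -/
lemma Cx.c2 [Countable (L.Formula ℕ)] (hS : Sat L U) (hC : Cx L N0 D) (hNO : NOrd L (D ∩ N0))
    {P : (ℕ → U) → Prop} (hP : Dfn L P) {w : ℕ → U}
    (hF : {x | x ∈ D ∩ N0 ∧ P (cons x w)}.Infinite) :
    ∃ R, Dfn L R ∧ R w ∧ ∀ m : ℕ → U, (∀ i, m i ∈ D ∩ N0) → R m →
      {x | x ∈ D ∩ N0 ∧ P (cons x m)}.Infinite := by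
  classical
  by_contra hcon
  push Not at hcon
  have hcA : (D ∩ N0).Countable :=
    (alg_countable (L := L) (U := U)).mono fun x hx => hC.alg x hx
  obtain ⟨α, hα⟩ := hcA.exists_eq_range hC.inf.nonempty
  have hαm : ∀ i, α i ∈ D ∩ N0 := fun i => hα ▸ mem_range_self i
  have hss : ∀ r, ∃ m : ℕ → U, (∀ i, m i ∈ D ∩ N0) ∧
      (∀ i ≤ r, (P (cons (α i) w) ↔ P (cons (α i) m))) ∧
      {x | x ∈ D ∩ N0 ∧ P (cons x m)}.Finite := by
    intro r
    obtain ⟨Q, hQ1, hQ2, hQ3⟩ := isol_alg' (fun i => hC.alg _ (hαm i)) r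
    let R : (ℕ → U) → Prop := exs (r + 1) (fun u => Q (trn r u) ∧
      ∀ i ∈ Finset.range (r + 1), (P (cons (u i) (fun m => u (m + (r + 1)))) ↔ P (cons (α i) w)))
    have hR : Dfn L R := by
      refine Dfn.exs ((hQ1.subst fun i => min i r).and (Dfn.ball _ fun i _ => ?_)) _
      refine Dfn.iff ?_ (Dfn.prop _)
      refine (hP.subst (fun n : ℕ => Nat.casesOn n i (fun m => m + (r + 1)))).congr fun u => ?_
      have e : (u ∘ fun n : ℕ => (Nat.casesOn n i (fun m => m + (r + 1)) : ℕ)) =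
          cons (u i) (fun m => u (m + (r + 1))) := by
        funext n; cases n <;> rfl
      rw [e]
    have hRw : R w := by
      let u : ℕ → U := fun m => if m < r + 1 then α m else w (m - (r + 1))
      have hu1 : ∀ m, u (m + (r + 1)) = w m := by
        intro m
        have : ¬ m + (r + 1) < r + 1 := by omega
        simp only [u, if_neg this]
        congr 1
        omega
      have hu2 : ∀ i, i < r + 1 → u i = α i := fun i hi => by simp only [u, if_pos hi]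
      refine ⟨u, hu1, ?_, fun i hi => ?_⟩
      · have : trn r u = trn r α := by
          funext i
          exact hu2 _ (by omega)
        rw [this]
        exact hQ2
      · rw [hu2 i (Finset.mem_range.1 hi)]
        simp only [hu1]
    obtain ⟨m, hm1, ⟨u, hu1, hu2, hu3⟩, hm3⟩ := hcon R hR hRw
    obtain ⟨m', hm'⟩ := hS.bfs (hQ3 u hu2).symm m
    have h1 : Eqv L m m' := by
      have := hm'.subst (fun n => 2 * n)
      rwa [mix_even, mix_even] at this
    refine ⟨m', fun i => hC.eqvA (h1.subst fun _ => i) (hm1 i), fun i hi => ?_,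
      hC.fin_transport hS hP h1 hm3⟩
    have h2 := hm'.subst (fun n : ℕ => Nat.casesOn n (2 * i + 1) (fun k => 2 * k))
    have e : ∀ a b : ℕ → U, mix a b ∘ (fun n : ℕ => Nat.casesOn n (2 * i + 1) (fun k => 2 * k)) =
        cons (b i) a := by
      intro a b
      funext n
      cases n with
      | zero =>
        have h1 : (2 * i + 1) % 2 = 1 := by omega
        have h2 : (2 * i + 1) / 2 = i := by omega
        simp [mix, h1, h2]
      | succ n => simp [mix]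
    rw [e, e] at h2
    have h3 := hu3 i (Finset.mem_range.2 (by omega))
    have e2 : (fun m => u (m + (r + 1))) = m := funext hu1
    rw [e2] at h3
    rw [← h3]
    have h4 := h2 P hP
    have e3 : ∀ q : ℕ → U, trn r q i = q i := fun q => by simp [trn, hi]
    rw [e3, e3] at h4
    exact h4
  have hidx : ∀ a ∈ D ∩ N0, ∃ i, α i = a := by
    intro a ha
    rw [hα] at ha
    exact ha
  choose! idx hidx using hidx
  obtain ⟨f, hf1, hf2⟩ := exists_seq_of_forall_finset_exists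
    (fun p : U × (ℕ → U) => p.1 ∈ D ∩ N0 ∧ P (cons p.1 w) ∧ (∀ i, p.2 i ∈ D ∩ N0) ∧
      {x | x ∈ D ∩ N0 ∧ P (cons x p.2)}.Finite ∧ P (cons p.1 p.2))
    (fun p q => ¬ P (cons q.1 p.2) ∧ P (cons p.1 q.2)) (by
      intro s hs
      have h3 : (⋃ p ∈ s, {x | x ∈ D ∩ N0 ∧ P (cons x p.2)}).Finite :=
        Set.Finite.biUnion (Finset.finite_toSet _) fun p hp => (hs p hp).2.2.2.1
      obtain ⟨a, ha1, ha2⟩ := (hF.sdiff h3).nonempty
      obtain ⟨m, hm1, hm2, hm3⟩ := hss (max (idx a) (s.sup fun p => idx p.1))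
      have h4 : P (cons a m) := by
        have := hm2 (idx a) (le_max_left _ _)
        rw [hidx a ha1.1] at this
        exact this.1 ha1.2
      refine ⟨(a, m), ⟨ha1.1, ha1.2, hm1, hm3, h4⟩, fun p hp => ⟨fun h => ha2 ?_, ?_⟩⟩
      · exact mem_biUnion (x := p) hp ⟨ha1.1, h⟩
      · have := hm2 (idx p.1) ((Finset.le_sup (f := fun p : U × (ℕ → U) => idx p.1) hp).trans
          (le_max_right _ _))
        rw [hidx p.1 (hs p hp).1] at this
        exact this.1 (hs p hp).2.1)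
  apply hNO
  refine ⟨P, fun i => (f (i + 1)).1, fun i => (f i).2, hP, fun i => (hf1 _).1,
    fun i => (hf1 i).2.2.1, fun i j => ?_⟩
  constructor
  · intro h
    by_contra hij
    exact (hf2 j (i + 1) (by omega)).1 h
  · intro hij
    rcases Nat.lt_or_eq_of_le (Nat.succ_le_of_lt hij) with h | h
    · exact (hf2 (i + 1) j h).2
    · rw [← h]
      exact (hf1 (i + 1)).2.2.2.2

end Run7.h353
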