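import Pool.Agent.Run7.h353.Closure

set_option autoImplicit false

/-!
# Transitivity, exchange and dimension for the closure operator
-/

open FirstOrder FirstOrder.Language Set

namespace Run7.h353

variable {L : FirstOrder.Language.{0, 0}} {U : Type} [L.Structure U]

variable (L) in
/-- the closure: `c` satisfies over `z` a formula with finitely many algebraic solutions -/
def Cl (N0 D : Set U) (z : ℕ → U) (c : U) : Prop :=
  c ∈ D ∧ ∃ P, Dfn L P ∧ P (cons c z) ∧ {x | x ∈ D ∩ N0 ∧ P (cons x z)}.Finite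

variable {N0 D : Set U}

/-- the approximation of tuples of `D` by algebraic tuples -/
lemma Cx.tvs_aux (hC : Cx L N0 D) (k : ℕ) : ∀ (P : (ℕ → U) → Prop) (m : ℕ → U), Dfn L P →
    (∀ i, m i ∈ D ∩ N0) → exs k (fun u => (∀ i ∈ Finset.range k, u i ∈ D) ∧ P u) m →
    ∃ m' : ℕ → U, (∀ i, m' i ∈ D ∩ N0) ∧ P m' := by
  induction k with
  | zero =>
    rintro P m hP hm ⟨u, h1, h2, h3⟩
    have : u = m := funext h1
    exact ⟨m, hm, this ▸ h3⟩
  | succ k ih =>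
    rintro P m hP hm ⟨u, h1, h2, h3⟩
    have hD : Dfn L (exs k (fun u => (∀ i ∈ Finset.range k, u i ∈ D) ∧ P u)) :=
      Dfn.exs ((Dfn.ball _ fun i _ => (hC.dD.subst fun _ => i)).and hP) k
    have hdp : DP L N0 (fun x => x ∈ D ∧ exs k (fun u => (∀ i ∈ Finset.range k, u i ∈ D) ∧ P u)
        (cons x m)) := hC.dpD.and (DP.of hD fun i => (hm i).2)
    obtain ⟨x, hx, hxD, hx2⟩ := hC.tv.dp hdp ⟨u k, h2 k (Finset.mem_range.2 (by omega)), u, by
      intro j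
      cases j with
      | zero => simp
      | succ j =>
        rw [cons_succ, ← h1 j]
        congr 1
        omega, fun i hi => h2 i (Finset.mem_range.2 (by have := Finset.mem_range.1 hi; omega)), h3⟩
    refine ih P (cons x m) hP (fun i => ?_) hx2
    cases i with
    | zero => exact ⟨hxD, hx⟩
    | succ i => exact hm i

lemma Cx.tvs (hC : Cx L N0 D) {P : (ℕ → U) → Prop} (hP : Dfn L P) {w : ℕ → U}
    (hw : ∀ i, w i ∈ D) (h : P w) : ∃ m : ℕ → U, (∀ i, m i ∈ D ∩ N0) ∧ P m := by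
  obtain ⟨k, hk⟩ := hP.supp
  obtain ⟨a, ha⟩ := hC.inf.nonempty
  let u : ℕ → U := fun i => if i < k then w i else a
  refine hC.tvs_aux k P (fun _ => a) hP (fun _ => ha) ⟨u, fun m => ?_, fun i hi => ?_, ?_⟩
  · simp [u]
  · simp only [u, if_pos (Finset.mem_range.1 hi)]
    exact hw i
  · exact (hk w u fun i hi => by simp only [u, if_pos hi]).1 h

/-- index maps for `(y, z)` and `(x, y, z)` from `(y, x, z)` -/
def f1 : ℕ → ℕ := fun n => Nat.casesOn n 0 (fun k => k + 2)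
def f2 : ℕ → ℕ := fun n => Nat.casesOn n 1 (fun k => Nat.casesOn k 0 (fun j => j + 2))

omit [L.Structure U] in
lemma comp_f1 (y x : U) (z : ℕ → U) : cons y (cons x z) ∘ f1 = cons y z := by
  funext n
  cases n <;> rfl

omit [L.Structure U] in
lemma comp_f2 (y x : U) (z : ℕ → U) : cons y (cons x z) ∘ f2 = cons x (cons y z) := by
  funext n
  rcases n with _ | _ | n <;> rfl

omit [L.Structure U] in
lemma mem_cons {S : Set U} {x : U} {z : ℕ → U} (hx : x ∈ S) (hz : ∀ i, z i ∈ S) (i : ℕ) :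
    cons x z i ∈ S := by
  cases i with
  | zero => exact hx
  | succ i => exact hz i

/-- transitivity -/
lemma Cx.c3 [Countable (L.Formula ℕ)] (hS : Sat L U) (hC : Cx L N0 D) (hNO : NOrd L (D ∩ N0))
    {g : U} (hg : g ∈ D) (hg0 : g ∉ N0) {z : ℕ → U} (hz : ∀ i, z i ∈ D) {b c : U}
    (hb : Cl L N0 D z b) (hc : Cl L N0 D (cons b z) c) : Cl L N0 D z c := by
  classical
  obtain ⟨hbD, θ, hθ, hθb, hθf⟩ := hb
  obtain ⟨hcD, P, hP, hPc, hPf⟩ := hc
  obtain ⟨ν, hν, hνb, hνf⟩ := hC.c1 hS hNO hg hg0 hP hPf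
  let Φ : (ℕ → U) → Prop := fun v => ∃ y, (fun u : ℕ → U => u 0 ∈ D ∧ θ (u ∘ f1) ∧ ν (u ∘ f1) ∧
    P (u ∘ f2)) (cons y v)
  have hΦ : Dfn L Φ := Dfn.ex (hC.dD.and ((hθ.subst f1).and ((hν.subst f1).and (hP.subst f2))))
  have hΦ' : ∀ x v, Φ (cons x v) ↔ ∃ y, y ∈ D ∧ θ (cons y v) ∧ ν (cons y v) ∧
      P (cons x (cons y v)) := by
    intro x v
    simp only [Φ, comp_f1, comp_f2, cons_zero]
  refine ⟨hcD, Φ, hΦ, (hΦ' _ _).2 ⟨b, hbD, hθb, hνb, hPc⟩, ?_⟩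
  by_contra hinf
  obtain ⟨ρ, hρ, hρz, hρf⟩ := hC.c2 hS hNO hΦ hinf
  obtain ⟨ρ', hρ', hρz', hρf'⟩ := hC.c1 hS hNO hg hg0 hθ hθf
  obtain ⟨m, hm, hm1, hm2⟩ := hC.tvs (hρ.and hρ') hz ⟨hρz, hρz'⟩
  have h1 := hρf m hm hm1
  have h2 := hρf' m hm hm2
  apply h1
  have h3 : (⋃ y ∈ {y | y ∈ D ∩ N0 ∧ θ (cons y m)},
      {x | x ∈ D ∩ N0 ∧ P (cons x (cons y m)) ∧ ν (cons y m)}).Finite := by
    refine h2.biUnion fun y hy => ?_
    by_cases hνy : ν (cons y m)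
    · refine (hνf (cons y m) (fun i => mem_cons hy.1 hm i) hνy).subset fun x hx => ⟨hx.1, hx.2.1⟩
    · refine Set.Finite.subset Set.finite_empty fun x hx => ?_
      exact absurd hx.2.2 hνy
  refine h3.subset ?_
  rintro x ⟨hx1, hx2⟩
  obtain ⟨y, hy1, hy2, hy3, hy4⟩ := (hΦ' _ _).1 hx2
  have hy : y ∈ D ∩ N0 := hC.fin_mem (DP.of hθ fun i => (hm i).2) h2 hy1 hy2
  exact mem_biUnion (x := y) ⟨hy, hy2⟩ ⟨hx1, hy4, hy3⟩

end Run7.h353
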