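import Pool.Agent.Run7.h353.Closure2

set_option autoImplicit false

/-!
# Exchange and dimension
-/

open FirstOrder FirstOrder.Language Set

namespace Run7.h353

variable {L : FirstOrder.Language.{0, 0}} {U : Type} [L.Structure U] {N0 D : Set U}

/-- exchange -/
lemma Cx.c4 [Countable (L.Formula ℕ)] (hS : Sat L U) (hC : Cx L N0 D) (hNO : NOrd L (D ∩ N0))
    {g : U} (hg : g ∈ D) (hg0 : g ∉ N0) {z : ℕ → U} (hz : ∀ i, z i ∈ D) {b c : U} (hb : b ∈ D)
    (hc : Cl L N0 D (cons b z) c) (hnc : ¬ Cl L N0 D z c) : Cl L N0 D (cons c z) b := by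
  classical
  obtain ⟨hcD, P, hP, hPc, hPf⟩ := hc
  obtain ⟨ν, hν, hνb, hνf⟩ := hC.c1 hS hNO hg hg0 hP hPf
  let ψ : (ℕ → U) → Prop := fun u => P (u ∘ f2) ∧ ν (u ∘ f1)
  have hψ : Dfn L ψ := (hP.subst f2).and (hν.subst f1)
  have hψ' : ∀ y x v, ψ (cons y (cons x v)) ↔ P (cons x (cons y v)) ∧ ν (cons y v) := by
    intro y x v
    simp only [ψ, comp_f1, comp_f2]
  by_contra hcon
  have h1 : {y | y ∈ D ∩ N0 ∧ ψ (cons y (cons c z))}.Infinite := fun hf =>
    hcon ⟨hb, ψ, hψ, (hψ' _ _ _).2 ⟨hPc, hνb⟩, hf⟩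
  obtain ⟨ρ, hρ, hρz, hρf⟩ := hC.c2 hS hNO hψ h1
  have h2 : {x | x ∈ D ∩ N0 ∧ ρ (cons x z)}.Infinite := fun hf => hnc ⟨hcD, ρ, hρ, hρz, hf⟩
  obtain ⟨σ, hσ, hσz, hσf⟩ := hC.c2 hS hNO hρ h2
  obtain ⟨m, hm, hm1⟩ := hC.tvs hσ hz hσz
  have hX := hσf m hm hm1
  have h3 : ∀ x ∈ {x | x ∈ D ∩ N0 ∧ ρ (cons x m)}, ∃ m', (∀ i, m' i ∈ D ∩ N0) ∧
      Eqv L (cons x m) m' ∧ ψ (cons g m') := by
    rintro x ⟨hx1, hx2⟩
    exact hC.conj hS hg hg0 hψ (fun i => mem_cons hx1 hm i)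
      (hρf _ (fun i => mem_cons hx1 hm i) hx2)
  have : Nonempty U := ⟨g⟩
  choose! F hF1 hF2 hF3 using h3
  obtain ⟨K, hK⟩ := hψ.supp
  obtain ⟨a0, ha0⟩ := hC.inf.nonempty
  let T : U → Fin K → U := fun x i => F x (i + 1)
  have hPi : (Set.pi univ fun i : Fin K => {y | Eqv L (fun _ => m i) (fun _ => y)}).Finite :=
    Set.Finite.pi fun i => (hC.alg _ (hm i)).fin_orbit
  have h4 : ∃ t ∈ Set.pi univ fun i : Fin K => {y | Eqv L (fun _ => m i) (fun _ => y)},
      {x | x ∈ {x | x ∈ D ∩ N0 ∧ ρ (cons x m)} ∧ T x = t}.Infinite := by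
    by_contra h
    push Not at h
    refine hX ((hPi.biUnion h).subset fun x hx => ?_)
    refine mem_biUnion (x := T x) (fun i _ => ?_) ⟨hx, rfl⟩
    exact (hF2 x hx).subst (fun _ => (i : ℕ) + 1)
  obtain ⟨t, -, hX'⟩ := h4
  let M : ℕ → U := fun i => if h : i < K then t ⟨i, h⟩ else a0
  have hM : ∀ i, M i ∈ D ∩ N0 := by
    intro i
    by_cases h : i < K
    · simp only [M, dif_pos h]
      obtain ⟨x, hx, hxt⟩ := hX'.nonempty
      rw [← hxt]
      exact hF1 x hx _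
    · simp only [M, dif_neg h]
      exact ha0
  have h5 : ∀ x ∈ {x | x ∈ {x | x ∈ D ∩ N0 ∧ ρ (cons x m)} ∧ T x = t},
      ψ (cons g (cons (F x 0) M)) := by
    rintro x ⟨hx, hxt⟩
    refine (hK _ _ fun i hi => ?_).1 (hF3 x hx)
    rcases i with _ | _ | i
    · rfl
    · rfl
    · have hi' : i < K := by omega
      simp only [cons_succ, M, dif_pos hi']
      rw [← hxt]
  have hY : {n | n ∈ D ∩ N0 ∧ ψ (cons g (cons n M))}.Infinite := by
    intro hf
    refine hX' ((hf.biUnion fun n hn => (hC.alg n hn.1).fin_orbit).subset fun x hx => ?_)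
    refine mem_biUnion (x := F x 0) ⟨hF1 x hx.1 0, h5 x hx⟩ ?_
    exact ((hF2 x hx.1).subst (fun _ => 0)).symm
  have hfin : ∀ a ∈ D ∩ N0, {n | n ∈ D ∩ N0 ∧ ψ (cons a (cons n M))}.Finite := by
    intro a ha
    by_cases h : ν (cons a M)
    · exact (hνf (cons a M) (fun i => mem_cons ha hM i) h).subset fun n hn =>
        ⟨hn.1, ((hψ' _ _ _).1 hn.2).1⟩
    · exact Set.finite_empty.subset fun n hn => absurd ((hψ' _ _ _).1 hn.2).2 h
  obtain ⟨f, hf1, hf2⟩ := exists_seq_of_forall_finset_exists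
    (fun p : U × U => (p.1 ∈ D ∩ N0 ∧ ψ (cons g (cons p.1 M))) ∧ p.2 ∈ D ∩ N0)
    (fun p q => ψ (cons q.2 (cons p.1 M)) ∧ ¬ ψ (cons p.2 (cons q.1 M))) (by
      intro s hs
      have h1 : DP L N0 (fun x => ∀ p ∈ s, ψ (cons x (cons p.1 M))) :=
        DP.ball hC.ne _ fun p hp => DP.of hψ fun i => (mem_cons (hs p hp).1.1 hM i).2
      obtain ⟨a, ha, ha2⟩ := (hC.gen hg hg0 h1 (fun p hp => (hs p hp).1.2)).nonempty
      have h3 : (⋃ p ∈ s, {n | n ∈ D ∩ N0 ∧ ψ (cons p.2 (cons n M))}).Finite :=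
        Set.Finite.biUnion (Finset.finite_toSet _) fun p hp => hfin _ (hs p hp).2
      obtain ⟨n, hn1, hn2⟩ := (hY.sdiff h3).nonempty
      exact ⟨(n, a), ⟨hn1, ha⟩, fun p hp => ⟨ha2 p hp, fun h => hn2
        (mem_biUnion (x := p) hp ⟨hn1.1, h⟩)⟩⟩)
  -- elements `n_i`, tuples `(a_j, M)`: the formula holds if and only if `i < j`, up to the diagonal
  apply hNO
  refine ⟨fun v => ψ (v ∘ f2), fun i => (f (2 * i + 1)).1, fun i => cons (f (2 * i)).2 M, hψ.subst f2,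
    fun i => (hf1 _).1.1, fun i => fun j => mem_cons (hf1 _).2 hM j, fun i j => ?_⟩
  simp only [comp_f2]
  constructor
  · intro h
    by_contra hij
    exact (hf2 (2 * j) (2 * i + 1) (by omega)).2 h
  · intro hij
    exact (hf2 (2 * i + 1) (2 * j) (by omega)).1

/-- `z` is obtained from `z'` by a map of indices -/
def Sb (z z' : ℕ → U) : Prop := ∃ f : ℕ → ℕ, z = z' ∘ f

omit [L.Structure U] in
lemma Sb.refl (z : ℕ → U) : Sb z z := ⟨id, rfl⟩

omit [L.Structure U] in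
lemma Sb.trans {z z' z'' : ℕ → U} (h : Sb z z') (h' : Sb z' z'') : Sb z z'' := by
  obtain ⟨f, rfl⟩ := h
  obtain ⟨g, rfl⟩ := h'
  exact ⟨g ∘ f, rfl⟩

omit [L.Structure U] in
lemma Sb.cons {z z' : ℕ → U} (h : Sb z z') (x : U) : Sb (cons x z) (cons x z') := by
  obtain ⟨f, rfl⟩ := h
  exact ⟨lft f, (cons_comp_lft _ _ _).symm⟩

omit [L.Structure U] in
lemma Sb.tail (x : U) (z : ℕ → U) : Sb z (Run7.h353.cons x z) := ⟨fun n => n + 1, rfl⟩

omit [L.Structure U] in
lemma Sb.swap (x y : U) (z : ℕ → U) :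
    Sb (Run7.h353.cons x (Run7.h353.cons y z)) (Run7.h353.cons y (Run7.h353.cons x z)) :=
  ⟨f2, (comp_f2 _ _ _).symm⟩

lemma Cl.mono {z z' : ℕ → U} (h : Sb z z') {c : U} (hc : Cl L N0 D z c) : Cl L N0 D z' c := by
  obtain ⟨f, rfl⟩ := h
  obtain ⟨h1, P, hP, h2, h3⟩ := hc
  refine ⟨h1, _, hP.subst (lft f), ?_, ?_⟩
  · rw [cons_comp_lft]; exact h2
  · simp only [cons_comp_lft]; exact h3

/-- a list put in front of a sequence -/
def app : List U → (ℕ → U) → ℕ → U
  | [], z => z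
  | x :: l, z => cons x (app l z)

omit [L.Structure U] in
lemma mem_app {S : Set U} {l : List U} {z : ℕ → U} (hl : ∀ x ∈ l, x ∈ S) (hz : ∀ i, z i ∈ S) :
    ∀ i, app l z i ∈ S := by
  induction l with
  | nil => exact hz
  | cons x l ih => exact fun i => mem_cons (hl x (by simp)) (ih fun y hy => hl y (by simp [hy])) i

omit [L.Structure U] in
lemma Sb.app (l : List U) {z z' : ℕ → U} (h : Sb z z') : Sb (app l z) (Run7.h353.app l z') := by
  induction l with
  | nil => exact h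
  | cons x l ih => exact ih.cons x

omit [L.Structure U] in
lemma Sb.app_tail (l : List U) (z : ℕ → U) : Sb z (Run7.h353.app l z) := by
  induction l with
  | nil => exact Sb.refl _
  | cons x l ih => exact ih.trans (Sb.tail _ _)

omit [L.Structure U] in
lemma Sb.app_swap (l : List U) (b : U) (z : ℕ → U) :
    Sb (Run7.h353.cons b (Run7.h353.app l z)) (Run7.h353.app l (Run7.h353.cons b z)) := by
  induction l with
  | nil => exact Sb.refl _
  | cons x l ih => exact (Sb.swap _ _ _).trans (ih.cons x)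

variable (L N0 D) in
/-- independent lists -/
def Ind : (ℕ → U) → List U → Prop
  | _, [] => True
  | z, b :: l => ¬ Cl L N0 D z b ∧ Ind (cons b z) l

lemma Ind.not_mem {z : ℕ → U} {l : List U} (h : Ind L N0 D z l) : ∀ b ∈ l, ¬ Cl L N0 D z b := by
  induction l generalizing z with
  | nil => intro b hb; simp at hb
  | cons a l ih =>
    intro b hb
    rcases List.mem_cons.1 hb with rfl | hb
    · exact h.1
    · exact fun hc => ih h.2 b hb (hc.mono (Sb.tail a z))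

lemma Ind.mono {z z' : ℕ → U} (h1 : Sb z z') {l : List U} (h : Ind L N0 D z' l) :
    Ind L N0 D z l := by
  induction l generalizing z z' with
  | nil => trivial
  | cons a l ih => exact ⟨fun hc => h.1 (hc.mono h1), ih (h1.cons a) h.2⟩

lemma Ind.remove [Countable (L.Formula ℕ)] (hS : Sat L U) (hC : Cx L N0 D)
    (hNO : NOrd L (D ∩ N0)) {g : U} (hg : g ∈ D) (hg0 : g ∉ N0) {l1 l2 : List U} {b : U}
    (hb : b ∈ D) : ∀ {z : ℕ → U}, (∀ i, z i ∈ D) → (∀ x ∈ l1, x ∈ D) →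
    Ind L N0 D z (l1 ++ b :: l2) → Ind L N0 D (cons b z) (l1 ++ l2) := by
  induction l1 with
  | nil => intro z _ _ h; exact h.2
  | cons a l1 ih =>
    intro z hz hl h
    have ha : a ∈ D := hl a (by simp)
    have hz' : ∀ i, cons a z i ∈ D := fun i => mem_cons ha hz i
    have h2 := ih hz' (fun x hx => hl x (by simp [hx])) h.2
    refine ⟨fun hc => ?_, h2.mono (Sb.swap _ _ _)⟩
    have h3 : Cl L N0 D (cons a z) b := hC.c4 hS hNO hg hg0 hz hb hc h.1
    exact h.2.not_mem b (by simp) h3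

/-- an independent list is not longer than a generating list -/
lemma Ind.length_le [Countable (L.Formula ℕ)] (hS : Sat L U) (hC : Cx L N0 D)
    (hNO : NOrd L (D ∩ N0)) {g : U} (hg : g ∈ D) (hg0 : g ∉ N0) (s : List U) :
    ∀ {z : ℕ → U} {l : List U}, (∀ i, z i ∈ D) → (∀ x ∈ s, x ∈ D) → (∀ x ∈ l, x ∈ D) →
    Ind L N0 D z l → (∀ b ∈ l, Cl L N0 D (app s z) b) → l.length ≤ s.length := by
  induction s with
  | nil =>
    intro z l _ _ _ h1 h2
    cases l with
    | nil => simp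
    | cons b l => exact absurd (h2 b (by simp)) h1.1
  | cons x s ih =>
    intro z l hz hs hl h1 h2
    have hx : x ∈ D := hs x (by simp)
    have hs' : ∀ y ∈ s, y ∈ D := fun y hy => hs y (by simp [hy])
    by_cases h : ∀ b ∈ l, Cl L N0 D (app s z) b
    · have := ih hz hs' hl h1 h
      simp only [List.length_cons]
      omega
    · push Not at h
      obtain ⟨b, hb, hnb⟩ := h
      have hbD := hl b hb
      obtain ⟨l1, l2, rfl⟩ := List.append_of_mem hb
      have hsz : ∀ i, app s z i ∈ D := mem_app hs' hz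
      have h3 : Cl L N0 D (cons b (app s z)) x := hC.c4 hS hNO hg hg0 hsz hx (h2 b hb) hnb
      have h4 : Ind L N0 D (cons b z) (l1 ++ l2) :=
        Ind.remove hS hC hNO hg hg0 hbD hz (fun y hy => hl y (by simp [hy])) h1
      have h5 := ih (z := cons b z) (l := l1 ++ l2) (fun i => mem_cons hbD hz i) hs'
        (fun y hy => hl y (by
          rcases List.mem_append.1 hy with h | h
          · simp [h]
          · simp [h])) h4 (fun y hy => by
            have hy' : y ∈ l1 ++ b :: l2 := by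
              rcases List.mem_append.1 hy with h | h
              · simp [h]
              · simp [h]
            have h6 : Cl L N0 D (cons x (cons b (app s z))) y :=
              (h2 y hy').mono ((Sb.tail b _).cons x)
            have h7 : Cl L N0 D (cons b (app s z)) y :=
              hC.c3 hS hNO hg hg0 (fun i => mem_cons hbD hsz i) h3 h6
            exact h7.mono (Sb.app_swap _ _ _))
      simp only [List.length_append, List.length_cons] at h5 ⊢
      omega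

/-- elements outside of the closure exist -/
lemma Cx.exists_notcl [Countable (L.Formula ℕ)] (hS : Sat L U) (hC : Cx L N0 D) (z : ℕ → U) :
    ∃ c ∈ D, ¬ Cl L N0 D z c := by
  obtain ⟨x, hx⟩ := hS.dir z {R | ∃ P, Dfn L P ∧ {y : U | y ∈ D ∩ N0 ∧ P (cons y z)}.Finite ∧
      R = fun v => v 0 ∈ D ∧ ¬ P v}
    ⟨_, _, Dfn.fl, by simp, rfl⟩
    (by
      rintro R ⟨P', h1, h2, rfl⟩
      exact hC.dD.and h1.not)
    (by
      rintro R ⟨P', h1, h2, rfl⟩ R' ⟨P'', h1', h2', rfl⟩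
      refine ⟨_, ⟨_, h1.or h1', ?_, rfl⟩, fun v hv => ⟨⟨hv.1, fun h => hv.2 (Or.inl h)⟩,
        hv.1, fun h => hv.2 (Or.inr h)⟩⟩
      refine (h2.union h2').subset ?_
      rintro y ⟨hy1, hy2 | hy2⟩
      · exact Or.inl ⟨hy1, hy2⟩
      · exact Or.inr ⟨hy1, hy2⟩)
    (by
      rintro R ⟨P', h1, h2, rfl⟩
      obtain ⟨x, hx1, hx2⟩ := (hC.inf.sdiff h2).nonempty
      exact ⟨x, hx1.1, fun h => hx2 ⟨hx1, h⟩⟩)
  have h0 := hx _ ⟨_, Dfn.fl, by simp, rfl⟩
  refine ⟨x, h0.1, ?_⟩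
  rintro ⟨h1, P, hP, h2, h3⟩
  exact (hx _ ⟨P, hP, h3, rfl⟩).2 h2

lemma Cx.exists_ind [Countable (L.Formula ℕ)] (hS : Sat L U) (hC : Cx L N0 D) (n : ℕ) :
    ∀ z : ℕ → U, ∃ l : List U, l.length = n ∧ (∀ x ∈ l, x ∈ D) ∧ Ind L N0 D z l := by
  induction n with
  | zero => exact fun z => ⟨[], rfl, by simp, trivial⟩
  | succ n ih =>
    intro z
    obtain ⟨c, hc, hc2⟩ := hC.exists_notcl hS z
    obtain ⟨l, h1, h2, h3⟩ := ih (cons c z)
    refine ⟨c :: l, by simp [h1], ?_, hc2, h3⟩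
    intro x hx
    rcases List.mem_cons.1 hx with rfl | hx
    · exact hc
    · exact h2 x hx

end Run7.h353
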