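import Pool.Agent.Run7.h353.Many

set_option autoImplicit false

/-!
# From models to the saturated extension
-/

open FirstOrder FirstOrder.Language Set

namespace Run7.h353

variable {L : FirstOrder.Language.{0, 0}}

section

variable {M : Type} [L.Structure M] [Nonempty M]

/-- the image of the diagonal embedding -/
def Diag (M : Type) : Set (Up M) := range (fun m : M => up (fun _ => m))

lemma tv_diag : TV L (Diag M) := by
  intro v hv P hP hx
  obtain ⟨φ, hφ⟩ := hP
  choose v' hv' using hv
  have e : v = fun i => up (fun _ => v' i) := funext fun i => (hv' i).symm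
  let g : ℕ → ℕ ⊕ Fin 1 := fun n : ℕ => Nat.casesOn n (Sum.inr 0) Sum.inl
  have h1 : ((φ.relabel g).iExs (Fin 1)).Realize v' := by
    rw [← real_up_const, ← e, Formula.realize_iExs]
    obtain ⟨x, hx⟩ := hx
    refine ⟨fun _ => x, ?_⟩
    rw [Formula.realize_relabel, hφ]
    have e : (Sum.elim v (fun _ => x) ∘ g) = cons x v := by
      funext n; cases n <;> rfl
    rwa [e]
  rw [Formula.realize_iExs] at h1
  obtain ⟨i, hi⟩ := h1
  refine ⟨up (fun _ => i 0), ⟨i 0, rfl⟩, ?_⟩
  rw [Formula.realize_relabel, ← real_up_const, hφ] at hi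
  have e2 : (fun k => up (fun _ : ℕ => (Sum.elim v' i ∘ g) k)) = cons (up (fun _ => i 0)) v := by
    funext n
    cases n with
    | zero => rfl
    | succ n => exact hv' n
  rwa [e2] at hi

lemma diag_inj {a b : M} (h : up (fun _ : ℕ => a) = up (fun _ : ℕ => b)) : a = b := by
  let χ : FirstOrder.Language.empty.Formula ℕ := Term.equal (Term.var 0) (Term.var 1)
  let _ : FirstOrder.Language.empty.Structure M := FirstOrder.Language.emptyStructure
  have h1 : χ.Realize (fun i : ℕ => if i = 0 then a else b) := by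
    rw [← real_up_const, Formula.realize_equal]
    simpa using h
  rw [Formula.realize_equal] at h1
  simpa using h1

/-- formulas in finitely many variables -/
lemma realize_up_iff {k : ℕ} (φ : L.Formula (Fin k)) (a : Fin k → M) :
    φ.Realize (fun i => up (fun _ => a i)) ↔ φ.Realize a := real_up_const φ a

lemma dfn_unary {U : Type} [L.Structure U] (φ : L.Formula (Fin 1)) :
    Dfn L (fun v : ℕ → U => φ.Realize ![v 0]) := by
  refine ⟨φ.relabel (fun _ => 0), fun v => ?_⟩
  rw [Formula.realize_relabel]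
  have : (v ∘ fun _ : Fin 1 => 0) = ![v 0] := by
    funext i
    fin_cases i
    rfl
  rw [this]

lemma realize_up_one (φ : L.Formula (Fin 1)) (a : M) :
    φ.Realize ![up (fun _ => a)] ↔ φ.Realize ![a] := by
  have : (fun i : Fin 1 => up (fun _ : ℕ => (![a] : Fin 1 → M) i)) = ![up (fun _ => a)] := by
    funext i
    fin_cases i
    rfl
  rw [← this]
  exact realize_up_iff φ _

/-- the saturated extension of a model with an infinite definable set of algebraic elements -/
lemma setup (D : L.Formula (Fin 1)) (hinf : {a : M | D.Realize ![a]}.Infinite)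
    (halg : ∀ a : M, D.Realize ![a] →
      ∃ φ : L.Formula (Fin 1), φ.Realize ![a] ∧ {b : M | φ.Realize ![b]}.Finite) :
    Dfn L (fun v : ℕ → Up M => v 0 ∈ {x : Up M | D.Realize ![x]}) ∧
    ({x : Up M | D.Realize ![x]} ∩ Diag M).Infinite ∧
    ∀ a ∈ {x : Up M | D.Realize ![x]} ∩ Diag M, Alg L a := by
  refine ⟨dfn_unary D, ?_, ?_⟩
  · have h1 : ((fun m : M => up (fun _ => m)) '' {a : M | D.Realize ![a]}).Infinite :=
      hinf.image fun a _ b _ h => diag_inj h
    refine h1.mono ?_
    rintro _ ⟨m, hm, rfl⟩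
    exact ⟨(realize_up_one D m).2 hm, m, rfl⟩
  · rintro _ ⟨ha, m, rfl⟩
    obtain ⟨φ, h1, h2⟩ := halg m ((realize_up_one D m).1 ha)
    refine ⟨_, (dfn_unary φ), (realize_up_one φ m).2 h1, ?_⟩
    have h3 : {x | x ∈ Diag M ∧ φ.Realize ![x]}.Finite := by
      refine (h2.image (fun m : M => up (fun _ => m))).subset ?_
      rintro _ ⟨⟨b, rfl⟩, hb⟩
      exact ⟨b, (realize_up_one φ b).1 hb, rfl⟩
    have hne : (Diag M).Nonempty := range_nonempty _
    refine h3.subset fun y hy => ⟨?_, hy⟩
    exact tv_diag.fin hne (DP.of0 hne (dfn_unary φ)) h3 y hy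

instance up_infinite [Infinite M] : Infinite (Up M) :=
  Infinite.of_injective (fun m : M => up (fun _ => m)) fun _ _ h => diag_inj h

lemma up_model (T : L.Theory) [M ⊨ T] : Up M ⊨ T := by
  rw [Theory.model_iff]
  intro φ hφ
  rw [Ultraproduct.sentence_realize]
  exact Filter.Eventually.of_forall fun _ => Theory.realize_sentence_of_mem T hφ

end

/-- from Tarski-Vaught sets to models -/
lemma bridge' {U : Type} [L.Structure U] {T : L.Theory} [U ⊨ T] [Nonempty U] {n : ℕ}
    (N : Fin n → Set U) (h1 : ∀ i, Mdl L (N i)) (h2 : ∀ i, (N i).Infinite)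
    (h4 : ∀ i j, i ≠ j → ¬ IsoS L (N i) (N j)) :
    ∃ K : Fin n → T.ModelType.{0, 0, 0}, (∀ i, Countable (K i) ∧ Infinite (K i)) ∧
      ∀ i j, i ≠ j → IsEmpty ((K i) ≃[L] (K j)) := by
  choose S hS using fun i => (h1 i).tv.exists_sub (h1 i).ne
  let MM : T.ModelType := Theory.ModelType.of T U
  refine ⟨fun i => ElementarySubstructure.toModel T (M := MM) (S i), fun i => ⟨?_, ?_⟩,
    fun i j hij => ?_⟩
  · have : (S i : Set U).Countable := by rw [hS i]; exact (h1 i).ct
    exact this.to_subtype
  · have : (S i : Set U).Infinite := by rw [hS i]; exact h2 i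
    exact this.to_subtype
  · refine ⟨fun g => h4 i j hij ?_⟩
    have := isoS_of_equiv (S := S i) (S' := S j) g
    rwa [hS i, hS j] at this

end Run7.h353
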