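import Pool.Agent.Run7.h353.MA4
import Pool.Agent.Run7.h353.Top

set_option autoImplicit false

/-!
# Four countable models
-/

open FirstOrder FirstOrder.Language Set

namespace Run7.h353

variable {L : FirstOrder.Language.{0, 0}} {U : Type} [L.Structure U] {N0 D : Set U}

variable (L) in
/-- the type of `w` is realised in `N` -/
def Rz (N : Set U) (w : ℕ → U) : Prop := ∃ v : ℕ → U, (∀ i, v i ∈ N) ∧ Eqv L w v

lemma IsoS.rz {N N' : Set U} (h : IsoS L N N') {w : ℕ → U} (hw : Rz L N w) : Rz L N' w := by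
  obtain ⟨g, h1, h2, h3⟩ := h
  obtain ⟨v, hv, he⟩ := hw
  exact ⟨g ∘ v, fun i => h1 _ (hv i), he.trans (h3 v hv)⟩

lemma four_of_small [Countable (L.Formula ℕ)] (hS : Sat L U) (hsm : Small L U)
    (hC : Cx L N0 D) :
    ∃ N : Fin 4 → Set U, (∀ k, Mdl L (N k)) ∧ ∀ i j, i ≠ j → ¬ IsoS L (N i) (N j) := by
  classical
  obtain ⟨a0, ha0⟩ := hC.inf.nonempty
  obtain ⟨g, hg, hg0, -⟩ := hC.exists_gen hS Dfn.tr (m := fun _ => a0) (by simpa using hC.inf)
  have : Nonempty U := ⟨g⟩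
  -- the four models
  obtain ⟨M1, hM1, hM1a, hM1i⟩ := exists_atomic hS hsm (n := 0) (w := fun _ => a0)
    (fun i _ => rfl)
  obtain ⟨M2, hM2, hM2g, hM2i⟩ := exists_atomic hS hsm (n := 0) (w := fun _ => g)
    (fun i _ => rfl)
  have hpair : ∃ b1 ∈ D, b1 ∉ N0 ∧ ∃ b2 ∈ D, b2 ∉ N0 ∧ ¬ Rz L M2 (cons b1 (fun _ => b2)) := by
    by_contra hcon
    push Not at hcon
    refine Hy.false (N := M2) (g := g) hS hsm hC ⟨hg, hg0, fun k v h1 h2 => hM2i k v h1 h2,
      hM2g 0, ?_⟩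
    intro b1 hb1 hb10 b2 hb2 hb20
    obtain ⟨v, hv, he⟩ := hcon b1 hb1 hb10 b2 hb2 hb20
    refine ⟨v 0, hv 0, v 1, hv 1, ?_⟩
    have h1 := he.subst (fun n : ℕ => (Nat.casesOn n 0 (fun _ => 1) : ℕ))
    have e1 : ∀ u : ℕ → U, u ∘ (fun n : ℕ => (Nat.casesOn n 0 (fun _ => 1) : ℕ)) =
        cons (u 0) (fun _ => u 1) := by
      intro u
      funext n
      cases n <;> rfl
    rw [e1, e1] at h1
    exact h1
  obtain ⟨b1, hb1, hb10, b2, hb2, hb20, hb⟩ := hpair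
  let w : ℕ → U := cons b1 (fun _ => b2)
  have hw : Wd 1 w := Wd.cons (n := 0) (w := fun _ => b2) (fun i _ => rfl) b1
  obtain ⟨M3, hM3, hM3w, hM3i⟩ := exists_atomic hS hsm hw
  obtain ⟨M4, hM4, hM4s⟩ := exists_csat hsm
  have hrz0 : ∀ N : Set U, (∃ x ∈ N, x ∈ D ∧ x ∉ N0) → Rz L N (fun _ => g) := by
    rintro N ⟨x, hx, hxD, hx0⟩
    exact ⟨fun _ => x, fun _ => hx, hC.types hg hg0 hxD hx0⟩
  have h4r : ∀ n (u : ℕ → U), Wd n u → Rz L M4 u := by
    intro n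
    induction n with
    | zero =>
      intro u hu
      obtain ⟨z, hz⟩ := hM4.ne
      obtain ⟨x, hx, he⟩ := hM4s 0 (fun _ => z) (fun i _ => rfl) (fun _ => hz) (u 0)
      refine ⟨fun _ => x, fun _ => hx, ?_⟩
      have h1 := he.subst (fun _ => 0)
      have e : u = fun _ => u 0 := by
        funext i
        exact hu i (Nat.zero_le i)
      rw [e]
      exact h1
    | succ n ih =>
      intro u hu
      obtain ⟨v, hv, he⟩ := ih (fun i => u (i + 1)) (fun i hi => hu (i + 1) (by omega))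
      obtain ⟨x, hx⟩ := hS.bf he (u 0)
      rw [cons_eta] at hx
      have hvw : Wd n v := Wd.eqv (fun i hi => hu (i + 1) (by omega)) he
      obtain ⟨x', hx', he'⟩ := hM4s n v hvw hv x
      exact ⟨cons x' v, fun i => mem_cons (S := M4) hx' hv i, hx.trans he'⟩
  have n1 : ¬ Rz L M1 (fun _ => g) := by
    rintro ⟨v, hv, he⟩
    have e0 : Eqv L (fun _ => g) (fun _ => v 0) := he.subst fun _ => 0
    have hvD : v 0 ∈ D := hC.eqvD e0 hg
    have hv0 : v 0 ∉ N0 := fun h => hg0 (hC.eqvA e0.symm ⟨hvD, h⟩).2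
    obtain ⟨P, hP⟩ := hM1i 1 (cons (v 0) (fun _ => a0)) (fun m => rfl)
      (fun m => mem_cons (S := M1) (hv 0) (fun _ => hM1a 0) m)
    obtain ⟨x, hx1, hx2⟩ := (hC.gen hvD hv0 (DP.of hP.dfn fun _ => ha0.2) hP.holds).nonempty
    have h1 := hP.eqv (cons x (fun _ => a0)) (fun m => rfl) hx2
    exact hv0 (hC.eqvA (h1.symm.subst fun _ => 0) hx1).2
  have i12 : ¬ IsoS L M1 M2 := fun h => n1 (h.symm.rz (hrz0 _ ⟨g, hM2g 0, hg, hg0⟩))
  have i13 : ¬ IsoS L M1 M3 := fun h => n1 (h.symm.rz (hrz0 _ ⟨b1, hM3w 0, hb1, hb10⟩))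
  have i14 : ¬ IsoS L M1 M4 := fun h => n1 (h.symm.rz (h4r 0 _ fun i _ => rfl))
  have i23 : ¬ IsoS L M2 M3 := fun h => hb (h.symm.rz ⟨w, hM3w, Eqv.refl _⟩)
  have i24 : ¬ IsoS L M2 M4 := fun h => hb (h.symm.rz (h4r 1 _ hw))
  have i34 : ¬ IsoS L M3 M4 := by
    rintro ⟨φ, h1, h2, h3⟩
    obtain ⟨c, hc, hc2⟩ := hC.exists_notcl hS w
    obtain ⟨c', hc'⟩ := hS.bf (h3 w hM3w) c
    obtain ⟨c'', hcm, hc''⟩ := hM4s 1 (φ ∘ w) (fun i hi => by
      simp only [Function.comp_apply]; rw [hw i hi]) (fun i => h1 _ (hM3w i)) c'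
    obtain ⟨d, hd, rfl⟩ := h2 c'' hcm
    have e1 : cons (φ d) (φ ∘ w) = φ ∘ cons d w := by
      funext i
      cases i <;> rfl
    have h4 := h3 (cons d w) (fun i => mem_cons (S := M3) hd hM3w i)
    rw [e1] at hc''
    have h5 : Eqv L (cons c w) (cons d w) := (hc'.trans hc'').trans h4.symm
    obtain ⟨P, hP⟩ := hM3i 1 (cons d w) (fun m => rfl)
      (fun m => mem_cons (S := M3) hd hM3w m)
    have hPc : P (cons c w) := (h5 P hP.dfn).2 hP.holds
    have hinf : {x | x ∈ D ∩ N0 ∧ P (cons x w)}.Infinite := fun hf =>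
      hc2 ⟨hc, P, hP.dfn, hPc, hf⟩
    obtain ⟨x, hx1, hx2⟩ := hinf.nonempty
    have h6 := hP.eqv (cons x w) (fun m => rfl) hx2
    have h7 : Eqv L (fun _ => x) (fun _ => c) := ((h5.trans h6).symm).subst fun _ => 0
    exact hc2 (Cl.of_alg hC (hC.eqvA h7 hx1) _)
  refine ⟨![M1, M2, M3, M4], ?_, ?_⟩
  · intro k
    fin_cases k
    · exact hM1
    · exact hM2
    · exact hM3
    · exact hM4
  · intro i j hij
    fin_cases i <;> fin_cases j <;> first
      | exact absurd rfl hij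
      | exact i12
      | exact i13
      | exact i14
      | exact i23
      | exact i24
      | exact i34
      | exact fun h => i12 h.symm
      | exact fun h => i13 h.symm
      | exact fun h => i14 h.symm
      | exact fun h => i23 h.symm
      | exact fun h => i24 h.symm
      | exact fun h => i34 h.symm

end Run7.h353
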