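import Pool.Agent.Run7.h353.Many
import Pool.Agent.Run7.h353.CSat

set_option autoImplicit false

/-!
# Relations that are semi-isolating among the generic elements
-/

open FirstOrder FirstOrder.Language Set

namespace Run7.h353

variable {L : FirstOrder.Language.{0, 0}} {U : Type} [L.Structure U] {N0 D : Set U}

variable (L) in
/-- binary definable relations -/
def D2 (R : U → U → Prop) : Prop := Dfn L (fun v : ℕ → U => R (v 0) (v 1))

lemma D2.of {P : (ℕ → U) → Prop} (hP : Dfn L P) : D2 L (fun x y => P (cons x (fun _ => y))) := by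
  refine (hP.subst (fun n : ℕ => Nat.casesOn n 0 (fun _ => 1))).congr fun v => ?_
  have e : (v ∘ fun n : ℕ => (Nat.casesOn n 0 (fun _ => 1) : ℕ)) = cons (v 0) (fun _ => v 1) := by
    funext n; cases n <;> rfl
  rw [e]

lemma D2.iff_of {R : U → U → Prop} (hR : D2 L R) {x y x' y' : U}
    (h : Eqv L (cons x (fun _ => y)) (cons x' (fun _ => y'))) : R x y ↔ R x' y' := h _ hR

lemma D2.at {R : U → U → Prop} (hR : D2 L R) (i j : ℕ) :
    Dfn L (fun v : ℕ → U => R (v i) (v j)) :=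
  (hR.subst (fun n : ℕ => (Nat.casesOn n i (fun _ => j) : ℕ))).congr fun _ => Iff.rfl

lemma D2.and {R R' : U → U → Prop} (h : D2 L R) (h' : D2 L R') :
    D2 L (fun x y => R x y ∧ R' x y) := Dfn.and h h'

lemma D2.or {R R' : U → U → Prop} (h : D2 L R) (h' : D2 L R') :
    D2 L (fun x y => R x y ∨ R' x y) := Dfn.or h h'

lemma D2.comp {R R' : U → U → Prop} (h : D2 L R) (h' : D2 L R') :
    D2 L (fun x y => ∃ z, R z y ∧ R' x z) :=
  (Dfn.ex (P := fun u => R (u 0) (u 2) ∧ R' (u 1) (u 0)) ((h.at 0 2).and (h'.at 1 0))).congr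
    fun _ => Iff.rfl

variable (L) in
/-- for generic `a`, all `x` with `R x a` are generic -/
structure SI (N0 D : Set U) (R : U → U → Prop) : Prop where
  d2 : D2 L R
  sub : ∀ x y, R x y → x ∈ D
  si : ∀ a ∈ D, a ∉ N0 → ∀ x, R x a → x ∉ N0

variable (L) in
/-- semi-isolation -/
def Ar (N0 D : Set U) (a b : U) : Prop := ∃ R, SI L N0 D R ∧ R b a

lemma SI.or {R R' : U → U → Prop} (h : SI L N0 D R) (h' : SI L N0 D R') :
    SI L N0 D (fun x y => R x y ∨ R' x y) :=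
  ⟨h.d2.or h'.d2, fun x y hxy => hxy.elim (h.sub x y) (h'.sub x y),
    fun a ha ha' x hx => hx.elim (h.si a ha ha' x) (h'.si a ha ha' x)⟩

lemma SI.comp {R R' : U → U → Prop} (h : SI L N0 D R) (h' : SI L N0 D R') :
    SI L N0 D (fun x y => ∃ z, R z y ∧ R' x z) := by
  refine ⟨h.d2.comp h'.d2, ?_, ?_⟩
  · rintro x y ⟨z, -, h2⟩
    exact h'.sub x z h2
  · rintro a ha ha' x ⟨z, h1, h2⟩
    exact h'.si z (h.sub _ _ h1) (h.si a ha ha' z h1) x h2

lemma SI.fl : SI L N0 D (fun _ _ => False) :=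
  ⟨Dfn.fl, fun _ _ h => h.elim, fun _ _ _ _ h => h.elim⟩

lemma SI.bex {ι : Type} (s : Finset ι) {R : ι → U → U → Prop} (h : ∀ i ∈ s, SI L N0 D (R i)) :
    SI L N0 D (fun x y => ∃ i ∈ s, R i x y) := by
  refine ⟨?_, ?_, ?_⟩
  · exact Dfn.bex s fun i hi => (h i hi).d2
  · rintro x y ⟨i, hi, h2⟩
    exact (h i hi).sub x y h2
  · rintro a ha ha' x ⟨i, hi, h2⟩
    exact (h i hi).si a ha ha' x h2

lemma SI.of [Countable (L.Formula ℕ)] (hS : Sat L U) (hC : Cx L N0 D) {ψ : U → U → Prop}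
    (hψ : D2 L ψ) {a : U} (ha : a ∈ D) (ha0 : a ∉ N0) (h : ∀ x ∈ D ∩ N0, ¬ ψ x a) :
    SI L N0 D (fun x y => x ∈ D ∧ ψ x y) := by
  refine ⟨?_, fun x y hxy => hxy.1, ?_⟩
  · exact Dfn.and hC.dD hψ
  · rintro a' ha' ha0' x ⟨hx, hx2⟩ hx0
    obtain ⟨x', hx'⟩ := hS.bf (hC.types ha' ha0' ha ha0) x
    have h1 : x' ∈ D ∩ N0 := hC.eqvA (hx'.subst fun _ => 0) ⟨hx, hx0⟩
    exact h x' h1 ((hψ.iff_of hx').1 hx2)

lemma Ar.gen {a b : U} (h : Ar L N0 D a b) (ha : a ∈ D) (ha0 : a ∉ N0) : b ∈ D ∧ b ∉ N0 := by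
  obtain ⟨R, hR, h⟩ := h
  exact ⟨hR.sub _ _ h, hR.si a ha ha0 b h⟩

lemma Ar.trans {a b c : U} (h : Ar L N0 D a b) (h' : Ar L N0 D b c) : Ar L N0 D a c := by
  obtain ⟨R, hR, h⟩ := h
  obtain ⟨R', hR', h'⟩ := h'
  exact ⟨_, hR.comp hR', b, h, h'⟩

lemma Ar.eqv {a b a' b' : U} (h : Ar L N0 D a b)
    (he : Eqv L (cons b (fun _ => a)) (cons b' (fun _ => a'))) : Ar L N0 D a' b' := by
  obtain ⟨R, hR, h⟩ := h
  exact ⟨R, hR, (hR.d2.iff_of he).1 h⟩

lemma exists_not_ar [Countable (L.Formula ℕ)] (hS : Sat L U) (hC : Cx L N0 D) {a : U}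
    (ha : a ∈ D) (ha0 : a ∉ N0) : ∃ b ∈ D, b ∉ N0 ∧ ¬ Ar L N0 D a b := by
  obtain ⟨b, hb, hb2⟩ := hC.exists_notcl hS (fun _ => a)
  refine ⟨b, hb, fun hb0 => hb2 (Cl.of_alg hC ⟨hb, hb0⟩ _), ?_⟩
  rintro ⟨R, hR, h⟩
  refine hb2 ⟨hb, _, hR.d2, h, ?_⟩
  refine Set.finite_empty.subset ?_
  rintro x ⟨hx1, hx2⟩
  exact hR.si a ha ha0 x hx2 hx1.2

lemma not_ar_fs [Countable (L.Formula ℕ)] (hS : Sat L U) (hC : Cx L N0 D) {a b : U}
    (ha : a ∈ D) (ha0 : a ∉ N0) (hb : b ∈ D) (h : ¬ Ar L N0 D a b) {ψ : U → U → Prop}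
    (hψ : D2 L ψ) (hba : ψ b a) : ∃ x ∈ D ∩ N0, ψ x a := by
  by_contra hcon
  push Not at hcon
  exact h ⟨_, SI.of hS hC hψ ha ha0 hcon, hb, hba⟩

lemma orbit_fin {l : ℕ → U} (hl : ∀ i, Alg L (l i)) (K : ℕ) :
    {t | Eqv L (trn K l) t}.Finite := by
  have h0 : (Set.pi univ fun i : Fin (K + 1) =>
      {y | Eqv L (fun _ => trn K l i) (fun _ => y)}).Finite :=
    Set.Finite.pi fun i => (hl _).fin_orbit
  refine (h0.image (fun (t : Fin (K + 1) → U) (i : ℕ) => t ⟨min i K, by omega⟩)).subset ?_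
  intro t ht
  refine ⟨fun i => t i, fun i _ => ht.subst (fun _ => (i : ℕ)), ?_⟩
  funext i
  have h1 := (ht _ (Dfn.eq (min i K) i)).1 (by simp [trn])
  exact h1

lemma supp_cons {P : (ℕ → U) → Prop} {K : ℕ}
    (hK : ∀ v w : ℕ → U, (∀ i < K, v i = w i) → (P v ↔ P w)) (x : U) (l : ℕ → U) :
    P (cons x l) ↔ P (cons x (trn K l)) := by
  apply hK
  intro i hi
  cases i with
  | zero => rfl
  | succ i =>
    have : min i K = i := by omega
    simp [trn, this]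

omit [L.Structure U] in
lemma trn_of_wd {K : ℕ} {l : ℕ → U} (h : Wd K l) : trn K l = l := by
  funext i
  rcases le_total i K with h1 | h1
  · simp [trn, h1]
  · simp only [trn, min_eq_right h1]
    exact (h i h1).symm

lemma Wd.eqv {K : ℕ} {l l' : ℕ → U} (h : Wd K l) (he : Eqv L l l') : Wd K l' := by
  intro i hi
  exact (he _ (Dfn.eq i K)).1 (h i hi)

lemma DP.mono {N N' : Set U} (h : N ⊆ N') {R : U → Prop} (hR : DP L N R) : DP L N' R := by
  obtain ⟨z, hz, h2⟩ := hR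
  exact ⟨z, fun i => h (hz i), h2⟩

lemma DP.bex {N : Set U} (hN : N.Nonempty) {ι : Type} (s : Finset ι) {R : ι → U → Prop}
    (h : ∀ i ∈ s, DP L N (R i)) : DP L N (fun x => ∃ i ∈ s, R i x) :=
  (DP.ball hN s fun i hi => (h i hi).not).not.congr fun x => by simp

/-- normal form with finitely many parameters -/
lemma DP.wd {N : Set U} {θ : U → Prop} (h : DP L N θ) : ∃ K l P, Wd K l ∧ (∀ i, l i ∈ N) ∧
    Dfn L P ∧ ∀ x, θ x ↔ P (cons x l) := by
  obtain ⟨z, hz, P, hP, h⟩ := h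
  obtain ⟨K, hK⟩ := hP.supp
  exact ⟨K, trn K z, P, trn_wd K z, fun i => hz _, hP, fun x => (h x).trans (supp_cons hK x z)⟩

/-- the existential formula used for transfer -/
lemma dfn_meet {R : U → U → Prop} (hR : D2 L R) {P : (ℕ → U) → Prop} (hP : Dfn L P) :
    Dfn L (fun u : ℕ → U => ∃ x, R x (u 1) ∧ P (cons x (u ∘ fun n => 2 * n))) := by
  refine (Dfn.ex (P := fun v => R (v 0) (v 2) ∧ P (v ∘ lft fun n => 2 * n))
    ((hR.at 0 2).and (hP.subst _))).congr fun u => ?_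
  simp only [cons_comp_lft]
  exact Iff.rfl

lemma meet_transfer {R : U → U → Prop} (hR : D2 L R) {P : (ℕ → U) → Prop} (hP : Dfn L P)
    {l l' : ℕ → U} {a a' : U} (h : Eqv L (mix l (fun _ => a)) (mix l' (fun _ => a')))
    (hx : ∃ x, R x a ∧ P (cons x l)) : ∃ x, R x a' ∧ P (cons x l') := by
  have h1 := h _ (dfn_meet hR hP)
  simp only [mix_even] at h1
  have e1 : ∀ (l : ℕ → U) (a : U), mix l (fun _ => a) 1 = a := fun l a => by simp [mix]
  rw [e1, e1] at h1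
  exact h1.1 hx

end Run7.h353
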