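import Pool.Agent.Run7.h353.MA1

set_option autoImplicit false

/-!
# If the atomic model over a generic element realises all types of pairs of generic elements
-/

open FirstOrder FirstOrder.Language Set

namespace Run7.h353

variable {L : FirstOrder.Language.{0, 0}} {U : Type} [L.Structure U] {N0 D : Set U}

variable (L) in
/-- `N` is atomic over `g` and realises all types of pairs of generic elements -/
structure Hy (N0 D N : Set U) (g : U) : Prop where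
  gD : g ∈ D
  g0 : g ∉ N0
  at' : ∀ k v, (∀ m, v (m + k) = g) → (∀ m, v m ∈ N) → ∃ P, IsolN L k P v (fun _ => g)
  gN : g ∈ N
  pairs : ∀ b1 ∈ D, b1 ∉ N0 → ∀ b2 ∈ D, b2 ∉ N0 → ∃ b1' ∈ N, ∃ b2' ∈ N,
    Eqv L (cons b1 (fun _ => b2)) (cons b1' (fun _ => b2'))

variable {N : Set U} {g : U}

lemma Hy.isolSI [Countable (L.Formula ℕ)] (hS : Sat L U) (hC : Cx L N0 D)
    (hH : Hy L N0 D N g) {b : U} (hb : b ∈ D) (hb0 : b ∉ N0) (hbN : b ∈ N) :
    ∃ φ, SI L N0 D φ ∧ φ b g ∧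
      ∀ x, φ x g → Eqv L (cons b (fun _ => g)) (cons x (fun _ => g)) := by
  obtain ⟨P, hP⟩ := hH.at' 1 (cons b (fun _ => g)) (fun m => rfl)
    (fun m => mem_cons (S := N) hbN (fun _ => hH.gN) m)
  refine ⟨fun x y => x ∈ D ∧ P (cons x (fun _ => y)),
    SI.of hS hC (D2.of hP.dfn) hH.gD hH.g0 ?_, ⟨hb, hP.holds⟩, ?_⟩
  · intro x hx hPx
    have h1 := hP.eqv (cons x (fun _ => g)) (fun m => rfl) hPx
    exact hb0 (hC.eqvA (h1.symm.subst fun _ => 0) hx).2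
  · rintro x ⟨-, hPx⟩
    exact hP.eqv (cons x (fun _ => g)) (fun m => rfl) hPx

lemma Hy.dir2 [Countable (L.Formula ℕ)] (hS : Sat L U) (hC : Cx L N0 D)
    (hH : Hy L N0 D N g) {b1 b2 : U} (hb1 : b1 ∈ D) (hb10 : b1 ∉ N0) (hb2 : b2 ∈ D)
    (hb20 : b2 ∉ N0) : ∃ a ∈ D, a ∉ N0 ∧ Ar L N0 D a b1 ∧ Ar L N0 D a b2 := by
  obtain ⟨c1, hc1, c2, hc2, he⟩ := hH.pairs b1 hb1 hb10 b2 hb2 hb20
  have e1 : Eqv L (fun _ => b1) (fun _ => c1) := he.subst fun _ => 0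
  have e2 : Eqv L (fun _ => b2) (fun _ => c2) := he.subst fun _ => 1
  have h1D : c1 ∈ D := hC.eqvD e1 hb1
  have h2D : c2 ∈ D := hC.eqvD e2 hb2
  have h10 : c1 ∉ N0 := fun h => hb10 (hC.eqvA e1.symm ⟨h1D, h⟩).2
  have h20 : c2 ∉ N0 := fun h => hb20 (hC.eqvA e2.symm ⟨h2D, h⟩).2
  obtain ⟨φ1, hφ1, hφ1b, -⟩ := hH.isolSI hS hC h1D h10 hc1
  obtain ⟨φ2, hφ2, hφ2b, -⟩ := hH.isolSI hS hC h2D h20 hc2
  obtain ⟨a, ha⟩ := hS.bf he.symm g
  have e3 : Eqv L (fun _ => g) (fun _ => a) := ha.subst fun _ => 0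
  have haD : a ∈ D := hC.eqvD e3 hH.gD
  have ha0 : a ∉ N0 := fun h => hH.g0 (hC.eqvA e3.symm ⟨haD, h⟩).2
  refine ⟨a, haD, ha0, ⟨φ1, hφ1, ?_⟩, ⟨φ2, hφ2, ?_⟩⟩
  · exact (ha _ (hφ1.d2.at 1 0)).1 hφ1b
  · exact (ha _ (hφ2.d2.at 2 0)).1 hφ2b

lemma Hy.dirfin [Countable (L.Formula ℕ)] (hS : Sat L U) (hC : Cx L N0 D)
    (hH : Hy L N0 D N g) {ι : Type} (s : Finset ι) (f : ι → U) (hs : ∀ i ∈ s, f i ∈ D ∧ f i ∉ N0) :
    ∃ a ∈ D, a ∉ N0 ∧ ∀ i ∈ s, Ar L N0 D a (f i) := by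
  classical
  induction s using Finset.induction_on with
  | empty => exact ⟨g, hH.gD, hH.g0, by simp⟩
  | insert i s _ ih =>
    obtain ⟨a1, h1, h2, h3⟩ := ih fun j hj => hs j (Finset.mem_insert_of_mem hj)
    obtain ⟨h4, h5⟩ := hs i (Finset.mem_insert_self _ _)
    obtain ⟨a, ha, ha0, har1, har2⟩ := hH.dir2 hS hC h4 h5 h1 h2
    refine ⟨a, ha, ha0, fun j hj => ?_⟩
    rcases Finset.mem_insert.1 hj with rfl | hj
    · exact har1
    · exact har2.trans (h3 j hj)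

/-- infinite algebraic-definable sets are met by one formula, uniformly -/
lemma Hy.dprime [Countable (L.Formula ℕ)] (hS : Sat L U) (hC : Cx L N0 D)
    (hH : Hy L N0 D N g) {P : (ℕ → U) → Prop} (hP : Dfn L P) {l : ℕ → U}
    (hl : ∀ i, l i ∈ D ∩ N0) (hinf : {x | x ∈ D ∩ N0 ∧ P (cons x l)}.Infinite) :
    ∃ R, SI L N0 D R ∧ ∀ a ∈ D, a ∉ N0 → ∀ l', Eqv L l l' → ∃ x, R x a ∧ P (cons x l') := by
  classical
  obtain ⟨K, hK⟩ := hP.supp
  have hΩ := orbit_fin (fun i => hC.alg _ (hl i)) K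
  have h1 : ∀ t ∈ hΩ.toFinset, ∃ b, (b ∈ D ∧ b ∉ N0) ∧ P (cons b t) := by
    intro t ht
    have ht' := hΩ.mem_toFinset.1 ht
    have h2 : {x | x ∈ D ∩ N0 ∧ P (cons x t)}.Infinite := by
      intro hf
      apply hinf
      have h3 := hC.fin_transport hS hP ht'.symm hf
      simpa only [← supp_cons hK] using h3
    obtain ⟨b, hb, hb0, hPb⟩ := hC.exists_gen hS hP h2
    exact ⟨b, ⟨hb, hb0⟩, hPb⟩
  have : Nonempty U := ⟨g⟩
  choose! b hb hPb using h1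
  obtain ⟨a, ha, ha0, har⟩ := hH.dirfin hS hC hΩ.toFinset b hb
  choose! R hR hRb using har
  refine ⟨_, SI.bex hΩ.toFinset hR, fun a' ha' ha0' l' hl' => ?_⟩
  obtain ⟨l'', hl''⟩ := hS.bfs (hC.types ha' ha0' ha ha0) l'
  have h2 : Eqv L l' l'' := by
    have := hl''.subst (fun n => 2 * n)
    rwa [mix_even, mix_even] at this
  have h3 : trn K l'' ∈ hΩ.toFinset := by
    rw [hΩ.mem_toFinset]
    exact (hl'.trans h2).subst (fun i => min i K)
  refine meet_transfer (SI.bex hΩ.toFinset hR).d2 hP hl''.symm ⟨b (trn K l''), ?_, ?_⟩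
  · exact ⟨trn K l'', h3, hRb _ h3⟩
  · rw [supp_cons hK]
    exact hPb _ h3

/-- the diagonal argument for types over `g` -/
lemma Cx.g1 [Countable (L.Formula ℕ)] (hS : Sat L U) (hsm : Small L U) (hC : Cx L N0 D) (g : U) :
    ∃ θ0 : U → Prop, DP L (D ∩ N0) θ0 ∧ {x | x ∈ D ∩ N0 ∧ θ0 x}.Infinite ∧ ∃ x0,
      ∀ θ : U → Prop, DP L (D ∩ N0) θ → (∀ x, θ x → θ0 x) → {x | x ∈ D ∩ N0 ∧ θ x}.Infinite →
        ∃ x, θ x ∧ Eqv L (cons x0 (fun _ => g)) (cons x (fun _ => g)) := by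
  classical
  by_contra hcon
  push Not at hcon
  have hcA : (D ∩ N0).Countable :=
    (alg_countable (L := L) (U := U)).mono fun x hx => hC.alg x hx
  obtain ⟨α, hα⟩ := hcA.exists_eq_range hC.inf.nonempty
  have hidx : ∀ a ∈ D ∩ N0, ∃ i, α i = a := by
    intro a ha
    rw [hα] at ha
    exact ha
  obtain ⟨e, he⟩ := hsm 1
  have step : ∀ θ0 : U → Prop, DP L (D ∩ N0) θ0 ∧ {x | x ∈ D ∩ N0 ∧ θ0 x}.Infinite → ∀ k : ℕ,
      ∃ θ : U → Prop, (DP L (D ∩ N0) θ ∧ {x | x ∈ D ∩ N0 ∧ θ x}.Infinite) ∧ (∀ x, θ x → θ0 x) ∧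
        ∀ x, θ x → ¬ Eqv L (cons x (fun _ => g)) (e k) := by
    rintro θ0 ⟨h1, h2⟩ k
    by_cases h : ∃ x0, Eqv L (cons x0 (fun _ => g)) (e k)
    · obtain ⟨x0, hx0⟩ := h
      obtain ⟨θ, h3, h4, h5, h6⟩ := hcon θ0 h1 h2 x0
      exact ⟨θ, ⟨h3, h5⟩, h4, fun x hx h7 => h6 x hx (hx0.trans h7.symm)⟩
    · push Not at h
      exact ⟨θ0, ⟨h1, h2⟩, fun x hx => hx, fun x _ => h x⟩
  choose! F hF1 hF2 hF3 using step
  have hne : (D ∩ N0).Nonempty := hC.inf.nonempty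
  let Θ : ℕ → U → Prop := fun k => Nat.rec (fun x => x = x) (fun k θ => F θ k) k
  have hΘ0 : DP L (D ∩ N0) (Θ 0) ∧ {x | x ∈ D ∩ N0 ∧ Θ 0 x}.Infinite := by
    refine ⟨(DP.of0 hne (P := fun _ => True) Dfn.tr).congr fun x => by simp [Θ], ?_⟩
    simpa [Θ] using hC.inf
  have hΘ : ∀ k, DP L (D ∩ N0) (Θ k) ∧ {x | x ∈ D ∩ N0 ∧ Θ k x}.Infinite := by
    intro k
    induction k with
    | zero => exact hΘ0
    | succ k ih => exact hF1 _ ih k
  have hmono : ∀ i j, i ≤ j → ∀ x, Θ j x → Θ i x := by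
    intro i j hij
    induction j, hij using Nat.le_induction with
    | base => exact fun v hv => hv
    | succ j hj ih => exact fun v hv => ih v (hF2 _ (hΘ j) _ v hv)
  have hrep : ∀ k, ∃ P, Dfn L P ∧ ∀ x, Θ k x ↔ P (cons x α) := by
    intro k
    obtain ⟨z, hz, P, hP, h⟩ := (hΘ k).1
    choose f hf using fun i => hidx _ (hz i)
    refine ⟨_, hP.subst (lft f), fun x => ?_⟩
    rw [cons_comp_lft, h]
    have : α ∘ f = z := funext hf
    rw [this]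
  choose P hP hPΘ using hrep
  obtain ⟨x, hx⟩ := hS α P hP (fun n => by
    obtain ⟨x, -, hx⟩ := (hΘ n).2.nonempty
    exact ⟨x, fun i hi => (hPΘ i x).1 (hmono i n hi.le x hx)⟩)
  have hw : Wd 1 (cons x (fun _ : ℕ => g)) := Wd.cons (n := 0) (w := fun _ => g)
    (fun i _ => rfl) x
  obtain ⟨k, hk⟩ := he _ hw
  exact hF3 _ (hΘ k) k x ((hPΘ (k + 1) x).2 (hx (k + 1))) hk

/-- all generic elements of `θ0` have this property -/
lemma Cx.c1' [Countable (L.Formula ℕ)] (hS : Sat L U) (hC : Cx L N0 D) {g : U}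
    {θ0 : U → Prop} (hθ0 : DP L (D ∩ N0) θ0) {x0 : U}
    (h0 : ∀ θ : U → Prop, DP L (D ∩ N0) θ → (∀ x, θ x → θ0 x) →
      {x | x ∈ D ∩ N0 ∧ θ x}.Infinite → ∃ x, θ x ∧ Eqv L (cons x0 (fun _ => g)) (cons x (fun _ => g)))
    {x1 : U} (hx1 : x1 ∈ D) (hx10 : x1 ∉ N0) (hθx1 : θ0 x1) (θ : U → Prop)
    (hθ : DP L (D ∩ N0) θ) (hsub : ∀ x, θ x → θ0 x) (hinf : {x | x ∈ D ∩ N0 ∧ θ x}.Infinite) :
    ∃ x, θ x ∧ Eqv L (cons x1 (fun _ => g)) (cons x (fun _ => g)) := by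
  classical
  have hne : (D ∩ N0).Nonempty := hC.inf.nonempty
  obtain ⟨K, l, P, hl, hlA, hP, hPθ⟩ := hθ.wd
  have hfin := orbit_fin (fun i => hC.alg _ (hlA i)) K
  rw [trn_of_wd hl] at hfin
  let s := hfin.toFinset.filter (fun t => Eqv L (mix l (fun _ => g)) (mix t (fun _ => g)))
  have hs : ∀ t ∈ s, ∀ i, t i ∈ D ∩ N0 := by
    intro t ht i
    have h1 := hfin.mem_toFinset.1 (Finset.mem_filter.1 ht).1
    exact hC.eqvA (h1.subst fun _ => i) (hlA i)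
  have hU : DP L (D ∩ N0) (fun x => ∃ t ∈ s, P (cons x t)) :=
    DP.bex hne s fun t ht => DP.of hP (hs t ht)
  have hx : ∃ t ∈ s, P (cons x1 t) := by
    by_contra hcon
    have h1 : DP L (D ∩ N0) (fun x => θ0 x ∧ ¬ ∃ t ∈ s, P (cons x t)) := hθ0.and hU.not
    have h2 := hC.gen hx1 hx10 (DP.mono inter_subset_right h1) ⟨hθx1, hcon⟩
    obtain ⟨x, ⟨hx2, hx3⟩, hx4⟩ := h0 _ h1 (fun x hx => hx.1) h2
    obtain ⟨x', hx5, hx6⟩ := h0 θ hθ hsub hinf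
    obtain ⟨t, ht⟩ := hS.bfs (hx6.symm.trans hx4) l
    refine hx3 ⟨t, ?_, ?_⟩
    · refine Finset.mem_filter.2 ⟨hfin.mem_toFinset.2 ?_, ?_⟩
      · have := ht.subst (fun n => 2 * n)
        rwa [mix_even, mix_even] at this
      · have := ht.subst (fun n => if n % 2 = 0 then n else n + 2)
        have e1 : ∀ (q : ℕ → U) (y : U), mix q (cons y (fun _ => g)) ∘
            (fun n => if n % 2 = 0 then n else n + 2) = mix q (fun _ => g) := by
          intro q y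
          funext n
          by_cases hn : n % 2 = 0
          · simp [mix, hn]
          · have h3 : ¬ (n + 2) % 2 = 0 := by omega
            have h4 : (n + 2) / 2 = n / 2 + 1 := by omega
            simp only [mix, Function.comp_apply, if_neg hn, if_neg h3, h4, cons_succ]
        rwa [e1, e1] at this
    · have := ht.subst (fun n : ℕ => (Nat.casesOn n 1 (fun k => 2 * k) : ℕ))
      have e1 : ∀ (q : ℕ → U) (y : U), mix q (cons y (fun _ => g)) ∘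
          (fun n : ℕ => (Nat.casesOn n 1 (fun k => 2 * k) : ℕ)) = cons y q := by
        intro q y
        funext n
        cases n with
        | zero => simp [mix]
        | succ n => simp [mix]
      rw [e1, e1] at this
      exact (this P hP).1 ((hPθ x').1 hx5)
  obtain ⟨t, ht, hPt⟩ := hx
  obtain ⟨x, hx⟩ := hS.bf (Finset.mem_filter.1 ht).2.symm x1
  refine ⟨x, (hPθ x).2 ?_, ?_⟩
  · have := hx.subst (lft fun n => 2 * n)
    rw [cons_comp_lft, cons_comp_lft, mix_even, mix_even] at this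
    exact (this P hP).1 hPt
  · have := hx.subst (lft fun n => 2 * n + 1)
    rwa [cons_comp_lft, cons_comp_lft, mix_odd, mix_odd] at this

end Run7.h353
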