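import Pool.Agent.Run7.h353.MA2

set_option autoImplicit false

/-!
# A semi-isolating relation that meets all infinite sets definable over algebraic elements
-/

open FirstOrder FirstOrder.Language Set

namespace Run7.h353

variable {L : FirstOrder.Language.{0, 0}} {U : Type} [L.Structure U] {N0 D N : Set U} {g : U}

omit [L.Structure U] in
lemma mix_one (l : ℕ → U) (a : U) : mix l (fun _ => a) 1 = a := by simp [mix]

lemma Hy.full [Countable (L.Formula ℕ)] (hS : Sat L U) (hsm : Small L U) (hC : Cx L N0 D)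
    (hH : Hy L N0 D N g) : ∃ R, SI L N0 D R ∧ ∀ a ∈ D, a ∉ N0 → ∀ θ : U → Prop,
      DP L (D ∩ N0) θ → {x | x ∈ D ∩ N0 ∧ θ x}.Infinite → ∃ x, R x a ∧ θ x := by
  classical
  obtain ⟨θ0, hθ0, hθ0i, x0, hx0⟩ := hC.g1 hS hsm g
  obtain ⟨K, l0, P0, hl0, hl0A, hP0, hP0θ⟩ := hθ0.wd
  have hP0i : {x | x ∈ D ∩ N0 ∧ P0 (cons x l0)}.Infinite := by
    simpa only [← hP0θ] using hθ0i
  obtain ⟨R1, hR1, hR1'⟩ := hH.dprime hS hC hP0 hl0A hP0i
  obtain ⟨x1, hx1R, hx1P⟩ := hR1' g hH.gD hH.g0 l0 (Eqv.refl _)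
  have hx1D : x1 ∈ D := hR1.sub _ _ hx1R
  have hx10 : x1 ∉ N0 := hR1.si g hH.gD hH.g0 x1 hx1R
  obtain ⟨Z, hZ, hZl, hZe⟩ := isol_over (fun i => hC.alg _ (hl0A i)) K (fun _ => g)
  -- the formula `Z` with the parameters `l` and the variable `y`
  let h : ℕ → ℕ := fun n => if n % 2 = 0 then n / 2 + 1 else 0
  have hZZ : Dfn L (fun v : ℕ → U => Z (v ∘ h)) := hZ.subst h
  have hh : ∀ (y : U) (l : ℕ → U), cons y l ∘ h = mix l (fun _ => y) := by
    intro y l
    funext n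
    by_cases hn : n % 2 = 0
    · simp [h, mix, hn]
    · simp [h, mix, hn]
  have hZi : {y | y ∈ D ∩ N0 ∧ (fun v : ℕ → U => Z (v ∘ h)) (cons y l0)}.Infinite := by
    refine hC.gen hH.gD hH.g0 (DP.of hZZ fun i => (hl0A i).2) ?_
    simp only [hh]
    exact hZl
  obtain ⟨R2, hR2, hR2'⟩ := hH.dprime hS hC hZZ hl0A hZi
  refine ⟨_, hR2.comp hR1, fun a ha ha0 θ hθ hθi => ?_⟩
  obtain ⟨K', m, P, -, hmA, hP, hPθ⟩ := hθ.wd
  -- a conjugate `l` of `l0` such that the two sets meet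
  have hPi : {x | x ∈ D ∩ N0 ∧ P (cons x m)}.Infinite := by
    simpa only [← hPθ] using hθi
  obtain ⟨c, hc, hc0, hPc⟩ := hC.exists_gen hS hP hPi
  obtain ⟨l, hlA, hle, hP0c⟩ := hC.conj hS hc hc0 hP0 hl0A hP0i
  let Pc : (ℕ → U) → Prop := fun v => P0 (v ∘ lft fun n => 2 * n) ∧ P (v ∘ lft fun n => 2 * n + 1)
  have hPc' : Dfn L Pc := (hP0.subst _).and (hP.subst _)
  have hPcc : ∀ x l m, Pc (cons x (mix l m)) ↔ P0 (cons x l) ∧ P (cons x m) := by
    intro x l m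
    simp only [Pc, cons_mix_even, cons_mix_odd]
  have hi1 : {x | x ∈ D ∩ N0 ∧ Pc (cons x (mix l m))}.Infinite :=
    hC.gen hc hc0 (DP.of hPc' fun i => mix_mem (fun i => (hlA i).2) (fun i => (hmA i).2) i)
      ((hPcc _ _ _).2 ⟨hP0c, hPc⟩)
  obtain ⟨y, hyR, hyZ⟩ := hR2' a ha ha0 l hle
  rw [hh] at hyZ
  have hyD : y ∈ D := hR2.sub _ _ hyR
  have hy0 : y ∉ N0 := hR2.si a ha ha0 y hyR
  have hlK : Wd K l := hl0.eqv hle
  -- first transfer
  obtain ⟨q, hq⟩ := hS.bfs (hC.types hyD hy0 hH.gD hH.g0) (mix l m)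
  let l2 : ℕ → U := fun n => q (2 * n)
  let m2 : ℕ → U := fun n => q (2 * n + 1)
  have hqe : mix l2 m2 = q := by
    funext n
    by_cases hn : n % 2 = 0
    · simp only [mix, l2, if_pos hn]; congr 1; omega
    · simp only [mix, m2, if_neg hn]; congr 1; omega
  rw [← hqe] at hq
  have hlm : Eqv L (mix l m) (mix l2 m2) := by
    have := hq.subst (fun n => 2 * n)
    rwa [mix_even, mix_even] at this
  have hll2 : Eqv L l l2 := by
    have := hlm.subst (fun n => 2 * n)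
    rwa [mix_even, mix_even] at this
  have hl2K : Wd K l2 := hlK.eqv hll2
  have eA : ∀ (l m w : ℕ → U), mix (mix l m) w ∘ (fun n => if n % 2 = 0 then 2 * n else n) =
      mix l w := by
    intro l m w
    funext n
    by_cases hn : n % 2 = 0
    · have h1 : (2 * n) % 2 = 0 := by omega
      have h2 : 2 * n / 2 % 2 = 0 := by omega
      have h3 : 2 * n / 2 / 2 = n / 2 := by omega
      simp only [mix, Function.comp_apply, if_pos hn, if_pos h1, if_pos h2, h3]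
    · simp only [mix, Function.comp_apply, if_neg hn]
  have hyZ2 : Z (mix l2 (fun _ => g)) := by
    have := hq.subst (fun n => if n % 2 = 0 then 2 * n else n)
    rw [eA, eA] at this
    exact (this Z hZ).1 hyZ
  have hE := hZe l2 hyZ2
  rw [trn_of_wd hl0, trn_of_wd hl2K] at hE
  -- second transfer
  obtain ⟨m3, hm3⟩ := hS.bfs hE.symm m2
  have eB : ∀ (l m w : ℕ → U), mix m (mix l w) ∘ (fun n => if n % 2 = 0 then
      (if n / 2 % 2 = 0 then 4 * (n / 2 / 2) + 1 else 2 * (n / 2 / 2)) else 4 * (n / 2) + 3) =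
      mix (mix l m) w := by
    intro l m w
    funext n
    by_cases hn : n % 2 = 0
    · by_cases hn2 : n / 2 % 2 = 0
      · have h1 : ¬ (4 * (n / 2 / 2) + 1) % 2 = 0 := by omega
        have h2 : (4 * (n / 2 / 2) + 1) / 2 % 2 = 0 := by omega
        have h3 : (4 * (n / 2 / 2) + 1) / 2 / 2 = n / 2 / 2 := by omega
        simp only [mix, Function.comp_apply, if_pos hn, if_pos hn2, if_neg h1, if_pos h2, h3]
      · have h1 : (2 * (n / 2 / 2)) % 2 = 0 := by omega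
        have h3 : (2 * (n / 2 / 2)) / 2 = n / 2 / 2 := by omega
        simp only [mix, Function.comp_apply, if_pos hn, if_neg hn2, if_pos h1, h3]
    · have h1 : ¬ (4 * (n / 2) + 3) % 2 = 0 := by omega
      have h2 : ¬ (4 * (n / 2) + 3) / 2 % 2 = 0 := by omega
      have h3 : (4 * (n / 2) + 3) / 2 / 2 = n / 2 := by omega
      simp only [mix, Function.comp_apply, if_neg hn, if_neg h1, if_neg h2, h3]
  have hE3 : Eqv L (mix (mix l2 m2) (fun _ => g)) (mix (mix l0 m3) (fun _ => g)) := by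
    have := hm3.subst (fun n => if n % 2 = 0 then
      (if n / 2 % 2 = 0 then 4 * (n / 2 / 2) + 1 else 2 * (n / 2 / 2)) else 4 * (n / 2) + 3)
    rwa [eB, eB] at this
  have hE4 : Eqv L (mix (mix l m) (fun _ => y)) (mix (mix l0 m3) (fun _ => g)) := hq.trans hE3
  have hE5 : Eqv L (mix l m) (mix l0 m3) := by
    have := hE4.subst (fun n => 2 * n)
    rwa [mix_even, mix_even] at this
  have hm3A : ∀ i, m3 i ∈ D ∩ N0 := by
    intro i
    refine hC.eqvA (x := m i) ?_ (hmA i)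
    have := (hE5.subst (fun n => 2 * n + 1)).subst (fun _ => i)
    rw [mix_odd, mix_odd] at this
    exact this
  have hi3 : {x | x ∈ D ∩ N0 ∧ Pc (cons x (mix l0 m3))}.Infinite := by
    intro hf
    exact hi1 (hC.fin_transport hS hPc' hE5.symm hf)
  obtain ⟨x3, hx3, hx3e⟩ := hC.c1' hS hθ0 hx0 hx1D hx10 ((hP0θ _).2 hx1P)
    (fun x => Pc (cons x (mix l0 m3))) (DP.of hPc' fun i => mix_mem hl0A hm3A i)
    (fun x hx => (hP0θ _).2 ((hPcc _ _ _).1 hx).1) hi3
  obtain ⟨x, hxR, hxP⟩ := meet_transfer hR1.d2 hPc' hE4.symm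
    ⟨x3, (hR1.d2.iff_of hx3e).1 hx1R, hx3⟩
  exact ⟨x, ⟨y, hyR, hxR⟩, (hPθ _).2 ((hPcc _ _ _).1 hxP).2⟩

end Run7.h353
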