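import Pool.Agent.Run7.h353.MA3

set_option autoImplicit false

/-!
# The atomic model over one generic element omits a type of a pair of generic elements
-/

open FirstOrder FirstOrder.Language Set

namespace Run7.h353

variable {L : FirstOrder.Language.{0, 0}} {U : Type} [L.Structure U] {N0 D N : Set U} {g : U}

/-- minimal elements for a definable preorder with finite lower cones -/
lemma Cx.exists_min (hC : Cx L N0 D) {S : U → U → Prop} (hSI : SI L N0 D S)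
    (hSf : ∀ z ∈ D ∩ N0, {x | x ∈ D ∩ N0 ∧ S z x}.Finite) {φ : U → U → Prop} (hφ : SI L N0 D φ)
    {y : U} (hy : y ∈ D ∩ N0) (hx : ∃ x, φ x y ∧ ∃ z, S z x) :
    ∃ x, (φ x y ∧ ∃ z, S z x) ∧ ∀ x', φ x' y → (∃ z, S z x') →
      ¬ ((∀ z, S z x → S z x') ∧ ¬ ∀ z, S z x' → S z x) := by
  classical
  have d1 : D2 L (fun x x' => ∀ z, S z x' → S z x) := by
    refine (Dfn.all (P := fun u => S (u 0) (u 2) → S (u 0) (u 1)) ?_).congr fun v => Iff.rfl
    exact (hSI.d2.at 0 2).imp (hSI.d2.at 0 1)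
  have d2 : D2 L (fun x x' => ∀ z, S z x → S z x') := by
    refine (Dfn.all (P := fun u => S (u 0) (u 1) → S (u 0) (u 2)) ?_).congr fun v => Iff.rfl
    exact (hSI.d2.at 0 1).imp (hSI.d2.at 0 2)
  have dp1 : ∀ {R : U → U → Prop}, D2 L R → ∀ w ∈ N0, DP L N0 (fun x => R x w) := by
    intro R hR w hw
    exact ⟨fun _ => w, fun _ => hw, _, hR, fun x => Iff.rfl⟩
  have dz : DP L N0 (fun x => ∃ z, S z x) := by
    refine ⟨fun _ => y, fun _ => hy.2, _, Dfn.ex (P := fun u => S (u 0) (u 1)) (hSI.d2.at 0 1),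
      fun x => Iff.rfl⟩
  obtain ⟨x1, hx1N, hx1φ, hx1z⟩ := hC.tv.dp ((dp1 hφ.d2 y hy.2).and dz) hx
  have hx1 : x1 ∈ D ∩ N0 := ⟨hφ.sub _ _ hx1φ, hx1N⟩
  obtain ⟨z0, hz0N, hz0⟩ := hC.tv.dp (dp1 hSI.d2 x1 hx1N) hx1z
  have hz0A : z0 ∈ D ∩ N0 := ⟨hSI.sub _ _ hz0, hz0N⟩
  have hF : {x | x ∈ D ∩ N0 ∧ (φ x y ∧ ∃ z, S z x) ∧ ∀ z, S z x1 → S z x}.Finite :=
    (hSf z0 hz0A).subset fun x hx => ⟨hx.1, hx.2.2 z0 hz0⟩
  let lt : U → U → Prop := fun x x' => (∀ z, S z x' → S z x) ∧ ¬ ∀ z, S z x → S z x'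
  obtain ⟨x2, hx2, hx2m⟩ := Finset.exists_min_image hF.toFinset
    (fun x => (hF.toFinset.filter (fun x' => lt x' x)).card)
    ⟨x1, hF.mem_toFinset.2 ⟨hx1, ⟨hx1φ, hx1z⟩, fun z hz => hz⟩⟩
  have hx2' := hF.mem_toFinset.1 hx2
  have hmin : ∀ x' ∈ hF.toFinset, ¬ lt x' x2 := by
    intro x' hx' hlt
    have h1 := hx2m x' hx'
    have h2 : hF.toFinset.filter (fun w => lt w x') ⊂ hF.toFinset.filter (fun w => lt w x2) := by
      refine Finset.ssubset_iff_subset_ne.2 ⟨fun w hw => ?_, fun h => ?_⟩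
      · obtain ⟨hw1, hw2, hw3⟩ := Finset.mem_filter.1 hw
        exact Finset.mem_filter.2 ⟨hw1, fun z hz => hw2 z (hlt.1 z hz),
          fun h => hlt.2 fun z hz => h z (hw2 z hz)⟩
      · have h3 : x' ∈ hF.toFinset.filter (fun w => lt w x') := by
          rw [h]
          exact Finset.mem_filter.2 ⟨hx', hlt⟩
        exact (Finset.mem_filter.1 h3).2.2 (Finset.mem_filter.1 h3).2.1
    exact absurd (Finset.card_lt_card h2) (not_lt.2 h1)
  refine ⟨x2, hx2'.2.1, fun x' hφ' hz' hlt => ?_⟩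
  have hdp : DP L N0 (fun x => φ x y ∧ (∃ z, S z x) ∧ (∀ z, S z x2 → S z x) ∧
      ¬ ∀ z, S z x → S z x2) :=
    (dp1 hφ.d2 y hy.2).and (dz.and ((dp1 d1 x2 hx2'.1.2).and (dp1 d2 x2 hx2'.1.2).not))
  obtain ⟨x3, hx3N, hx3φ, hx3z, hx3a, hx3b⟩ := hC.tv.dp hdp ⟨x', hφ', hz', hlt.1, hlt.2⟩
  refine hmin x3 (hF.mem_toFinset.2 ⟨⟨hφ.sub _ _ hx3φ, hx3N⟩, ⟨hx3φ, hx3z⟩, fun z hz => ?_⟩)
    ⟨hx3a, hx3b⟩
  exact hx3a z (hx2'.2.2 z hz)

/-- the atomic model over a generic element does not realise all types of pairs -/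
theorem Hy.false [Countable (L.Formula ℕ)] (hS : Sat L U) (hsm : Small L U) (hC : Cx L N0 D)
    (hH : Hy L N0 D N g) : False := by
  classical
  obtain ⟨R', hR', hfull⟩ := hH.full hS hsm hC
  have hne : (D ∩ N0).Nonempty := hC.inf.nonempty
  -- a generic pair in `N` whose first element is finitely satisfiable over the second
  obtain ⟨b1, hb1, hb10, hb1n⟩ := exists_not_ar hS hC hH.gD hH.g0
  obtain ⟨c1, hc1, b, hbN, he⟩ := hH.pairs b1 hb1 hb10 g hH.gD hH.g0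
  have e1 : Eqv L (fun _ => b1) (fun _ => c1) := he.subst fun _ => 0
  have e2 : Eqv L (fun _ => g) (fun _ => b) := he.subst fun _ => 1
  have h1D : c1 ∈ D := hC.eqvD e1 hb1
  have hb : b ∈ D := hC.eqvD e2 hH.gD
  have h10 : c1 ∉ N0 := fun h => hb10 (hC.eqvA e1.symm ⟨h1D, h⟩).2
  have hb0 : b ∉ N0 := fun h => hH.g0 (hC.eqvA e2.symm ⟨hb, h⟩).2
  have hn1 : ¬ Ar L N0 D b c1 := fun h => hb1n (h.eqv he.symm)
  obtain ⟨φ1, hφ1, hφ1b, -⟩ := hH.isolSI hS hC h1D h10 hc1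
  obtain ⟨φ, hφ, hφb, hφe⟩ := hH.isolSI hS hC hb hb0 hbN
  have hn : ¬ Ar L N0 D b g := fun h => hn1 (h.trans ⟨φ1, hφ1, hφ1b⟩)
  -- claim (B)
  have hB : ∀ θ : U → Prop, DP L (D ∩ N0) θ → {x | x ∈ D ∩ N0 ∧ θ x}.Infinite →
      ∃ y ∈ D ∩ N0, θ y ∧ ∃ b' ∈ D, b' ∉ N0 ∧ φ b' y := by
    intro θ hθ hθi
    obtain ⟨K, l, P, hl, hlA, hP, hPθ⟩ := hθ.wd
    have hPi : {x | x ∈ D ∩ N0 ∧ P (cons x l)}.Infinite := by
      simpa only [← hPθ] using hθi
    obtain ⟨a', ha', ha0', hPa'⟩ := hC.exists_gen hS hP hPi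
    obtain ⟨b', hb'⟩ := hS.bf (hC.types hH.gD hH.g0 ha' ha0') b
    have e3 : Eqv L (fun _ => b) (fun _ => b') := hb'.subst fun _ => 0
    have hbD' : b' ∈ D := hC.eqvD e3 hb
    have hb0' : b' ∉ N0 := fun h => hb0 (hC.eqvA e3.symm ⟨hbD', h⟩).2
    have hφ' : φ b' a' := (hφ.d2.iff_of hb').1 hφb
    have esw : Eqv L (cons a' (fun _ => b')) (cons g (fun _ => b)) := by
      have := (hb'.subst (fun n : ℕ => (Nat.casesOn n 1 (fun _ => 0) : ℕ))).symm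
      have e4 : ∀ x y : U, cons x (fun _ => y) ∘ (fun n : ℕ => (Nat.casesOn n 1 (fun _ => 0) : ℕ)) =
          cons y (fun _ => x) := by
        intro x y
        funext n
        cases n <;> rfl
      rwa [e4, e4] at this
    have hn' : ¬ Ar L N0 D b' a' := fun h => hn (h.eqv esw)
    obtain ⟨Z, hZ, hZl, hZe⟩ := isol_over (fun i => hC.alg _ (hlA i)) K (fun _ => b')
    have hψ : D2 L (fun x y => exm K (fun u => Z (u ∘ fun n => if n % 2 = 0 then n else 3) ∧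
        φ (u 3) (u 1) ∧ P (u ∘ fun n => (Nat.casesOn n 1 (fun k => 2 * k) : ℕ)))
        (cons x (fun _ => y))) :=
      D2.of (Dfn.exm ((hZ.subst _).and ((hφ.d2.at 3 1).and (hP.subst _))) K)
    have eZ : ∀ (l : ℕ → U) (x y : U), mix l (cons x (fun _ => y)) ∘
        (fun n => if n % 2 = 0 then n else 3) = mix l (fun _ => y) := by
      intro l x y
      funext n
      by_cases hn : n % 2 = 0
      · simp [mix, hn]
      · have h3 : cons x (fun _ => y) 1 = y := rfl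
        simp [mix, hn, h3]
    have eP : ∀ (l : ℕ → U) (x y : U), mix l (cons x (fun _ => y)) ∘
        (fun n => (Nat.casesOn n 1 (fun k => 2 * k) : ℕ)) = cons x l := by
      intro l x y
      funext n
      cases n with
      | zero => simp [mix]
      | succ n => simp [mix]
    have e5 : ∀ (l : ℕ → U) (x y : U), mix l (cons x (fun _ => y)) 3 = y ∧
        mix l (cons x (fun _ => y)) 1 = x := by
      intro l x y
      have h3 : cons x (fun _ => y) 1 = y := rfl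
      constructor
      · simp [mix, h3]
      · simp [mix]
    obtain ⟨x, hx, l', hl', hx1, hx2, hx3⟩ := not_ar_fs hS hC hbD' hb0' ha' hn' hψ
      ⟨l, hl, by rw [eZ]; exact hZl, by rw [(e5 l a' b').1, (e5 l a' b').2]; exact hφ',
        by rw [eP]; exact hPa'⟩
    rw [eZ] at hx1
    rw [(e5 l' x b').1, (e5 l' x b').2] at hx2
    rw [eP] at hx3
    have hE := hZe l' hx1
    rw [trn_of_wd hl, trn_of_wd hl'] at hE
    obtain ⟨y, hy⟩ := hS.bf hE.symm x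
    have e6 : Eqv L (fun _ => x) (fun _ => y) := hy.subst fun _ => 0
    refine ⟨y, hC.eqvA e6 hx, (hPθ _).2 ?_, b', hbD', hb0', ?_⟩
    · have := hy.subst (lft fun n => 2 * n)
      rw [cons_mix_even, cons_mix_even] at this
      exact (this P hP).1 hx3
    · have := hy.subst (lft fun n => 2 * n + 1)
      rw [cons_mix_odd, cons_mix_odd] at this
      exact (this _ (hφ.d2.at 1 0)).1 hx2
  -- the composed relation
  let Rp : U → U → Prop := fun x y => R' x y ∨ φ x y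
  have hRp : SI L N0 D Rp := hR'.or hφ
  let S : U → U → Prop := fun x y => ∃ z, Rp z y ∧ Rp x z
  have hSI : SI L N0 D S := hRp.comp hRp
  have hDdp : DP L (D ∩ N0) (fun x => x ∈ D) :=
    (DP.of0 hne hC.dD).congr fun x => Iff.rfl
  have hDi : {x | x ∈ D ∩ N0 ∧ x ∈ D}.Infinite := hC.inf.mono fun x hx => ⟨hx, hx.1⟩
  have hdD : ∀ a ∈ D, a ∉ N0 → ∃ z, S z a := by
    intro a ha ha0
    obtain ⟨y, hy, -⟩ := hfull a ha ha0 _ hDdp hDi
    have hyD := hR'.sub _ _ hy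
    have hy0 := hR'.si a ha ha0 y hy
    obtain ⟨x, hx, -⟩ := hfull y hyD hy0 _ hDdp hDi
    exact ⟨x, y, Or.inl hy, Or.inl hx⟩
  have hSf : ∀ z ∈ D ∩ N0, {x | x ∈ D ∩ N0 ∧ S z x}.Finite := by
    intro z hz
    by_contra hinf
    obtain ⟨x, hx, hx0, hSx⟩ := hC.exists_gen hS (P := fun v => S (v 1) (v 0))
      (hSI.d2.at 1 0) (m := fun _ => z) hinf
    exact hSI.si x hx hx0 z hSx hz.2
  -- minimal elements exist over all elements of `D`
  let lt : U → U → Prop := fun x' x => (∀ z, S z x → S z x') ∧ ¬ ∀ z, S z x' → S z x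
  have dlt : D2 L lt := by
    have d1 : D2 L (fun x' x => ∀ z, S z x → S z x') := by
      refine (Dfn.all (P := fun u => S (u 0) (u 2) → S (u 0) (u 1)) ?_).congr fun v => Iff.rfl
      exact (hSI.d2.at 0 2).imp (hSI.d2.at 0 1)
    have d2 : D2 L (fun x' x => ∀ z, S z x' → S z x) := by
      refine (Dfn.all (P := fun u => S (u 0) (u 1) → S (u 0) (u 2)) ?_).congr fun v => Iff.rfl
      exact (hSI.d2.at 0 1).imp (hSI.d2.at 0 2)
    exact Dfn.and d1 d2.not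
  let Mi : U → U → Prop := fun x y => ∀ x', φ x' y → (∃ z, S z x') → ¬ lt x' x
  have dMi : D2 L Mi := by
    refine (Dfn.all (P := fun u => φ (u 0) (u 2) → (∃ z, S z (u 0)) → ¬ lt (u 0) (u 1)) ?_).congr
      fun v => Iff.rfl
    refine (hφ.d2.at 0 2).imp (Dfn.imp ?_ (dlt.at 0 1).not)
    exact (Dfn.ex (P := fun u => S (u 0) (u 1)) (hSI.d2.at 0 1)).congr fun v => Iff.rfl
  have hMin : (∃ x, φ x g ∧ ∃ z, S z x) → ∃ x, (φ x g ∧ ∃ z, S z x) ∧ Mi x g := by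
    intro hx
    by_contra hcon
    have hd : Dfn L (fun v : ℕ → U => (∃ x, φ x (v 0) ∧ ∃ z, S z x) ∧
        ¬ ∃ x, (φ x (v 0) ∧ ∃ z, S z x) ∧ Mi x (v 0)) := by
      have dz : Dfn L (fun u : ℕ → U => ∃ z, S z (u 0)) :=
        (Dfn.ex (P := fun u => S (u 0) (u 1)) (hSI.d2.at 0 1)).congr fun v => Iff.rfl
      refine Dfn.and ?_ (Dfn.not ?_)
      · exact (Dfn.ex (P := fun u => φ (u 0) (u 1) ∧ ∃ z, S z (u 0))
          ((hφ.d2.at 0 1).and dz)).congr fun v => Iff.rfl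
      · exact (Dfn.ex (P := fun u => (φ (u 0) (u 1) ∧ ∃ z, S z (u 0)) ∧ Mi (u 0) (u 1))
          (((hφ.d2.at 0 1).and dz).and (dMi.at 0 1))).congr fun v => Iff.rfl
    have hi := hC.gen hH.gD hH.g0 (DP.of0 hC.ne hd) ⟨hx, hcon⟩
    obtain ⟨y, hy, hy1, hy2⟩ := hi.nonempty
    exact hy2 (hC.exists_min hSI hSf hφ hy hy1)
  obtain ⟨xm, ⟨hxm1, hxm2⟩, hxm3⟩ := hMin ⟨b, hφb, hdD b hb hb0⟩
  have hbm : Mi b g := (dMi.iff_of (hφe xm hxm1)).2 hxm3
  -- reflect to an algebraic parameter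
  have hψ : D2 L (fun x y => φ y x ∧ Mi y x) := Dfn.and (hφ.d2.at 1 0) (dMi.at 1 0)
  obtain ⟨m, hm, hφm, hMim⟩ := not_ar_fs hS hC hb hb0 hH.gD hn hψ ⟨hφb, hbm⟩
  have hθ : DP L (D ∩ N0) (fun x => φ x m) := ⟨fun _ => m, fun _ => hm, _, hφ.d2, fun x => Iff.rfl⟩
  have hθi : {x | x ∈ D ∩ N0 ∧ φ x m}.Infinite :=
    hC.gen hb hb0 (DP.mono inter_subset_right hθ) hφm
  obtain ⟨x', hx', hφx', b2, hb2, hb20, hφb2⟩ := hB _ hθ hθi
  have hfin : {x | x ∈ D ∩ N0 ∧ (x ∈ D ∧ ¬ S x x')}.Finite := by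
    by_contra hinf
    have hθ' : DP L (D ∩ N0) (fun x => x ∈ D ∧ ¬ S x x') :=
      hDdp.and (DP.not ⟨fun _ => x', fun _ => hx', _, hSI.d2, fun x => Iff.rfl⟩)
    obtain ⟨x, hx1, -, hx2⟩ := hfull b2 hb2 hb20 _ hθ' hinf
    exact hx2 ⟨b2, Or.inr hφb2, Or.inl hx1⟩
  have hgenS : ∀ x ∈ D, x ∉ N0 → S x x' := by
    intro x hx hx0
    by_contra hcon
    have hdp : DP L N0 (fun x => x ∈ D ∧ ¬ S x x') :=
      hC.dpD.and (DP.not ⟨fun _ => x', fun _ => hx'.2, _, hSI.d2, fun x => Iff.rfl⟩)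
    exact hx0 (hC.fin_mem hdp hfin hx ⟨hx, hcon⟩).2
  obtain ⟨z, hz1, hz2⟩ := (hC.inf.sdiff hfin).nonempty
  have hzS : S z x' := by
    by_contra hcon
    exact hz2 ⟨hz1, hz1.1, hcon⟩
  refine hMim x' hφx' ⟨z, hzS⟩ ⟨fun w hw => ?_, fun h => ?_⟩
  · exact hgenS w (hSI.sub _ _ hw) (hSI.si b hb hb0 w hw)
  · exact hSI.si b hb hb0 z (h z hzS) hz1.2

end Run7.h353
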