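import Pool.Agent.Run7.h353.Dim

set_option autoImplicit false

/-!
# Infinitely many countable models
-/

open FirstOrder FirstOrder.Language Set

namespace Run7.h353

variable {L : FirstOrder.Language.{0, 0}} {U : Type} [L.Structure U] {N0 D : Set U}

/-- minimal definable sets in small structures -/
lemma exists_cx [Countable (L.Formula ℕ)] (hS : Sat L U) (hsm : Small L U) (htv : TV L N0)
    {D0 : Set U} (hD : Dfn L (fun v : ℕ → U => v 0 ∈ D0)) (hinf : (D0 ∩ N0).Infinite)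
    (halg : ∀ a ∈ D0 ∩ N0, Alg L a) : ∃ D ⊆ D0, Cx L N0 D := by
  classical
  obtain ⟨a, ha⟩ := hinf.nonempty
  by_contra hcon
  push Not at hcon
  obtain ⟨e, he⟩ := hsm 1
  have hsp : ∀ Q, Dfn L Q → {x | x ∈ D0 ∩ N0 ∧ Q (fun _ => x)}.Infinite → ∃ R, Dfn L R ∧
      {x | x ∈ D0 ∩ N0 ∧ (Q (fun _ => x) ∧ R (fun _ => x))}.Infinite ∧
      {x | x ∈ D0 ∩ N0 ∧ (Q (fun _ => x) ∧ ¬ R (fun _ => x))}.Infinite := by
    intro Q hQ hQi
    by_contra h
    push Not at h
    have e1 : ∀ x, x ∈ {x | x ∈ D0 ∧ Q (fun _ => x)} ∩ N0 ↔ x ∈ D0 ∩ N0 ∧ Q (fun _ => x) := by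
      intro x
      constructor
      · rintro ⟨⟨h1, h2⟩, h3⟩; exact ⟨⟨h1, h3⟩, h2⟩
      · rintro ⟨⟨h1, h3⟩, h2⟩; exact ⟨⟨h1, h2⟩, h3⟩
    refine hcon {x | x ∈ D0 ∧ Q (fun _ => x)} (fun x hx => hx.1)
      ⟨htv, hD.and (hQ.subst fun _ => 0), ?_, ?_, ?_⟩
    · refine hQi.mono fun x hx => (e1 x).2 hx
    · intro x hx
      exact halg x ⟨hx.1.1, hx.2⟩
    · intro R hR
      by_cases h1 : {x | x ∈ D0 ∩ N0 ∧ (Q (fun _ => x) ∧ R (fun _ => x))}.Infinite
      · right
        have := h R hR h1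
        refine Set.Finite.subset this fun x hx => ?_
        exact ⟨((e1 x).1 hx.1).1, ((e1 x).1 hx.1).2, hx.2⟩
      · left
        refine Set.Finite.subset (not_infinite.1 h1) fun x hx => ?_
        exact ⟨((e1 x).1 hx.1).1, ((e1 x).1 hx.1).2, hx.2⟩
  obtain ⟨x, -, hx⟩ := diag hS (fun _ => a) {P | ∃ Q, Dfn L Q ∧
      {x | x ∈ D0 ∩ N0 ∧ Q (fun _ => x)}.Infinite ∧ P = fun v => v 0 ∈ D0 ∧ Q (fun _ => v 0)}
    (by
      rintro P ⟨Q, hQ, -, rfl⟩
      exact hD.and (hQ.subst fun _ => 0))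
    (by
      rintro P ⟨Q, hQ, hi, rfl⟩
      obtain ⟨x, hx1, hx2⟩ := hi.nonempty
      exact ⟨x, hx1.1, hx2⟩)
    (by
      rintro P ⟨Q, hQ, hi, rfl⟩
      obtain ⟨R, hR, h1, h2⟩ := hsp Q hQ hi
      refine ⟨_, hR.subst (fun _ => 0), ⟨_, hQ.and hR, h1, ?_⟩, ⟨_, hQ.and hR.not, h2, ?_⟩⟩
      · funext v
        exact propext and_assoc
      · funext v
        exact propext and_assoc)
    _ ⟨_, Dfn.tr, by simpa using hinf, rfl⟩ e
  have hw : Wd 1 (cons x (fun _ : ℕ => a)) := Wd.cons (n := 0) (w := fun _ => a)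
    (fun i _ => rfl) x
  obtain ⟨k, hk⟩ := he _ hw
  exact hx k hk

lemma Cl.of_alg (hC : Cx L N0 D) {x : U} (hx : x ∈ D ∩ N0) (z : ℕ → U) : Cl L N0 D z x := by
  obtain ⟨P, hP, h1, h2⟩ := hC.alg x hx
  exact ⟨hx.1, _, hP.subst (fun _ => 0), h1, h2.subset fun y hy => hy.2⟩

omit [L.Structure U] in
lemma app_wd (l : List U) (a : U) : Wd l.length (app l (fun _ => a)) := by
  induction l with
  | nil => exact fun i _ => rfl
  | cons x l ih => exact ih.cons x

omit [L.Structure U] in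
lemma app_map (g : U → U) (l : List U) (z : ℕ → U) : g ∘ app l z = app (l.map g) (g ∘ z) := by
  induction l with
  | nil => rfl
  | cons x l ih =>
    funext n
    cases n with
    | zero => rfl
    | succ n => exact congrFun ih n

/-- infinitely many models in the small case -/
lemma many_of_small [Countable (L.Formula ℕ)] (hS : Sat L U) (hsm : Small L U) (hC : Cx L N0 D)
    (hNO : NOrd L (D ∩ N0)) :
    ∃ N : ℕ → Set U, (∀ k, Mdl L (N k)) ∧ ∀ i j, i ≠ j → ¬ IsoS L (N i) (N j) := by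
  classical
  obtain ⟨g, hg, hg0, -⟩ := hC.exists_gen hS Dfn.tr (m := fun _ => Classical.choice ⟨hC.ne.some⟩)
    (by simpa using hC.inf)
  have hcA : (D ∩ N0).Countable :=
    (alg_countable (L := L) (U := U)).mono fun x hx => hC.alg x hx
  obtain ⟨α, hα⟩ := hcA.exists_eq_range hC.inf.nonempty
  have hαm : ∀ i, α i ∈ D ∩ N0 := fun i => hα ▸ mem_range_self i
  have hαD : ∀ i, α i ∈ D := fun i => (hαm i).1
  choose l hl1 hl2 hl3 using fun n => hC.exists_ind hS n α
  let w : ℕ → ℕ → U := fun n => app (l n) (fun _ => α 0)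
  have hw : ∀ n, Wd n (w n) := fun n => by
    have := app_wd (l n) (α 0)
    rwa [hl1] at this
  choose N hN1 hN2 hN3 using fun n => exists_atomic hS hsm (hw n)
  have hsb : ∀ n, Sb (w n) (app (l n) α) := fun n => Sb.app _ ⟨fun _ => 0, rfl⟩
  have hcl : ∀ n, ∀ d ∈ D ∩ N n, Cl L N0 D (app (l n) α) d := by
    rintro n d ⟨hdD, hdN⟩
    by_cases hd0 : d ∈ N0
    · exact Cl.of_alg hC ⟨hdD, hd0⟩ _
    · obtain ⟨P, hP⟩ := hN3 n 1 (cons d (w n)) (fun m => rfl)
        (fun m => mem_cons (S := N n) hdN (hN2 n) m)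
      obtain ⟨f, hf⟩ := hsb n
      refine ⟨hdD, _, hP.dfn.subst (lft f), ?_, ?_⟩
      · rw [cons_comp_lft, ← hf]
        exact hP.holds
      · refine Set.finite_empty.subset ?_
        rintro x ⟨hx1, hx2⟩
        rw [cons_comp_lft, ← hf] at hx2
        have h1 := hP.eqv (cons x (w n)) (fun m => rfl) hx2
        have h2 : Eqv L (fun _ => x) (fun _ => d) := (h1.subst fun _ => 0).symm
        exact absurd (hC.eqvA h2 hx1).2 hd0
  have hlN : ∀ n, ∀ x ∈ l n, x ∈ N n := by
    intro n x hx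
    have h1 : ∃ i, w n i = x := by
      have : ∀ (s : List U) (x : U), x ∈ s → ∃ i, app s (fun _ => α 0) i = x := by
        intro s
        induction s with
        | nil => intro x hx; simp at hx
        | cons y s ih =>
          intro x hx
          rcases List.mem_cons.1 hx with rfl | hx
          · exact ⟨0, rfl⟩
          · obtain ⟨i, hi⟩ := ih x hx
            exact ⟨i + 1, hi⟩
      exact this _ _ hx
    obtain ⟨i, hi⟩ := h1
    rw [← hi]
    exact hN2 n i
  have hAN : ∀ n, ∀ x ∈ D ∩ N0, x ∈ N n := fun n x hx =>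
    (hC.alg x hx).mem (hN1 n).tv (hN1 n).ne
  have key : ∀ m n, IsoS L (N m) (N n) → m ≤ n := by
    rintro m n ⟨φ, h1, h2, h3⟩
    have hinj : ∀ x ∈ N m, ∀ y ∈ N m, φ x = φ y → x = y := by
      intro x hx y hy hxy
      have := h3 (cons x (fun _ => y)) (fun i => mem_cons (S := N m) hx (fun _ => hy) i) _
        (Dfn.eq 0 1)
      simp only [cons_zero, cons_succ, Function.comp_apply] at this
      exact this.2 hxy
    have hty : ∀ x ∈ N m, Eqv L (fun _ => x) (fun _ => φ x) := fun x hx =>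
      h3 (fun _ => x) (fun _ => hx)
    have hCl : ∀ (z : ℕ → U) (b : U), (∀ i, z i ∈ N m) → b ∈ N m →
        Cl L N0 D (φ ∘ z) (φ b) → Cl L N0 D z b := by
      rintro z b hz hb ⟨hbD, P, hP, hP1, hP2⟩
      have e : ∀ x, cons (φ x) (φ ∘ z) = φ ∘ cons x z := by
        intro x
        funext i
        cases i <;> rfl
      refine ⟨(hty b hb _ hC.dD).2 hbD, P, hP, ?_, ?_⟩
      · rw [e] at hP1
        exact (h3 _ (fun i => mem_cons (S := N m) hb hz i) P hP).2 hP1
      · refine Set.Finite.of_finite_image (f := φ) (hP2.subset ?_) ?_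
        · rintro _ ⟨x, ⟨hx1, hx2⟩, rfl⟩
          refine ⟨hC.eqvA (hty x (hAN m x hx1)) hx1, ?_⟩
          rw [e]
          exact (h3 _ (fun i => mem_cons (S := N m) (hAN m x hx1) hz i) P hP).1 hx2
        · intro x hx y hy hxy
          exact hinj x (hAN m x hx.1) y (hAN m y hy.1) hxy
    have hInd : ∀ (s : List U) (z : ℕ → U), (∀ i, z i ∈ N m) → (∀ x ∈ s, x ∈ N m) →
        Ind L N0 D z s → Ind L N0 D (φ ∘ z) (s.map φ) := by
      intro s
      induction s with
      | nil => intro z _ _ _; trivial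
      | cons b s ih =>
        intro z hz hs h
        refine ⟨fun hc => h.1 (hCl z b hz (hs b (by simp)) hc), ?_⟩
        have := ih (cons b z) (fun i => mem_cons (S := N m) (hs b (by simp)) hz i)
          (fun x hx => hs x (by simp [hx])) h.2
        have e : φ ∘ cons b z = cons (φ b) (φ ∘ z) := by
          funext i
          cases i <;> rfl
        rwa [e] at this
    have h4 : Ind L N0 D (φ ∘ α) ((l m).map φ) :=
      hInd _ _ (fun i => hAN m _ (hαm i)) (hlN m) (hl3 m)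
    have h5 : Sb α (φ ∘ α) := by
      have : ∀ i, ∃ j, α i = φ (α j) := by
        intro i
        obtain ⟨x, hx1, hx2⟩ := h2 _ (hAN n _ (hαm i))
        have hx3 : x ∈ D ∩ N0 := by
          refine hC.eqvA ?_ (hαm i)
          rw [← hx2]
          exact (hty x hx1).symm
        rw [hα] at hx3
        obtain ⟨j, hj⟩ := hx3
        exact ⟨j, by rw [hj, hx2]⟩
      choose f hf using this
      exact ⟨f, funext hf⟩
    have h6 := (h4.mono h5).length_le hS hC hNO hg hg0 (l n) hαD (hl2 n) (by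
      intro x hx
      obtain ⟨y, hy, rfl⟩ := List.mem_map.1 hx
      exact (hty y (hlN m y hy) _ hC.dD).1 (hl2 m y hy)) (by
      intro x hx
      obtain ⟨y, hy, rfl⟩ := List.mem_map.1 hx
      exact hcl n _ ⟨(hty y (hlN m y hy) _ hC.dD).1 (hl2 m y hy), h1 _ (hlN m y hy)⟩)
    rw [List.length_map, hl1, hl1] at h6
    exact h6
  exact ⟨N, hN1, fun i j hij h => hij (le_antisymm (key i j h) (key j i h.symm))⟩

end Run7.h353
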