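import Pool.Agent.Run7.h353.Ultra

set_option autoImplicit false

/-!
# Small structures, countable elementary substructures, isolated types, atomic models
-/

open FirstOrder FirstOrder.Language Set

namespace Run7.h353

variable {L : FirstOrder.Language.{0, 0}} {U : Type} [L.Structure U]

/-- the sequence is constant from `n` on -/
def Wd (n : ℕ) (w : ℕ → U) : Prop := ∀ i, n ≤ i → w i = w n

variable (L U) in
/-- countably many types of each width -/
def Small : Prop := ∀ n, ∃ e : ℕ → ℕ → U, ∀ w, Wd n w → ∃ k, Eqv L w (e k)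

variable (L) in
/-- countable elementary substructures, as sets -/
structure Mdl (N : Set U) : Prop where
  tv : TV L N
  ct : N.Countable
  ne : N.Nonempty

lemma IsoS.symm {N N' : Set U} (h : IsoS L N N') : IsoS L N' N := by
  classical
  obtain ⟨g, h1, h2, h3⟩ := h
  choose f hf hf2 using h2
  let g' : U → U := fun y => if h : y ∈ N' then f y h else y
  have hg' : ∀ y ∈ N', g' y ∈ N ∧ g (g' y) = y := by
    intro y hy
    simp only [g', dif_pos hy]
    exact ⟨hf y hy, hf2 y hy⟩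
  have hinj : ∀ x ∈ N, ∀ y ∈ N, g x = g y → x = y := by
    intro x hx y hy hxy
    have := h3 (cons x (fun _ => y)) (fun i => by cases i <;> simp [hx, hy]) _ (Dfn.eq 0 1)
    simp only [cons_zero, cons_succ, Function.comp_apply] at this
    exact this.2 hxy
  refine ⟨g', fun x hx => (hg' x hx).1, fun y hy => ⟨g y, h1 y hy, ?_⟩, fun w hw => ?_⟩
  · exact hinj _ (hg' _ (h1 y hy)).1 _ hy (hg' _ (h1 y hy)).2
  · have := h3 (g' ∘ w) (fun i => (hg' _ (hw i)).1)
    have e : g ∘ (g' ∘ w) = w := by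
      funext i; exact (hg' _ (hw i)).2
    rw [e] at this
    exact this.symm

/-- downward Löwenheim-Skolem -/
lemma exists_mdl (hL : L.card ≤ Cardinal.aleph0) [Infinite U] (S : Set U) (hS : S.Countable) :
    ∃ N : Set U, S ⊆ N ∧ Mdl L N := by
  obtain ⟨N, h1, h2⟩ := exists_elementarySubstructure_card_eq L S Cardinal.aleph0.{0} le_rfl
    (by simpa using hS.le_aleph0) (by simpa using hL) (by simp)
  refine ⟨N, h1, tv_of_sub N, ?_, ?_⟩
  · have : Cardinal.mk N ≤ Cardinal.aleph0 := by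
      have := h2.le
      simpa using this
    exact Cardinal.le_aleph0_iff_set_countable.1 this
  · have : Nonempty N := by
      by_contra hcon
      have := not_nonempty_iff.1 hcon
      have h3 : Cardinal.mk N = 0 := Cardinal.mk_eq_zero N
      rw [h3] at h2
      simp at h2
      exact Cardinal.aleph0_ne_zero h2.symm
    obtain ⟨x⟩ := this
    exact ⟨x, x.2⟩

/-- a chain of pairwise non-isomorphic models if the structure is not small -/
lemma many_of_not_small (hL : L.card ≤ Cardinal.aleph0) [Infinite U] (h : ¬ Small L U) :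
    ∃ N : ℕ → Set U, (∀ k, Mdl L (N k)) ∧ ∀ i j, i ≠ j → ¬ IsoS L (N i) (N j) := by
  classical
  unfold Small at h
  push Not at h
  obtain ⟨n, hn⟩ := h
  have step : ∀ N : Set U, Mdl L N → ∃ N' : Set U, Mdl L N' ∧ N ⊆ N' ∧
      ∃ w, Wd n w ∧ (∀ i, w i ∈ N') ∧ ∀ v, Wd n v → (∀ i, v i ∈ N) → ¬ Eqv L w v := by
    intro N hN
    have : Countable N := hN.ct.to_subtype
    have : Nonempty N := hN.ne.to_subtype
    obtain ⟨e, he⟩ := exists_surjective_nat (Fin (n + 1) → N)
    obtain ⟨w, hw, hw2⟩ := hn (fun k i => (e k ⟨min i n, by omega⟩ : U))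
    obtain ⟨N', h1, h2⟩ := exists_mdl hL (N ∪ range w) (hN.ct.union (countable_range w))
    refine ⟨N', h2, subset_union_left.trans h1, w, hw, fun i => h1 (Or.inr ⟨i, rfl⟩), ?_⟩
    intro v hv hvN hwv
    obtain ⟨k, hk⟩ := he (fun i => ⟨v i, hvN i⟩)
    apply hw2 k
    have e1 : (fun i => (e k ⟨min i n, by omega⟩ : U)) = v := by
      funext i
      rw [hk]
      simp only
      rcases le_total i n with h | h
      · rw [min_eq_left h]
      · rw [min_eq_right h, hv i h]
    rw [e1]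
    exact hwv
  obtain ⟨N0, -, hN0⟩ := exists_mdl hL (∅ : Set U) countable_empty
  choose! F hF1 hF2 w hw1 hw2 hw3 using step
  let N : ℕ → Set U := fun k => Nat.rec N0 (fun _ => F) k
  have hN : ∀ k, Mdl L (N k) := by
    intro k
    induction k with
    | zero => exact hN0
    | succ k ih => exact hF1 _ ih
  have hmono : Monotone N := monotone_nat_of_le_succ fun k => hF2 _ (hN k)
  have key : ∀ i j, i < j → ¬ IsoS L (N j) (N i) := by
    rintro i j hij ⟨g, h1, h2, h3⟩
    have h4 : ∀ k, w (N i) k ∈ N j := fun k => hmono (Nat.succ_le_of_lt hij) (hw2 _ (hN i) k)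
    refine hw3 _ (hN i) (g ∘ w (N i)) (fun k hk => ?_) (fun k => h1 _ (h4 k)) (h3 _ h4)
    simp only [Function.comp_apply]
    rw [hw1 _ (hN i) k hk]
  refine ⟨N, hN, fun i j hij h => ?_⟩
  rcases lt_or_gt_of_ne hij with h' | h'
  · exact key i j h' h.symm
  · exact key j i h' h

lemma Wd.cons {n : ℕ} {w : ℕ → U} (h : Wd n w) (x : U) : Wd (n + 1) (cons x w) := by
  intro i hi
  cases i with
  | zero => omega
  | succ i => simp only [cons_succ]; exact h i (by omega)

/-- the diagonal lemma -/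
lemma diag [Countable (L.Formula ℕ)] (hS : Sat L U) (w : ℕ → U)
    (Big : Set ((ℕ → U) → Prop)) (hD : ∀ P ∈ Big, Dfn L P) (hne : ∀ P ∈ Big, ∃ x, P (cons x w))
    (hsplit : ∀ P ∈ Big, ∃ R, Dfn L R ∧ (fun v => P v ∧ R v) ∈ Big ∧ (fun v => P v ∧ ¬ R v) ∈ Big)
    (P0 : (ℕ → U) → Prop) (hP0 : P0 ∈ Big) (e : ℕ → ℕ → U) :
    ∃ x, P0 (cons x w) ∧ ∀ k, ¬ Eqv L (cons x w) (e k) := by
  classical
  have step : ∀ P ∈ Big, ∀ u : ℕ → U, ∃ Q ∈ Big, (∀ v, Q v → P v) ∧
      ∀ v, Q v → ¬ Eqv L v u := by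
    intro P hP u
    obtain ⟨R, hR, h1, h2⟩ := hsplit P hP
    by_cases hu : R u
    · exact ⟨_, h2, fun v hv => hv.1, fun v hv h => hv.2 ((h R hR).2 hu)⟩
    · exact ⟨_, h1, fun v hv => hv.1, fun v hv h => hu ((h R hR).1 hv.2)⟩
  choose! F hF1 hF2 hF3 using step
  let Q : ℕ → (ℕ → U) → Prop := fun k => Nat.rec P0 (fun k P => F P (e k)) k
  have hQ : ∀ k, Q k ∈ Big := by
    intro k
    induction k with
    | zero => exact hP0
    | succ k ih => exact hF1 _ ih _
  have hmono : ∀ i j, i ≤ j → ∀ v, Q j v → Q i v := by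
    intro i j hij
    induction j, hij using Nat.le_induction with
    | base => exact fun v hv => hv
    | succ j hj ih => exact fun v hv => ih v (hF2 _ (hQ j) _ v hv)
  obtain ⟨x, hx⟩ := hS w Q (fun n => hD _ (hQ n)) (fun n => by
    obtain ⟨x, hx⟩ := hne _ (hQ n)
    exact ⟨x, fun i hi => hmono i n hi.le _ hx⟩)
  exact ⟨x, hx 0, fun k => hF3 _ (hQ k) _ _ (hx (k + 1))⟩

variable (L) in
/-- `P` isolates the type of `x` over `w` -/
def Isol (P : (ℕ → U) → Prop) (x : U) (w : ℕ → U) : Prop :=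
  Dfn L P ∧ P (cons x w) ∧ ∀ y, P (cons y w) → Eqv L (cons x w) (cons y w)

/-- isolated types are dense over finite tuples in small structures -/
lemma Small.dense [Countable (L.Formula ℕ)] (hS : Sat L U) (hsm : Small L U) {n : ℕ} {w : ℕ → U}
    (hw : Wd n w) {Q : (ℕ → U) → Prop} (hQ : Dfn L Q) (hx : ∃ x, Q (cons x w)) :
    ∃ x P, Q (cons x w) ∧ Isol L P x w := by
  classical
  by_contra hcon
  push Not at hcon
  obtain ⟨e, he⟩ := hsm (n + 1)
  obtain ⟨x, hx1, hx2⟩ := diag hS w {P | Dfn L P ∧ (∀ v, P v → Q v) ∧ ∃ x, P (cons x w)}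
    (fun P hP => hP.1) (fun P hP => hP.2.2) (by
      rintro P ⟨hP, hPQ, x, hx⟩
      have h1 : ¬ Isol L P x w := hcon x P (hPQ _ hx)
      unfold Isol at h1
      push Not at h1
      obtain ⟨y, hy, hxy⟩ := h1 hP hx
      unfold Eqv at hxy
      push Not at hxy
      obtain ⟨R, hR, h2⟩ := hxy
      rcases h2 with ⟨h3, h4⟩ | ⟨h3, h4⟩
      · exact ⟨R, hR, ⟨hP.and hR, fun v hv => hPQ v hv.1, x, hx, h3⟩,
          ⟨hP.and hR.not, fun v hv => hPQ v hv.1, y, hy, h4⟩⟩
      · exact ⟨R, hR, ⟨hP.and hR, fun v hv => hPQ v hv.1, y, hy, h4⟩,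
          ⟨hP.and hR.not, fun v hv => hPQ v hv.1, x, hx, h3⟩⟩)
    Q ⟨hQ, fun v hv => hv, hx⟩ e
  obtain ⟨k, hk⟩ := he _ (hw.cons x)
  exact hx2 k hk

end Run7.h353
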