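import Pool.Agent.Run7.h353.Base

set_option autoImplicit false

/-!
# The ultrapower is saturated; elementary substructures from Tarski-Vaught sets
-/

open FirstOrder FirstOrder.Language Set Filter

namespace Run7.h353

/-- the ultrapower -/
abbrev Up (M : Type) : Type := ((hyperfilter ℕ : Ultrafilter ℕ) : Filter ℕ).Product (fun _ => M)

/-- the class of a sequence -/
noncomputable def up {M : Type} (x : ℕ → M) : Up M := (x : ((hyperfilter ℕ : Ultrafilter ℕ) : Filter ℕ).Product (fun _ => M))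

lemma exists_up {M : Type} (x : Up M) : ∃ y : ℕ → M, up y = x := by
  induction x using Quotient.inductionOn with
  | h a => exact ⟨a, rfl⟩

variable {L : FirstOrder.Language.{0, 0}} {M : Type} [L.Structure M] [Nonempty M]

lemma real_up {β : Type} (φ : L.Formula β) (x : β → ℕ → M) :
    (φ.Realize fun i => up (x i)) ↔ ∀ᶠ a in (hyperfilter ℕ : Filter ℕ), φ.Realize fun i => x i a :=
  Ultraproduct.realize_formula_cast φ x

lemma real_up_const {β : Type} (φ : L.Formula β) (x : β → M) :
    (φ.Realize fun i => up (fun _ => x i)) ↔ φ.Realize x := by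
  rw [real_up]
  exact eventually_const

lemma sat_up : Sat L (Up M) := by
  classical
  intro w Q hQ hx
  choose φ hφ using hQ
  choose w' hw' using fun j => exists_up (w j)
  have hcons : ∀ (x : ℕ → M), cons (up x) w = fun i => up (cons x w' i) := by
    intro x
    funext i
    cases i with
    | zero => rfl
    | succ i => exact (hw' i).symm
  have hc2 : ∀ (x : ℕ → M) (k : ℕ), (fun i => cons x w' i k) = cons (x k) (fun j => w' j k) := by
    intro x k
    funext i
    cases i <;> rfl
  have hiff : ∀ (x : ℕ → M) (n : ℕ), Q n (cons (up x) w) ↔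
      ∀ᶠ k in (hyperfilter ℕ : Filter ℕ), (φ n).Realize (cons (x k) (fun j => w' j k)) := by
    intro x n
    rw [← hφ n, hcons, real_up]
    simp only [hc2]
  let G : ℕ → ℕ → Prop := fun n k => ∃ y : M, ∀ i < n, (φ i).Realize (cons y (fun j => w' j k))
  have hG : ∀ n, ∀ᶠ k in (hyperfilter ℕ : Filter ℕ), G n k := by
    intro n
    obtain ⟨x, hx⟩ := hx n
    obtain ⟨x, rfl⟩ := exists_up x
    have h1 : ∀ i < n, ∀ᶠ k in (hyperfilter ℕ : Filter ℕ),
        (φ i).Realize (cons (x k) (fun j => w' j k)) := fun i hi => (hiff x i).1 (hx i hi)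
    have h2 : ∀ᶠ k in (hyperfilter ℕ : Filter ℕ), ∀ i ∈ Finset.range n,
        (φ i).Realize (cons (x k) (fun j => w' j k)) := by
      rw [Filter.eventually_all_finset]
      exact fun i hi => h1 i (Finset.mem_range.1 hi)
    filter_upwards [h2] with k hk
    exact ⟨x k, fun i hi => hk i (Finset.mem_range.2 hi)⟩
  have hG0 : ∀ k, G 0 k := fun k => ⟨Classical.arbitrary M, fun i hi => absurd hi (Nat.not_lt_zero i)⟩
  let N : ℕ → ℕ := fun k => Nat.findGreatest (fun n => G n k) k
  have hN : ∀ k, G (N k) k := fun k =>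
    Nat.findGreatest_spec (P := fun n => G n k) (Nat.zero_le k) (hG0 k)
  choose x hx' using hN
  refine ⟨up x, fun n => ?_⟩
  rw [hiff]
  have h3 : ∀ᶠ k in (hyperfilter ℕ : Filter ℕ), n + 1 ≤ k :=
    Nat.hyperfilter_le_atTop (eventually_ge_atTop (n + 1))
  filter_upwards [h3, hG (n + 1)] with k hk1 hk2
  have h4 : n + 1 ≤ N k := Nat.le_findGreatest hk1 hk2
  exact hx' k n h4

section

variable {U : Type} [L.Structure U]

lemma TV.exists_sub {N : Set U} (h : TV L N) (hne : N.Nonempty) :
    ∃ S : L.ElementarySubstructure U, (S : Set U) = N := by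
  classical
  obtain ⟨a0, ha0⟩ := hne
  have hfun : ∀ {n : ℕ} (f : L.Functions n) (x : Fin n → U), (∀ i, x i ∈ N) →
      Structure.funMap f x ∈ N := by
    intro n f x hx
    let v : ℕ → U := fun i => if h : i < n then x ⟨i, h⟩ else a0
    have hv : ∀ i, v i ∈ N := by
      intro i
      by_cases hi : i < n
      · simp only [v, dif_pos hi]; exact hx _
      · simp only [v, dif_neg hi]; exact ha0
    have hD : Dfn L (fun u : ℕ → U => u 0 = Structure.funMap f (fun i : Fin n => u (i + 1))) :=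
      ⟨Term.equal (Term.var 0) (Term.func f (fun i : Fin n => Term.var ((i : ℕ) + 1))), fun u => by
        rw [Formula.realize_equal]; rfl⟩
    obtain ⟨y, hy, hy2⟩ := h v hv _ hD ⟨Structure.funMap f x, by
      simp only [cons_zero, cons_succ]
      congr 1
      funext i
      simp [v]⟩
    simp only [cons_zero, cons_succ] at hy2
    have e : (fun i : Fin n => v i) = x := by
      funext i
      simp [v]
    rw [e] at hy2
    rw [← hy2]
    exact hy
  let S0 : L.Substructure U := ⟨N, fun f x hx => hfun f x hx⟩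
  refine ⟨S0.toElementarySubstructure ?_, rfl⟩
  intro n φ x a ha
  let g : Empty ⊕ Fin (n + 1) → ℕ := Sum.elim Empty.elim
    (fun i => if (i : ℕ) = n then 0 else (i : ℕ) + 1)
  have hD : Dfn L (fun u : ℕ → U => φ.Realize default
      (fun i : Fin (n + 1) => u (if (i : ℕ) = n then 0 else (i : ℕ) + 1))) := by
    refine ⟨φ.toFormula.relabel g, fun u => ?_⟩
    rw [Formula.realize_relabel, BoundedFormula.realize_toFormula]
    have e1 : ((u ∘ g) ∘ Sum.inl) = (default : Empty → U) := Subsingleton.elim _ _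
    rw [e1]
    rfl
  let v : ℕ → U := fun i => if h : i < n then x ⟨i, h⟩ else a0
  have hv : ∀ i, v i ∈ N := by
    intro i
    by_cases hi : i < n
    · simp only [v, dif_pos hi]; exact (x _).2
    · simp only [v, dif_neg hi]; exact ha0
  have key : ∀ b : U, (fun i : Fin (n + 1) => cons b v (if (i : ℕ) = n then 0 else (i : ℕ) + 1)) =
      (Fin.snoc ((↑) ∘ x) b : Fin (n + 1) → U) := by
    intro b
    funext i
    refine Fin.lastCases ?_ (fun j => ?_) i
    · simp
    · have hj : (j : ℕ) ≠ n := j.2.ne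
      simp [hj, v]
  obtain ⟨b, hb, hb2⟩ := h v hv _ hD ⟨a, by rw [key]; exact ha⟩
  refine ⟨⟨b, hb⟩, ?_⟩
  rw [key] at hb2
  exact hb2

lemma tv_of_sub (S : L.ElementarySubstructure U) : TV L (S : Set U) := by
  intro v hv P hP hx
  obtain ⟨ψ, hψ⟩ := hP
  let g : ℕ → ℕ ⊕ Fin 1 := fun n : ℕ => Nat.casesOn n (Sum.inr 0) Sum.inl
  let w : ℕ → S := fun i => ⟨v i, hv i⟩
  have h1 : ((ψ.relabel g).iExs (Fin 1)).Realize w := by
    rw [← S.subtype.map_formula, show (⇑S.subtype ∘ w) = v from rfl, Formula.realize_iExs]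
    obtain ⟨x, hx⟩ := hx
    refine ⟨fun _ => x, ?_⟩
    rw [Formula.realize_relabel, hψ]
    have e : (Sum.elim v (fun _ => x) ∘ g) = cons x v := by
      funext n; cases n <;> rfl
    rwa [e]
  rw [Formula.realize_iExs] at h1
  obtain ⟨i, hi⟩ := h1
  refine ⟨i 0, (i 0).2, ?_⟩
  rw [Formula.realize_relabel, ← S.subtype.map_formula] at hi
  have e : (⇑S.subtype ∘ Sum.elim w i ∘ g) = cons (i 0 : U) v := by
    funext n; cases n <;> rfl
  rwa [e, hψ] at hi

variable (L) in
/-- an isomorphism between subsets that preserves all formulas -/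
def IsoS (N N' : Set U) : Prop := ∃ g : U → U, (∀ x ∈ N, g x ∈ N') ∧ (∀ y ∈ N', ∃ x ∈ N, g x = y) ∧
  ∀ w : ℕ → U, (∀ i, w i ∈ N) → Eqv L w (g ∘ w)

lemma isoS_of_equiv {S S' : L.ElementarySubstructure U} (g : S ≃[L] S') :
    IsoS L (S : Set U) (S' : Set U) := by
  classical
  refine ⟨fun x => if h : x ∈ S then (g ⟨x, h⟩ : U) else x, fun x hx => ?_, fun y hy => ?_,
    fun w hw => ?_⟩
  · have hx' : x ∈ S := hx
    simp only [dif_pos hx']
    exact (g _).2
  · refine ⟨(g.symm ⟨y, hy⟩ : S), (g.symm ⟨y, hy⟩).2, ?_⟩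
    have h : ((g.symm ⟨y, hy⟩ : S) : U) ∈ S := (g.symm ⟨y, hy⟩).2
    simp only [dif_pos h]
    have : g ⟨((g.symm ⟨y, hy⟩ : S) : U), h⟩ = ⟨y, hy⟩ := g.apply_symm_apply _
    rw [this]
  · rintro P ⟨φ, hφ⟩
    let w' : ℕ → S := fun i => ⟨w i, hw i⟩
    have e1 : w = ⇑S.subtype ∘ w' := rfl
    have e2 : ((fun x => if h : x ∈ S then (g ⟨x, h⟩ : U) else x) ∘ w) = ⇑S'.subtype ∘ (⇑g ∘ w') := by
      funext i
      have h : w i ∈ S := hw i
      simp only [Function.comp_apply, dif_pos h]
      rfl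
    rw [← hφ, ← hφ, e2, S'.subtype.map_formula]
    rw [e1, S.subtype.map_formula]
    exact (StrongHomClass.realize_formula g φ).symm

/-- from Tarski-Vaught sets to models -/
lemma bridge {T : L.Theory} [U ⊨ T] [Nonempty U] {n : ℕ} (N : Fin n → Set U)
    (h1 : ∀ i, TV L (N i)) (h2 : ∀ i, (N i).Countable) (h3 : ∀ i, (N i).Nonempty)
    (h4 : ∀ i j, i ≠ j → ¬ IsoS L (N i) (N j)) :
    ∃ K : Fin n → T.ModelType.{0, 0, 0}, (∀ i, Countable (K i)) ∧
      ∀ i j, i ≠ j → IsEmpty ((K i) ≃[L] (K j)) := by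
  choose S hS using fun i => (h1 i).exists_sub (h3 i)
  let MM : T.ModelType := Theory.ModelType.of T U
  refine ⟨fun i => ElementarySubstructure.toModel T (M := MM) (S i), fun i => ?_, fun i j hij => ?_⟩
  · have : (S i : Set U).Countable := by rw [hS i]; exact h2 i
    exact this.to_subtype
  · refine ⟨fun g => h4 i j hij ?_⟩
    have := isoS_of_equiv (S := S i) (S' := S j) g
    rwa [hS i, hS j] at this

end

end Run7.h353
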